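import Mathlib

/-!
The band-limited minorant `sin²(πu) / (π² u² (1 - u²))`.
-/

namespace Pool.Agent.H32.Low

open Real MeasureTheory intervalIntegral

/-- Fourier side of the kernel -/
noncomputable def ph (t : ℝ) : ℝ := (1 - t) + Real.sin (2 * π * t) / (2 * π)

/-- The kernel -/
noncomputable def KK (u : ℝ) : ℝ := 2 * ∫ t in (0:ℝ)..1, ph t * Real.cos (2 * π * t * u)

lemma ph_cont : Continuous ph := by
  unfold ph
  fun_prop

lemma abs_ph_le {t : ℝ} (h0 : 0 ≤ t) (h1 : t ≤ 1) : |ph t| ≤ 2 := by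
  unfold ph
  have hpi := Real.pi_gt_three
  calc |(1 - t) + Real.sin (2 * π * t) / (2 * π)| ≤ |1 - t| + |Real.sin (2 * π * t) / (2 * π)| :=
        abs_add_le _ _
    _ ≤ 1 + 1 := by
        apply add_le_add
        · rw [abs_le]; constructor <;> linarith
        · rw [abs_div, abs_of_pos (by positivity : (0:ℝ) < 2 * π), div_le_one (by positivity)]
          have := Real.abs_sin_le_one (2 * π * t)
          linarith
    _ = 2 := by norm_num

lemma abs_KK_le (u : ℝ) : |KK u| ≤ 4 := by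
  unfold KK
  have h := norm_integral_le_of_norm_le_const (a := (0:ℝ)) (b := 1) (C := 2)
    (f := fun t => ph t * Real.cos (2 * π * t * u)) (by
      intro t ht
      rw [Set.uIoc_of_le zero_le_one] at ht
      rw [norm_mul, Real.norm_eq_abs, Real.norm_eq_abs]
      calc |ph t| * |Real.cos (2 * π * t * u)| ≤ 2 * 1 := by
            apply mul_le_mul (abs_ph_le ht.1.le ht.2) (Real.abs_cos_le_one _) (abs_nonneg _)
            norm_num
        _ = 2 := by norm_num)
  rw [Real.norm_eq_abs] at h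
  rw [abs_mul, abs_of_pos (by norm_num : (0:ℝ) < 2)]
  have h1 : |(1:ℝ) - 0| = 1 := by norm_num
  rw [h1] at h
  linarith

lemma KK_even (u : ℝ) : KK (-u) = KK u := by
  unfold KK
  congr 1
  apply integral_congr
  intro t _
  simp only
  rw [show 2 * π * t * -u = -(2 * π * t * u) by ring, Real.cos_neg]

lemma KK_closed {u : ℝ} (h0 : u ≠ 0) (h1 : u ≠ 1) (h2 : u ≠ -1) :
    KK u = Real.sin (π * u) ^ 2 / (π ^ 2 * u ^ 2 * (1 - u ^ 2)) := by
  have hpi : π ≠ 0 := Real.pi_ne_zero
  have hp : 1 + u ≠ 0 := by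
    intro h; apply h2; linarith
  have hm : 1 - u ≠ 0 := by
    intro h; apply h1; linarith
  have h1u : 1 - u ^ 2 ≠ 0 := by
    have : 1 - u ^ 2 = (1 + u) * (1 - u) := by ring
    rw [this]
    exact mul_ne_zero hp hm
  set F : ℝ → ℝ := fun t => (1 - t) * (Real.sin (2 * π * t * u) / (2 * π * u)) -
    Real.cos (2 * π * t * u) / (2 * π * u) ^ 2 -
    (1 / (4 * π)) * (Real.cos (2 * π * (1 + u) * t) / (2 * π * (1 + u)) +
      Real.cos (2 * π * (1 - u) * t) / (2 * π * (1 - u))) with hF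
  have hd : ∀ t ∈ Set.uIcc (0:ℝ) 1, HasDerivAt F (ph t * Real.cos (2 * π * t * u)) t := by
    intro t _
    have a1 : HasDerivAt (fun t : ℝ => 2 * π * t * u) (2 * π * u) t := by
      have := ((hasDerivAt_id t).const_mul (2 * π)).mul_const u
      simpa using this
    have a2 : HasDerivAt (fun t : ℝ => 2 * π * (1 + u) * t) (2 * π * (1 + u)) t := by
      simpa using (hasDerivAt_id t).const_mul (2 * π * (1 + u))
    have a3 : HasDerivAt (fun t : ℝ => 2 * π * (1 - u) * t) (2 * π * (1 - u)) t := by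
      simpa using (hasDerivAt_id t).const_mul (2 * π * (1 - u))
    have b1 := (((hasDerivAt_id t).const_sub 1).mul (a1.sin.div_const (2 * π * u)))
    have b2 := a1.cos.div_const ((2 * π * u) ^ 2)
    have b3 := ((a2.cos.div_const (2 * π * (1 + u))).add
      (a3.cos.div_const (2 * π * (1 - u)))).const_mul (1 / (4 * π))
    have b4 := (b1.sub b2).sub b3
    refine b4.congr_deriv ?_
    have e1 : Real.sin (2 * π * (1 + u) * t) = Real.sin (2 * π * t) * Real.cos (2 * π * t * u) +
        Real.cos (2 * π * t) * Real.sin (2 * π * t * u) := by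
      rw [← Real.sin_add]; congr 1; ring
    have e2 : Real.sin (2 * π * (1 - u) * t) = Real.sin (2 * π * t) * Real.cos (2 * π * t * u) -
        Real.cos (2 * π * t) * Real.sin (2 * π * t * u) := by
      rw [← Real.sin_sub]; congr 1; ring
    rw [e1, e2]
    unfold ph
    simp only [id]
    field_simp
    ring
  have hcont : Continuous (fun t => ph t * Real.cos (2 * π * t * u)) := by
    have := ph_cont
    fun_prop
  have hint := integral_eq_sub_of_hasDerivAt hd (hcont.intervalIntegrable _ _)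
  unfold KK
  rw [hint, hF]
  simp only
  have c1 : Real.cos (2 * π * (1 + u) * 1) = Real.cos (2 * π * u) := by
    rw [show 2 * π * (1 + u) * 1 = 2 * π * u + 2 * π by ring, Real.cos_add_two_pi]
  have c2 : Real.cos (2 * π * (1 - u) * 1) = Real.cos (2 * π * u) := by
    rw [show 2 * π * (1 - u) * 1 = 2 * π - 2 * π * u by ring, Real.cos_two_pi_sub]
  have c3 : Real.cos (2 * π * 1 * u) = Real.cos (2 * π * u) := by
    congr 1; ring
  have c4 : Real.cos (2 * π * u) = 1 - 2 * Real.sin (π * u) ^ 2 := by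
    rw [show 2 * π * u = 2 * (π * u) by ring, Real.cos_two_mul]
    have := Real.sin_sq_add_cos_sq (π * u)
    linarith
  rw [c1, c2, c3, c4]
  simp only [mul_zero, zero_mul, Real.cos_zero, Real.sin_zero, sub_self, zero_div]
  field_simp
  ring

lemma KK_zero : KK 0 = 1 := by
  have hpi : π ≠ 0 := Real.pi_ne_zero
  set F : ℝ → ℝ := fun t => t - t ^ 2 / 2 - Real.cos (2 * π * t) / (2 * π) ^ 2 with hF
  have hd : ∀ t ∈ Set.uIcc (0:ℝ) 1, HasDerivAt F (ph t * Real.cos (2 * π * t * 0)) t := by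
    intro t _
    have a1 : HasDerivAt (fun t : ℝ => 2 * π * t) (2 * π) t := by
      simpa using (hasDerivAt_id t).const_mul (2 * π)
    have b1 := ((hasDerivAt_id t).sub (((hasDerivAt_id t).pow 2).div_const 2)).sub
      (a1.cos.div_const ((2 * π) ^ 2))
    refine b1.congr_deriv ?_
    unfold ph
    simp
    field_simp
    ring
  have hcont : Continuous (fun t => ph t * Real.cos (2 * π * t * 0)) := by
    have := ph_cont
    fun_prop
  have hint := integral_eq_sub_of_hasDerivAt hd (hcont.intervalIntegrable _ _)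
  unfold KK
  rw [hint, hF]
  simp
  norm_num

lemma KK_one : KK 1 = 0 := by
  have hpi : π ≠ 0 := Real.pi_ne_zero
  set F : ℝ → ℝ := fun t => (1 - t) * (Real.sin (2 * π * t) / (2 * π)) -
    Real.cos (2 * π * t) / (2 * π) ^ 2 + Real.sin (2 * π * t) ^ 2 / (2 * (2 * π) ^ 2) with hF
  have hd : ∀ t ∈ Set.uIcc (0:ℝ) 1, HasDerivAt F (ph t * Real.cos (2 * π * t * 1)) t := by
    intro t _
    have a1 : HasDerivAt (fun t : ℝ => 2 * π * t) (2 * π) t := by
      simpa using (hasDerivAt_id t).const_mul (2 * π)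
    have b1 := ((((hasDerivAt_id t).const_sub 1).mul (a1.sin.div_const (2 * π))).sub
      (a1.cos.div_const ((2 * π) ^ 2))).add ((a1.sin.pow 2).div_const (2 * (2 * π) ^ 2))
    refine b1.congr_deriv ?_
    unfold ph
    simp
    field_simp
    ring
  have hcont : Continuous (fun t => ph t * Real.cos (2 * π * t * 1)) := by
    have := ph_cont
    fun_prop
  have hint := integral_eq_sub_of_hasDerivAt hd (hcont.intervalIntegrable _ _)
  unfold KK
  rw [hint, hF]
  simp

lemma KK_nonpos {u : ℝ} (h : 1 < |u|) : KK u ≤ 0 := by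
  have h0 : u ≠ 0 := by rintro rfl; norm_num at h
  have h1 : u ≠ 1 := by rintro rfl; norm_num at h
  have h2 : u ≠ -1 := by rintro rfl; norm_num at h
  rw [KK_closed h0 h1 h2]
  have h3 : 1 < u ^ 2 := by
    rw [← sq_abs]
    nlinarith
  apply div_nonpos_of_nonneg_of_nonpos (sq_nonneg _)
  have : 0 < π ^ 2 * u ^ 2 := by positivity
  nlinarith

lemma KK_nonneg {u : ℝ} (h : |u| ≤ 1) : 0 ≤ KK u := by
  by_cases h0 : u = 0
  · rw [h0, KK_zero]; norm_num
  by_cases h1 : u = 1
  · rw [h1, KK_one]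
  by_cases h2 : u = -1
  · rw [h2, KK_even, KK_one]
  rw [KK_closed h0 h1 h2]
  have h3 : u ^ 2 ≤ 1 := by
    rw [← sq_abs]
    nlinarith [abs_nonneg u]
  apply div_nonneg (sq_nonneg _)
  have : 0 < π ^ 2 * u ^ 2 := by positivity
  nlinarith

lemma KK_ge {u : ℝ} (h : |u| ≤ 1 / 2) : 4 / π ^ 2 ≤ KK u := by
  have hpi := Real.pi_gt_three
  by_cases h0 : u = 0
  · rw [h0, KK_zero, div_le_one (by positivity)]
    nlinarith
  -- reduce to u > 0
  have key : ∀ v : ℝ, 0 < v → v ≤ 1 / 2 → 4 / π ^ 2 ≤ KK v := by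
    intro v hv0 hv
    rw [KK_closed hv0.ne' (by linarith) (by linarith)]
    have h3 : 2 * v ≤ Real.sin (π * v) := by
      have := Real.mul_le_sin (x := π * v) (by positivity) (by nlinarith)
      have h4 : 2 / π * (π * v) = 2 * v := by field_simp
      rwa [h4] at this
    have h4 : 4 * v ^ 2 ≤ Real.sin (π * v) ^ 2 := by nlinarith
    have h5 : 0 < 1 - v ^ 2 := by nlinarith
    rw [div_le_div_iff₀ (by positivity) (by positivity)]
    have h6 : 4 * (π ^ 2 * v ^ 2 * (1 - v ^ 2)) ≤ 4 * v ^ 2 * π ^ 2 := by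
      have : 0 ≤ π ^ 2 * v ^ 2 * v ^ 2 := by positivity
      nlinarith
    have h7 : 4 * v ^ 2 * π ^ 2 ≤ Real.sin (π * v) ^ 2 * π ^ 2 := by
      have : 0 ≤ π ^ 2 := by positivity
      nlinarith
    linarith
  rcases lt_or_gt_of_ne h0 with h1 | h1
  · rw [← KK_even]
    rw [abs_of_neg h1] at h
    exact key (-u) (by linarith) h
  · rw [abs_of_pos h1] at h
    exact key u h1 h

lemma KK_ge' {u : ℝ} (h : 1 < |u|) : -(1 / (2 * π * u ^ 2)) ≤ KK u := by
  have hpi := Real.pi_gt_three
  have key : ∀ v : ℝ, 1 < v → -(1 / (2 * π * v ^ 2)) ≤ KK v := by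
    intro v hv
    rw [KK_closed (by linarith) (by linarith) (by linarith)]
    have h1 : |Real.sin (π * v)| ≤ π * (v - 1) := by
      have h2 : Real.sin (π * v) = - Real.sin (π * (v - 1)) := by
        rw [show π * v = π * (v - 1) + π by ring, Real.sin_add_pi]
      rw [h2, abs_neg]
      calc |Real.sin (π * (v - 1))| ≤ |π * (v - 1)| := Real.abs_sin_le_abs
        _ = π * (v - 1) := abs_of_nonneg (by nlinarith)
    have h2 : Real.sin (π * v) ^ 2 ≤ π * (v - 1) := by
      rw [← sq_abs]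
      have h3 := Real.abs_sin_le_one (π * v)
      have h4 := abs_nonneg (Real.sin (π * v))
      nlinarith
    have h3 : Real.sin (π * v) ^ 2 / (π ^ 2 * v ^ 2 * (1 - v ^ 2)) =
        -(Real.sin (π * v) ^ 2 / (π ^ 2 * v ^ 2 * (v ^ 2 - 1))) := by
      rw [← div_neg]
      congr 1
      ring
    rw [h3, neg_le_neg_iff]
    have h4 : 0 < v ^ 2 - 1 := by nlinarith
    rw [div_le_div_iff₀ (by positivity) (by positivity)]
    have h5 : Real.sin (π * v) ^ 2 * (2 * π * v ^ 2) ≤ π * (v - 1) * (2 * π * v ^ 2) := by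
      gcongr
    have h6 : π * (v - 1) * (2 * π * v ^ 2) ≤ 1 * (π ^ 2 * v ^ 2 * (v ^ 2 - 1)) := by
      have h7 : 1 * (π ^ 2 * v ^ 2 * (v ^ 2 - 1)) - π * (v - 1) * (2 * π * v ^ 2) =
        π ^ 2 * v ^ 2 * (v - 1) * (v - 1) := by ring
      have h8 : 0 ≤ π ^ 2 * v ^ 2 * (v - 1) * (v - 1) := by
        have : 0 ≤ v - 1 := by linarith
        positivity
      linarith
    linarith
  rcases lt_or_ge u 0 with h1 | h1
  · rw [← KK_even, ← neg_sq]
    rw [abs_of_neg h1] at h
    exact key (-u) h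
  · rw [abs_of_nonneg h1] at h
    exact key u h

end Pool.Agent.H32.Low
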