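import Mathlib
import Pool.Agent.H32.Low.Kernel

/-!
The main term `∫_0^∞ e^{-sv} K((v-L)/ε) dv`.
-/

namespace Pool.Agent.H32.Low

open Real MeasureTheory intervalIntegral Filter Set Topology

lemma KK_cont : Continuous KK := by
  unfold KK
  apply Continuous.mul continuous_const
  apply intervalIntegral.continuous_parametric_intervalIntegral_of_continuous'
  have := ph_cont
  unfold Function.uncurry
  fun_prop

lemma f_int (s L ε : ℝ) (hs : 0 < s) :
    IntegrableOn (fun v => Real.exp (-s * v) * KK ((v - L) / ε)) (Ioi 0) := by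
  have h1 : IntegrableOn (fun v => Real.exp (-s * v) * 4) (Ioi 0) :=
    (integrableOn_exp_mul_Ioi (a := -s) (by linarith) 0).mul_const 4
  refine Integrable.mono' h1 ?_ ?_
  · apply Continuous.aestronglyMeasurable
    have := KK_cont
    fun_prop
  · refine Eventually.of_forall fun v => ?_
    rw [norm_mul, Real.norm_eq_abs, Real.norm_eq_abs, abs_of_pos (Real.exp_pos _)]
    exact mul_le_mul_of_nonneg_left (abs_KK_le _) (Real.exp_pos _).le

lemma tail_right (L ε : ℝ) (hε : 0 < ε) :
    IntegrableOn (fun v => ε ^ 2 / (2 * π * (v - L) ^ 2)) (Ioi (L + ε)) ∧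
    ∫ v in Ioi (L + ε), ε ^ 2 / (2 * π * (v - L) ^ 2) = ε / (2 * π) := by
  have hpi := Real.pi_pos
  have hd : ∀ v ∈ Ici (L + ε), HasDerivAt (fun v => -(ε ^ 2 / (2 * π) * (v - L)⁻¹))
      (ε ^ 2 / (2 * π * (v - L) ^ 2)) v := by
    intro v hv
    have hv' : L + ε ≤ v := hv
    have hne : v - L ≠ 0 := by
      have : 0 < v - L := by linarith
      exact this.ne'
    have h1 := (((hasDerivAt_id v).sub_const L).inv hne).const_mul (ε ^ 2 / (2 * π))
    refine h1.neg.congr_deriv ?_
    simp only [id]
    field_simp
  have hlim : Tendsto (fun v => -(ε ^ 2 / (2 * π) * (v - L)⁻¹)) atTop (𝓝 0) := by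
    have h1 : Tendsto (fun v : ℝ => v - L) atTop atTop := tendsto_atTop_add_const_right _ _ tendsto_id
    have h2 := (tendsto_inv_atTop_zero.comp h1).const_mul (ε ^ 2 / (2 * π))
    simpa using h2.neg
  have hpos : ∀ v ∈ Ioi (L + ε), 0 ≤ ε ^ 2 / (2 * π * (v - L) ^ 2) := by
    intro v _
    positivity
  have hint := integrableOn_Ioi_deriv_of_nonneg' hd hpos hlim
  refine ⟨hint, ?_⟩
  rw [integral_Ioi_of_hasDerivAt_of_tendsto' hd hint hlim]
  have : L + ε - L = ε := by ring
  rw [this]
  field_simp
  ring

lemma tail_left (L ε : ℝ) (hε : 0 < ε) (hL : ε ≤ L) :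
    IntegrableOn (fun v => ε ^ 2 / (2 * π * (v - L) ^ 2)) (Ioc 0 (L - ε)) ∧
    ∫ v in Ioc 0 (L - ε), ε ^ 2 / (2 * π * (v - L) ^ 2) ≤ ε / (2 * π) := by
  have hpi := Real.pi_pos
  have hle : 0 ≤ L - ε := by linarith
  have hd : ∀ v ∈ uIcc 0 (L - ε), HasDerivAt (fun v => -(ε ^ 2 / (2 * π) * (v - L)⁻¹))
      (ε ^ 2 / (2 * π * (v - L) ^ 2)) v := by
    intro v hv
    rw [uIcc_of_le hle] at hv
    have hne : v - L ≠ 0 := by
      have : v - L < 0 := by linarith [hv.2]
      exact this.ne
    have h1 := (((hasDerivAt_id v).sub_const L).inv hne).const_mul (ε ^ 2 / (2 * π))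
    refine h1.neg.congr_deriv ?_
    simp only [id]
    field_simp
  have hcont : ContinuousOn (fun v => ε ^ 2 / (2 * π * (v - L) ^ 2)) (uIcc 0 (L - ε)) := by
    intro v hv
    rw [uIcc_of_le hle] at hv
    have hne : v - L ≠ 0 := by
      have : v - L < 0 := by linarith [hv.2]
      exact this.ne
    apply ContinuousAt.continuousWithinAt
    have : 2 * π * (v - L) ^ 2 ≠ 0 := by positivity
    fun_prop (disch := exact this)
  have hii : IntervalIntegrable (fun v => ε ^ 2 / (2 * π * (v - L) ^ 2)) volume 0 (L - ε) :=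
    hcont.intervalIntegrable
  refine ⟨(intervalIntegrable_iff_integrableOn_Ioc_of_le hle).mp hii, ?_⟩
  rw [← intervalIntegral.integral_of_le hle, integral_eq_sub_of_hasDerivAt hd hii]
  have e1 : L - ε - L = -ε := by ring
  have e2 : (0 : ℝ) - L = -L := by ring
  rw [e1, e2]
  have hL0 : 0 < L := by linarith
  have h3 : -(ε ^ 2 / (2 * π) * (-ε)⁻¹) - -(ε ^ 2 / (2 * π) * (-L)⁻¹) =
      ε / (2 * π) - ε ^ 2 / (2 * π) / L := by
    rw [inv_neg, inv_neg]
    field_simp
  rw [h3]
  have : 0 ≤ ε ^ 2 / (2 * π) / L := by positivity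
  linarith

lemma main_term_ge (s L ε : ℝ) (hs : 0 < s) (hε : 0 < ε) (hL : ε ≤ L) :
    ε * (4 / π ^ 2 * Real.exp (-s * (L + ε)) - 1 / π) ≤
      ∫ v in Ioi 0, Real.exp (-s * v) * KK ((v - L) / ε) := by
  have hpi := Real.pi_pos
  set c : ℝ := 4 / π ^ 2 * Real.exp (-s * (L + ε)) with hc
  have hcpos : 0 < c := by positivity
  set q : ℝ → ℝ := fun v => ε ^ 2 / (2 * π * (v - L) ^ 2) with hq
  set g1 : ℝ → ℝ := (Icc (L - ε / 2) (L + ε / 2)).indicator (fun _ => c) with hg1
  set g2 : ℝ → ℝ := (Ioi (L + ε)).indicator q with hg2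
  set g3 : ℝ → ℝ := (Ioc 0 (L - ε)).indicator q with hg3
  obtain ⟨t1, t2⟩ := tail_right L ε hε
  obtain ⟨t3, t4⟩ := tail_left L ε hε hL
  have i1 : IntegrableOn g1 (Ioi 0) := by
    apply Integrable.integrableOn
    rw [hg1, integrable_indicator_iff measurableSet_Icc]
    exact continuous_const.integrableOn_Icc
  have i2 : IntegrableOn g2 (Ioi 0) := by
    apply Integrable.integrableOn
    rw [hg2, integrable_indicator_iff measurableSet_Ioi]
    exact t1
  have i3 : IntegrableOn g3 (Ioi 0) := by
    apply Integrable.integrableOn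
    rw [hg3, integrable_indicator_iff measurableSet_Ioc]
    exact t3
  have e1 : ∫ v in Ioi 0, g1 v = c * ε := by
    rw [hg1, setIntegral_indicator measurableSet_Icc]
    have h1 : Ioi 0 ∩ Icc (L - ε / 2) (L + ε / 2) = Icc (L - ε / 2) (L + ε / 2) := by
      apply inter_eq_right.mpr
      intro x hx
      have := hx.1
      simp only [mem_Ioi]
      linarith
    rw [h1, setIntegral_const]
    simp only [smul_eq_mul]
    rw [Measure.real, Real.volume_Icc, ENNReal.toReal_ofReal (by linarith)]
    ring
  have e2 : ∫ v in Ioi 0, g2 v = ε / (2 * π) := by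
    rw [hg2, setIntegral_indicator measurableSet_Ioi]
    have h1 : Ioi 0 ∩ Ioi (L + ε) = Ioi (L + ε) := by
      apply inter_eq_right.mpr
      intro x hx
      have : L + ε < x := hx
      simp only [mem_Ioi]
      linarith
    rw [h1]
    exact t2
  have e3 : ∫ v in Ioi 0, g3 v ≤ ε / (2 * π) := by
    rw [hg3, setIntegral_indicator measurableSet_Ioc]
    have h1 : Ioi 0 ∩ Ioc 0 (L - ε) = Ioc 0 (L - ε) := by
      apply inter_eq_right.mpr
      intro x hx
      exact hx.1
    rw [h1]
    exact t4
  have hmono : ∫ v in Ioi 0, (g1 v - g2 v - g3 v) ≤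
      ∫ v in Ioi 0, Real.exp (-s * v) * KK ((v - L) / ε) := by
    apply setIntegral_mono_on ((i1.sub i2).sub i3) (f_int s L ε hs) measurableSet_Ioi
    intro v hv
    show g1 v - g2 v - g3 v ≤ Real.exp (-s * v) * KK ((v - L) / ε)
    have hv0 : 0 < v := hv
    have hexp1 : Real.exp (-s * v) ≤ 1 := by
      rw [Real.exp_le_one_iff]
      nlinarith
    have habs : |(v - L) / ε| = |v - L| / ε := by rw [abs_div, abs_of_pos hε]
    by_cases h1 : |v - L| ≤ ε / 2
    · have h2 := abs_le.mp h1
      have a1 : g1 v = c := by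
        rw [hg1, indicator_of_mem]
        constructor <;> linarith
      have a2 : g2 v = 0 := by
        rw [hg2, indicator_of_notMem]
        simp only [mem_Ioi, not_lt]
        linarith
      have a3 : g3 v = 0 := by
        rw [hg3, indicator_of_notMem]
        simp only [mem_Ioc, not_and, not_le]
        intro _
        linarith
      rw [a1, a2, a3, sub_zero, sub_zero, hc, mul_comm]
      apply mul_le_mul
      · apply Real.exp_le_exp.mpr
        nlinarith
      · apply KK_ge
        rw [habs, div_le_iff₀ hε]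
        linarith
      · positivity
      · positivity
    by_cases h1' : |v - L| ≤ ε
    · have h2 := abs_le.mp h1'
      have a1 : g1 v = 0 := by
        rw [hg1, indicator_of_notMem]
        intro h
        apply h1
        rw [abs_le]
        constructor <;> linarith [h.1, h.2]
      have a2 : 0 ≤ g2 v := by
        rw [hg2]
        apply indicator_nonneg
        intro x _
        simp only [hq]
        positivity
      have a3 : 0 ≤ g3 v := by
        rw [hg3]
        apply indicator_nonneg
        intro x _
        simp only [hq]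
        positivity
      have : 0 ≤ Real.exp (-s * v) * KK ((v - L) / ε) := by
        apply mul_nonneg (Real.exp_pos _).le
        apply KK_nonneg
        rw [habs, div_le_one hε]
        exact h1'
      linarith
    · have h1'' : ε < |v - L| := not_le.mp h1'
      have a1 : g1 v = 0 := by
        rw [hg1, indicator_of_notMem]
        intro h
        apply h1
        rw [abs_le]
        constructor <;> linarith [h.1, h.2]
      have hb : -(q v) ≤ Real.exp (-s * v) * KK ((v - L) / ε) := by
        have h3 : 1 < |(v - L) / ε| := by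
          rw [habs, lt_div_iff₀ hε]
          linarith
        have h4 := KK_ge' h3
        have h5 : 1 / (2 * π * ((v - L) / ε) ^ 2) = q v := by
          simp only [hq]
          field_simp
        rw [h5] at h4
        have h6 := KK_nonpos h3
        nlinarith [Real.exp_pos (-s * v)]
      rcases le_or_gt v L with h2 | h2
      · have h3 : |v - L| = L - v := by rw [abs_of_nonpos] <;> linarith
        have a2 : 0 ≤ g2 v := by
          rw [hg2]
          apply indicator_nonneg
          intro x _
          simp only [hq]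
          positivity
        have a3 : g3 v = q v := by
          rw [hg3, indicator_of_mem]
          constructor <;> linarith
        linarith
      · have h3 : |v - L| = v - L := by rw [abs_of_nonneg] ; linarith
        have a2 : g2 v = q v := by
          rw [hg2, indicator_of_mem]
          simp only [mem_Ioi]
          linarith
        have a3 : 0 ≤ g3 v := by
          rw [hg3]
          apply indicator_nonneg
          intro x _
          simp only [hq]
          positivity
        linarith
  have hsub : ∫ v in Ioi 0, (g1 v - g2 v - g3 v) =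
      (∫ v in Ioi 0, g1 v) - (∫ v in Ioi 0, g2 v) - ∫ v in Ioi 0, g3 v := by
    have q1 := integral_sub (i1.sub i2) i3
    have q2 := integral_sub i1 i2
    simp only [Pi.sub_apply] at q1 q2
    rw [q1, q2]
  rw [hsub, e1, e2] at hmono
  refine le_trans ?_ hmono
  have h7 : ε * (c - 1 / π) = c * ε - ε / (2 * π) - ε / (2 * π) := by
    field_simp
    ring
  rw [h7]
  linarith

/-- evaluation of the inner integral -/
lemma inner_eq (s L a : ℝ) (hs : 0 < s) :
    ∫ v in Ioi (0:ℝ), Real.exp (-s * v) * Real.cos (a * (v - L)) =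
      (Complex.exp (-(a * L : ℝ) * Complex.I) / ((s : ℂ) - (a : ℝ) * Complex.I)).re := by
  have h1 : ∀ v : ℝ, Real.exp (-s * v) * Real.cos (a * (v - L)) =
      (Complex.exp (((-s : ℝ) + (a : ℝ) * Complex.I) * v) *
        Complex.exp (-(a * L : ℝ) * Complex.I)).re := by
    intro v
    rw [← Complex.exp_add]
    have h2 : ((-s : ℝ) + (a : ℝ) * Complex.I) * (v : ℂ) + -(a * L : ℝ) * Complex.I =
        ((-s * v : ℝ) : ℂ) + ((a * (v - L) : ℝ) : ℂ) * Complex.I := by
      push_cast
      ring
    rw [h2, Complex.exp_add, ← Complex.ofReal_exp, Complex.re_ofReal_mul,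
      Complex.exp_ofReal_mul_I_re]
  have hre : (((-s : ℝ) : ℂ) + (a : ℝ) * Complex.I).re < 0 := by
    simp
    exact hs
  have hint : IntegrableOn (fun v : ℝ => Complex.exp (((-s : ℝ) + (a : ℝ) * Complex.I) * v) *
        Complex.exp (-(a * L : ℝ) * Complex.I)) (Ioi 0) :=
    (integrableOn_exp_mul_complex_Ioi hre 0).mul_const _
  calc _ = ∫ v in Ioi (0:ℝ), (Complex.exp (((-s : ℝ) + (a : ℝ) * Complex.I) * v) *
        Complex.exp (-(a * L : ℝ) * Complex.I)).re := by
        refine setIntegral_congr_fun measurableSet_Ioi fun v _ => h1 v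
    _ = (∫ v in Ioi (0:ℝ), (Complex.exp (((-s : ℝ) + (a : ℝ) * Complex.I) * v) *
        Complex.exp (-(a * L : ℝ) * Complex.I))).re := by
        have := integral_re hint
        simpa using this
    _ = _ := by
        rw [MeasureTheory.integral_mul_const, integral_exp_mul_complex_Ioi hre]
        congr 1
        simp only [Complex.ofReal_zero, mul_zero, Complex.exp_zero]
        have hne : ((s : ℂ) - (a : ℝ) * Complex.I) ≠ 0 := by
          intro h
          have := congrArg Complex.re h
          simp at this
          linarith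
        have h3 : (((-s : ℝ) : ℂ) + (a : ℝ) * Complex.I) = -((s : ℂ) - (a : ℝ) * Complex.I) := by
          push_cast
          ring
        rw [h3]
        field_simp

/-- The main term as an integral over the frequency. -/
lemma main_term_eq (s L ε : ℝ) (hs : 0 < s) :
    ∫ v in Ioi (0:ℝ), Real.exp (-s * v) * KK ((v - L) / ε) =
      2 * ∫ t in (0:ℝ)..1, ph t * (Complex.exp (-((2 * π * t / ε) * L : ℝ) * Complex.I) /
        ((s : ℂ) - ((2 * π * t / ε : ℝ) : ℂ) * Complex.I)).re := by
  have h1 : ∀ v : ℝ, Real.exp (-s * v) * KK ((v - L) / ε) =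
      2 * ∫ t in (0:ℝ)..1, ph t * (Real.exp (-s * v) * Real.cos ((2 * π * t / ε) * (v - L))) := by
    intro v
    unfold KK
    rw [mul_left_comm, ← intervalIntegral.integral_const_mul]
    congr 1
    apply intervalIntegral.integral_congr
    intro t _
    simp only
    have : 2 * π * t * ((v - L) / ε) = (2 * π * t / ε) * (v - L) := by ring
    rw [this]
    ring
  rw [setIntegral_congr_fun measurableSet_Ioi fun v _ => h1 v]
  rw [MeasureTheory.integral_const_mul]
  congr 1
  rw [← MeasureTheory.intervalIntegral_integral_swap]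
  · apply intervalIntegral.integral_congr
    intro t _
    simp only
    rw [MeasureTheory.integral_const_mul, inner_eq s L (2 * π * t / ε) hs]
  · have hb : Integrable (fun z : ℝ × ℝ => (2 : ℝ) * Real.exp (-s * z.2))
        ((volume.restrict (Set.uIoc 0 1)).prod (volume.restrict (Ioi 0))) := by
      have i1 : Integrable (fun _ : ℝ => (2:ℝ)) (volume.restrict (Set.uIoc 0 1)) := by
        rw [Set.uIoc_of_le zero_le_one]
        exact integrableOn_const (by simp)
      have i2 : Integrable (fun v => Real.exp (-s * v)) (volume.restrict (Ioi 0)) :=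
        integrableOn_exp_mul_Ioi (a := -s) (by linarith) 0
      exact i1.mul_prod i2
    refine Integrable.mono' hb ?_ ?_
    · apply Continuous.aestronglyMeasurable
      unfold Function.uncurry
      have := ph_cont
      fun_prop
    · rw [Measure.prod_restrict]
      rw [ae_restrict_iff' (measurableSet_uIoc.prod measurableSet_Ioi)]
      refine Eventually.of_forall fun z hz => ?_
      obtain ⟨hz1, hz2⟩ := hz
      rw [Set.uIoc_of_le zero_le_one] at hz1
      unfold Function.uncurry
      rw [norm_mul, norm_mul, Real.norm_eq_abs, Real.norm_eq_abs, Real.norm_eq_abs,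
        abs_of_pos (Real.exp_pos _)]
      have b1 := abs_ph_le hz1.1.le hz1.2
      have b2 := Real.abs_cos_le_one (2 * π * z.1 / ε * (z.2 - L))
      have b3 := (Real.exp_pos (-s * z.2)).le
      calc |ph z.1| * (Real.exp (-s * z.2) * |Real.cos (2 * π * z.1 / ε * (z.2 - L))|)
          ≤ 2 * (Real.exp (-s * z.2) * 1) := by gcongr
        _ = _ := by ring

end Pool.Agent.H32.Low
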