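import Mathlib
import Pool.Agent.H32.Low.MainTerm

/-!
Comparison of the smoothed von Mangoldt sum with its main term.
-/

namespace Pool.Agent.H32.Low

open Real MeasureTheory intervalIntegral Filter Set Topology

/-- `-ζ'/ζ(s) - 1/(s-1)`, continuous on `re s ≥ 1`. -/
noncomputable def GG : ℂ → ℂ :=
  ArithmeticFunction.vonMangoldt.LFunctionResidueClassAux (1 : ZMod 1)

lemma GG_cont : ContinuousOn GG {s | 1 ≤ s.re} :=
  ArithmeticFunction.vonMangoldt.continuousOn_LFunctionResidueClassAux 1

lemma GG_eq {w : ℂ} (hw : 1 < w.re) :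
    LSeries (fun n => (ArithmeticFunction.vonMangoldt n : ℂ)) w = GG w + 1 / (w - 1) := by
  have h := ArithmeticFunction.vonMangoldt.eqOn_LFunctionResidueClassAux
    (q := 1) (a := 1) isUnit_one hw
  have h1 : GG w = _ := h
  rw [h1]
  simp only [Nat.totient_one, Nat.cast_one, inv_one]
  have h2 : (fun n : ℕ => ((ArithmeticFunction.vonMangoldt.residueClass (1 : ZMod 1) n : ℝ) : ℂ)) =
      fun n => (ArithmeticFunction.vonMangoldt n : ℂ) := by
    funext n
    congr 1
    unfold ArithmeticFunction.vonMangoldt.residueClass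
    rw [Set.indicator_of_mem]
    exact Subsingleton.elim _ _
  rw [h2]
  ring

/-- the weighted prime power sum -/
noncomputable def PS (s L ε : ℝ) : ℝ :=
  ∑' n : ℕ, ArithmeticFunction.vonMangoldt n * (n : ℝ) ^ (-(1 + s)) * KK ((Real.log n - L) / ε)

lemma summable_vM (s : ℝ) (hs : 0 < s) :
    Summable fun n : ℕ => ArithmeticFunction.vonMangoldt n * (n : ℝ) ^ (-(1 + s)) := by
  have h1 := ArithmeticFunction.LSeriesSummable_vonMangoldt (s := ((1 + s : ℝ) : ℂ))
    (by rw [Complex.ofReal_re]; linarith)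
  unfold LSeriesSummable at h1
  rw [← summable_norm_iff] at h1
  refine h1.congr fun n => ?_
  rcases Nat.eq_zero_or_pos n with hn | hn
  · subst hn
    simp
  · rw [LSeries.norm_term_eq]
    rw [if_neg (by omega)]
    rw [Complex.ofReal_re, Real.rpow_neg (Nat.cast_nonneg n), ← div_eq_mul_inv]
    congr 1
    rw [Complex.norm_real, Real.norm_eq_abs,
      abs_of_nonneg ArithmeticFunction.vonMangoldt_nonneg]

/-- the real part of one term of the twisted L-series -/
lemma term_re (s L a : ℝ) (n : ℕ) :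
    (Complex.exp (-(a * L : ℝ) * Complex.I) *
      LSeries.term (fun n => (ArithmeticFunction.vonMangoldt n : ℂ))
        (((1 + s : ℝ) : ℂ) - (a : ℝ) * Complex.I) n).re =
    ArithmeticFunction.vonMangoldt n * (n : ℝ) ^ (-(1 + s)) * Real.cos (a * (Real.log n - L)) := by
  rcases Nat.eq_zero_or_pos n with hn | hn
  · subst hn
    simp
  rw [LSeries.term_of_ne_zero (by omega)]
  have hn0 : (n : ℂ) ≠ 0 := by exact_mod_cast hn.ne'
  have hnR : (0 : ℝ) < n := by exact_mod_cast hn
  rw [div_eq_mul_inv, ← Complex.cpow_neg, Complex.cpow_def_of_ne_zero hn0]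
  have hlog : Complex.log (n : ℂ) = ((Real.log n : ℝ) : ℂ) := by
    rw [← Complex.natCast_log]
  rw [hlog]
  have h1 : Complex.exp (-(a * L : ℝ) * Complex.I) *
      ((ArithmeticFunction.vonMangoldt n : ℂ) * Complex.exp (((Real.log n : ℝ) : ℂ) *
        -(((1 + s : ℝ) : ℂ) - (a : ℝ) * Complex.I))) =
      ((ArithmeticFunction.vonMangoldt n * Real.exp (-(1 + s) * Real.log n) : ℝ) : ℂ) *
        Complex.exp ((a * (Real.log n - L) : ℝ) * Complex.I) := by
    have h0 : ((ArithmeticFunction.vonMangoldt n * Real.exp (-(1 + s) * Real.log n) : ℝ) : ℂ) =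
        (ArithmeticFunction.vonMangoldt n : ℂ) *
          Complex.exp ((-(1 + s) * Real.log n : ℝ) : ℂ) := by
      rw [Complex.ofReal_mul, Complex.ofReal_exp]
    rw [h0, mul_left_comm, ← Complex.exp_add, mul_assoc, ← Complex.exp_add]
    congr 2
    push_cast
    ring
  rw [h1, Complex.re_ofReal_mul, Complex.exp_ofReal_mul_I_re]
  congr 2
  rw [Real.rpow_def_of_pos hnR]
  congr 1
  ring

lemma cont_GG_comp (s ε : ℝ) (hs : 0 ≤ s) :
    Continuous fun t : ℝ => GG (((1 + s : ℝ) : ℂ) - ((2 * π * t / ε : ℝ) : ℂ) * Complex.I) := by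
  apply GG_cont.comp_continuous
  · fun_prop
  · intro t
    simp
    exact hs

lemma PS_eq (s L ε : ℝ) (hs : 0 < s) :
    PS s L ε = 2 * ∫ t in (0:ℝ)..1, ph t * (Complex.exp (-((2 * π * t / ε) * L : ℝ) * Complex.I) *
      LSeries (fun n => (ArithmeticFunction.vonMangoldt n : ℂ))
        (((1 + s : ℝ) : ℂ) - ((2 * π * t / ε : ℝ) : ℂ) * Complex.I)).re := by
  have hsum := summable_vM s hs
  set F : ℕ → ℝ → ℝ := fun n t => ph t * (ArithmeticFunction.vonMangoldt n *
    (n : ℝ) ^ (-(1 + s)) * Real.cos ((2 * π * t / ε) * (Real.log n - L))) with hF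
  have hFint : ∀ n, Integrable (F n) (volume.restrict (Ioc 0 1)) := by
    intro n
    have hc : Continuous (F n) := by
      have := ph_cont
      simp only [hF]
      fun_prop
    exact (hc.intervalIntegrable 0 1).1
  have hb : ∀ n, ∀ t ∈ Ioc (0:ℝ) 1, ‖F n t‖ ≤ 2 * (ArithmeticFunction.vonMangoldt n *
      (n : ℝ) ^ (-(1 + s))) := by
    intro n t ht
    simp only [hF]
    rw [norm_mul, norm_mul, Real.norm_eq_abs, Real.norm_eq_abs, Real.norm_eq_abs]
    have b1 := abs_ph_le ht.1.le ht.2
    have b2 := Real.abs_cos_le_one (2 * π * t / ε * (Real.log n - L))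
    have b3 : 0 ≤ ArithmeticFunction.vonMangoldt n * (n : ℝ) ^ (-(1 + s)) :=
      mul_nonneg ArithmeticFunction.vonMangoldt_nonneg (by positivity)
    rw [abs_of_nonneg b3]
    calc |ph t| * (ArithmeticFunction.vonMangoldt n * (n : ℝ) ^ (-(1 + s)) *
          |Real.cos (2 * π * t / ε * (Real.log n - L))|)
        ≤ 2 * (ArithmeticFunction.vonMangoldt n * (n : ℝ) ^ (-(1 + s)) * 1) := by gcongr
      _ = _ := by ring
  have hFsum : Summable fun n => ∫ t in Ioc (0:ℝ) 1, ‖F n t‖ := by
    refine Summable.of_nonneg_of_le (fun n => integral_nonneg fun t => norm_nonneg _) ?_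
      (hsum.mul_left 2)
    intro n
    calc ∫ t in Ioc (0:ℝ) 1, ‖F n t‖ ≤ ∫ t in Ioc (0:ℝ) 1, (2 * (ArithmeticFunction.vonMangoldt n *
      (n : ℝ) ^ (-(1 + s)))) := by
          apply setIntegral_mono_on (hFint n).norm (integrableOn_const (by simp)) measurableSet_Ioc
          exact hb n
      _ = _ := by simp
  have h1 := hasSum_integral_of_summable_integral_norm hFint hFsum
  have h2 : ∀ n, ∫ t in Ioc (0:ℝ) 1, F n t = (1 / 2) * (ArithmeticFunction.vonMangoldt n *
      (n : ℝ) ^ (-(1 + s)) * KK ((Real.log n - L) / ε)) := by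
    intro n
    unfold KK
    rw [← intervalIntegral.integral_of_le zero_le_one]
    have h3 : ∀ t : ℝ, F n t = (ArithmeticFunction.vonMangoldt n * (n : ℝ) ^ (-(1 + s))) *
        (ph t * Real.cos (2 * π * t * ((Real.log n - L) / ε))) := by
      intro t
      simp only [hF]
      have : (2 * π * t / ε) * (Real.log n - L) = 2 * π * t * ((Real.log n - L) / ε) := by ring
      rw [this]
      ring
    rw [intervalIntegral.integral_congr (fun t _ => h3 t), intervalIntegral.integral_const_mul]
    ring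
  have h4 : PS s L ε = 2 * ∫ t in Ioc (0:ℝ) 1, ∑' n, F n t := by
    rw [← h1.tsum_eq, ← tsum_mul_left]
    unfold PS
    congr 1
    funext n
    rw [h2]
    ring
  rw [h4, intervalIntegral.integral_of_le zero_le_one]
  congr 1
  apply setIntegral_congr_fun measurableSet_Ioc
  intro t _
  simp only
  set a : ℝ := 2 * π * t / ε with ha
  have hS := ArithmeticFunction.LSeriesSummable_vonMangoldt
    (s := ((1 + s : ℝ) : ℂ) - (a : ℂ) * Complex.I) (by simp; exact hs)
  have h5 := (hS.hasSum.mul_left (Complex.exp (-(a * L : ℝ) * Complex.I)))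
  have h6 := Complex.hasSum_re h5
  have h7 : HasSum (fun n => F n t) (ph t * (Complex.exp (-(a * L : ℝ) * Complex.I) *
      ∑' n, LSeries.term (fun n => (ArithmeticFunction.vonMangoldt n : ℂ))
        (((1 + s : ℝ) : ℂ) - (a : ℝ) * Complex.I) n).re) := by
    have h8 := h6.mul_left (ph t)
    refine h8.congr_fun ?_ 
    intro n
    simp only [hF]
    rw [← term_re]
  exact h7.tsum_eq

end Pool.Agent.H32.Low
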