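import Mathlib
import Pool.Agent.H32.Low.PrimeSum

/-!
Lower bound for the von Mangoldt sum over short multiplicative intervals.
-/

namespace Pool.Agent.H32.Low

open Real MeasureTheory intervalIntegral Filter Set Topology

/-- error term -/
noncomputable def TT (s L ε : ℝ) : ℝ :=
  ∫ t in (0:ℝ)..1, ph t * (Complex.exp (-((2 * π * t / ε) * L : ℝ) * Complex.I) *
    GG (((1 + s : ℝ) : ℂ) - ((2 * π * t / ε : ℝ) : ℂ) * Complex.I)).re

lemma cont_TT (s L ε : ℝ) (hs : 0 ≤ s) : Continuous fun t : ℝ =>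
    ph t * (Complex.exp (-((2 * π * t / ε) * L : ℝ) * Complex.I) *
    GG (((1 + s : ℝ) : ℂ) - ((2 * π * t / ε : ℝ) : ℂ) * Complex.I)).re := by
  have h1 := cont_GG_comp s ε hs
  have h2 := ph_cont
  have h3 : Continuous fun t : ℝ => Complex.exp (-((2 * π * t / ε) * L : ℝ) * Complex.I) := by
    fun_prop
  exact h2.mul (Complex.continuous_re.comp (h3.mul h1))

lemma PS_split (s L ε : ℝ) (hs : 0 < s) :
    PS s L ε = (∫ v in Ioi (0:ℝ), Real.exp (-s * v) * KK ((v - L) / ε)) + 2 * TT s L ε := by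
  rw [PS_eq s L ε hs, main_term_eq s L ε hs, ← mul_add]
  congr 1
  unfold TT
  rw [← intervalIntegral.integral_add]
  · apply intervalIntegral.integral_congr
    intro t _
    simp only
    rw [← mul_add, ← Complex.add_re]
    congr 2
    have hw : 1 < (((1 + s : ℝ) : ℂ) - ((2 * π * t / ε : ℝ) : ℂ) * Complex.I).re := by
      simp
      exact hs
    rw [GG_eq hw, mul_add, add_comm]
    congr 1
    have h1 : (((1 + s : ℝ) : ℂ) - ((2 * π * t / ε : ℝ) : ℂ) * Complex.I) - 1 =
        (s : ℂ) - ((2 * π * t / ε : ℝ) : ℂ) * Complex.I := by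
      push_cast
      ring
    rw [h1, mul_one_div]
  · apply Continuous.intervalIntegrable
    have h1 : Continuous fun t : ℝ => (Complex.exp (-((2 * π * t / ε) * L : ℝ) * Complex.I) /
        ((s : ℂ) - ((2 * π * t / ε : ℝ) : ℂ) * Complex.I)) := by
      apply Continuous.div
      · fun_prop
      · fun_prop
      · intro t h
        have := congrArg Complex.re h
        simp at this
        linarith
    exact ph_cont.mul (Complex.continuous_re.comp h1)
  · exact (cont_TT s L ε hs.le).intervalIntegrable _ _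

lemma TT_unif (ε η : ℝ) (hη : 0 < η) :
    ∃ δ : ℝ, 0 < δ ∧ δ ≤ 1 ∧ ∀ s : ℝ, 0 ≤ s → s < δ → ∀ L : ℝ, |TT s L ε - TT 0 L ε| ≤ 2 * η := by
  set g : ℝ × ℝ → ℂ := fun z => GG (((1 + z.1 : ℝ) : ℂ) - ((2 * π * z.2 / ε : ℝ) : ℂ) * Complex.I)
    with hg
  have hgc : ContinuousOn g (Icc 0 1 ×ˢ Icc 0 1) := by
    apply GG_cont.comp
    · apply Continuous.continuousOn
      fun_prop
    · intro z hz
      have := hz.1.1
      simp
      exact this
  have hcomp : IsCompact (Icc (0:ℝ) 1 ×ˢ Icc (0:ℝ) 1) := isCompact_Icc.prod isCompact_Icc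
  have huc := hcomp.uniformContinuousOn_of_continuous hgc
  rw [Metric.uniformContinuousOn_iff] at huc
  obtain ⟨δ, hδ, hδ2⟩ := huc η hη
  refine ⟨min δ 1, lt_min hδ one_pos, min_le_right _ _, ?_⟩
  intro s hs0 hs L
  have hsδ : s < δ := lt_of_lt_of_le hs (min_le_left _ _)
  have hs1 : s < 1 := lt_of_lt_of_le hs (min_le_right _ _)
  have h1 : TT s L ε - TT 0 L ε = ∫ t in (0:ℝ)..1, ph t *
      (Complex.exp (-((2 * π * t / ε) * L : ℝ) * Complex.I) * (g (s, t) - g (0, t))).re := by
    unfold TT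
    rw [← intervalIntegral.integral_sub]
    · apply intervalIntegral.integral_congr
      intro t _
      simp only [hg]
      rw [← mul_sub, ← Complex.sub_re, ← mul_sub]
    · exact (cont_TT s L ε hs0).intervalIntegrable _ _
    · exact (cont_TT 0 L ε le_rfl).intervalIntegrable _ _
  rw [h1, ← Real.norm_eq_abs]
  have h2 := norm_integral_le_of_norm_le_const (a := (0:ℝ)) (b := 1) (C := 2 * η)
    (f := fun t => ph t *
      (Complex.exp (-((2 * π * t / ε) * L : ℝ) * Complex.I) * (g (s, t) - g (0, t))).re) (by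
      intro t ht
      rw [Set.uIoc_of_le zero_le_one] at ht
      rw [norm_mul, Real.norm_eq_abs, Real.norm_eq_abs]
      have b1 := abs_ph_le ht.1.le ht.2
      have b2 : |(Complex.exp (-((2 * π * t / ε) * L : ℝ) * Complex.I) *
          (g (s, t) - g (0, t))).re| ≤ η := by
        refine (Complex.abs_re_le_norm _).trans ?_
        rw [norm_mul]
        have e1 : ‖Complex.exp (-((2 * π * t / ε) * L : ℝ) * Complex.I)‖ = 1 := by
          rw [← Complex.ofReal_neg, Complex.norm_exp_ofReal_mul_I]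
        rw [e1, one_mul]
        have h3 := hδ2 (s, t) ⟨⟨hs0, hs1.le⟩, ht.1.le, ht.2⟩ (0, t)
          ⟨⟨le_rfl, zero_le_one⟩, ht.1.le, ht.2⟩ (by
            rw [Prod.dist_eq]
            simp only [dist_self]
            rw [Real.dist_eq, sub_zero, abs_of_nonneg hs0, max_eq_left hs0]
            exact hsδ)
        rw [dist_eq_norm] at h3
        exact h3.le
      exact mul_le_mul b1 b2 (abs_nonneg _) (by norm_num))
  have h3 : |(1:ℝ) - 0| = 1 := by norm_num
  rw [h3, mul_one] at h2
  exact h2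

lemma TT_zero_tendsto (ε : ℝ) (hε : 0 < ε) : Tendsto (fun L => TT 0 L ε) atTop (𝓝 0) := by
  set f : ℝ → ℂ := (Ioc (0:ℝ) 1).indicator (fun t => (ph t : ℂ) *
    GG (((1 + 0 : ℝ) : ℂ) - ((2 * π * t / ε : ℝ) : ℂ) * Complex.I)) with hf
  have h1 := Real.tendsto_integral_exp_smul_cocompact f
  have h2 : Tendsto (fun L : ℝ => L / ε) atTop (cocompact ℝ) := by
    have h3 : Tendsto (fun L : ℝ => L / ε) atTop atTop := tendsto_id.atTop_div_const hε
    exact h3.mono_right atTop_le_cocompact
  have h3 := h1.comp h2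
  have h4 := (Complex.continuous_re.tendsto 0).comp h3
  rw [Complex.zero_re] at h4
  refine h4.congr fun L => ?_
  simp only [Function.comp]
  unfold TT
  rw [intervalIntegral.integral_of_le zero_le_one]
  have h5 : (fun v : ℝ => Real.fourierChar (-(v * (L / ε))) • f v) =
      (Ioc (0:ℝ) 1).indicator (fun t => Complex.exp (-((2 * π * t / ε) * L : ℝ) * Complex.I) *
        ((ph t : ℂ) * GG (((1 + 0 : ℝ) : ℂ) - ((2 * π * t / ε : ℝ) : ℂ) * Complex.I))) := by
    funext v
    rw [hf]
    by_cases hv : v ∈ Ioc (0:ℝ) 1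
    · rw [indicator_of_mem hv, indicator_of_mem hv, Circle.smul_def, Real.fourierChar_apply,
        smul_eq_mul]
      congr 2
      push_cast
      ring
    · rw [indicator_of_notMem hv, indicator_of_notMem hv, smul_zero]
  rw [h5, MeasureTheory.integral_indicator measurableSet_Ioc]
  have hcont : Continuous (fun t : ℝ => Complex.exp (-((2 * π * t / ε) * L : ℝ) * Complex.I) *
        ((ph t : ℂ) * GG (((1 + 0 : ℝ) : ℂ) - ((2 * π * t / ε : ℝ) : ℂ) * Complex.I))) := by
    have h1 := cont_GG_comp 0 ε le_rfl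
    have h2 : Continuous fun t : ℝ => (ph t : ℂ) := Complex.continuous_ofReal.comp ph_cont
    have h3 : Continuous fun t : ℝ => Complex.exp (-((2 * π * t / ε) * L : ℝ) * Complex.I) := by
      fun_prop
    exact h3.mul (h2.mul h1)
  have hint : Integrable (fun t : ℝ => Complex.exp (-((2 * π * t / ε) * L : ℝ) * Complex.I) *
        ((ph t : ℂ) * GG (((1 + 0 : ℝ) : ℂ) - ((2 * π * t / ε : ℝ) : ℂ) * Complex.I)))
        (volume.restrict (Ioc 0 1)) := (hcont.intervalIntegrable 0 1).1
  have h6 := integral_re hint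
  simp only [RCLike.re_to_complex] at h6
  rw [← h6]
  apply setIntegral_congr_fun measurableSet_Ioc
  intro t _
  simp only
  rw [mul_left_comm, Complex.re_ofReal_mul]

/-- Lower bound for `∑ Λ(n)/n` in short multiplicative intervals. -/
theorem short_sum (ε : ℝ) (hε : 0 < ε) : ∀ᶠ L : ℝ in atTop,
    (1 / 100) * ε ≤ ∑ n ∈ Finset.Icc ⌈Real.exp (L - ε)⌉₊ ⌊Real.exp (L + ε)⌋₊,
      ArithmeticFunction.vonMangoldt n / n := by
  obtain ⟨δ, hδ0, hδ1, hδ⟩ := TT_unif ε (ε / 400) (by positivity)
  have ev1 : ∀ᶠ L : ℝ in atTop, |TT 0 L ε| < ε / 200 := by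
    have h := (TT_zero_tendsto ε hε)
    rw [Metric.tendsto_nhds] at h
    have h2 := h (ε / 200) (by positivity)
    simpa [Real.dist_eq] using h2
  filter_upwards [ev1, eventually_ge_atTop ε] with L h1 h2
  set s : ℝ := min (δ / 2) ((1 / 100) / (L + ε)) with hs
  have hLε : 0 < L + ε := by linarith
  have hs0 : 0 < s := by
    rw [hs]
    apply lt_min
    · linarith
    · positivity
  have hsδ : s < δ := lt_of_le_of_lt (min_le_left _ _) (by linarith)
  have hsL : s * (L + ε) ≤ 1 / 100 := by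
    have : s ≤ (1 / 100) / (L + ε) := min_le_right _ _
    rwa [le_div_iff₀ hLε] at this
  have hexp : 99 / 100 ≤ Real.exp (-s * (L + ε)) := by
    have := Real.add_one_le_exp (-s * (L + ε))
    linarith
  have hT : |TT s L ε| ≤ ε / 100 := by
    have h3 := hδ s hs0.le hsδ L
    calc |TT s L ε| = |(TT s L ε - TT 0 L ε) + TT 0 L ε| := by rw [sub_add_cancel]
      _ ≤ |TT s L ε - TT 0 L ε| + |TT 0 L ε| := abs_add_le _ _
      _ ≤ 2 * (ε / 400) + ε / 200 := by linarith
      _ = ε / 100 := by ring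
  have hmain := main_term_ge s L ε hs0 hε h2
  have hnum : 8 / 100 ≤ 4 / π ^ 2 * Real.exp (-s * (L + ε)) - 1 / π := by
    have p1 := Real.pi_gt_d4
    have p2 := Real.pi_lt_d4
    have h4 : 4 / π ^ 2 * (99 / 100) ≤ 4 / π ^ 2 * Real.exp (-s * (L + ε)) := by gcongr
    refine le_trans ?_ (sub_le_sub_right h4 _)
    have h5 : 4 / π ^ 2 * (99 / 100) - 1 / π = (396 / 100 - π) / π ^ 2 := by
      field_simp
      ring
    rw [h5, le_div_iff₀ (by positivity)]
    nlinarith
  have hlow : (6 / 100) * ε ≤ PS s L ε := by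
    rw [PS_split s L ε hs0]
    have h5 : ε * (8 / 100) ≤ ∫ v in Ioi (0:ℝ), Real.exp (-s * v) * KK ((v - L) / ε) :=
      le_trans (by gcongr) hmain
    have h6 := (abs_le.mp hT).1
    linarith
  set T := Finset.Icc ⌈Real.exp (L - ε)⌉₊ ⌊Real.exp (L + ε)⌋₊ with hT
  have hterm : ∀ n : ℕ, ArithmeticFunction.vonMangoldt n * (n : ℝ) ^ (-(1 + s)) *
      KK ((Real.log n - L) / ε) ≤
      if n ∈ T then 4 * (ArithmeticFunction.vonMangoldt n / n) else 0 := by
    intro n
    have hΛ : 0 ≤ ArithmeticFunction.vonMangoldt n := ArithmeticFunction.vonMangoldt_nonneg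
    split_ifs with hn
    · rcases Nat.eq_zero_or_pos n with h0 | h0
      · subst h0; simp
      have hn1 : (1 : ℝ) ≤ n := by exact_mod_cast h0
      have h5 : (n : ℝ) ^ (-(1 + s)) ≤ 1 / n := by
        rw [one_div, ← Real.rpow_neg_one]
        apply Real.rpow_le_rpow_of_exponent_le hn1
        linarith
      have h6 := (abs_le.mp (abs_KK_le ((Real.log n - L) / ε))).2
      have h7 : 0 ≤ ArithmeticFunction.vonMangoldt n * (n : ℝ) ^ (-(1 + s)) := by positivity
      calc ArithmeticFunction.vonMangoldt n * (n : ℝ) ^ (-(1 + s)) * KK ((Real.log n - L) / ε)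
          ≤ ArithmeticFunction.vonMangoldt n * (n : ℝ) ^ (-(1 + s)) * 4 := by gcongr
        _ ≤ ArithmeticFunction.vonMangoldt n * (1 / n) * 4 := by gcongr
        _ = _ := by ring
    · rcases Nat.eq_zero_or_pos n with h0 | h0
      · subst h0; simp
      have hnR : (0 : ℝ) < n := by exact_mod_cast h0
      have h7 : 0 ≤ ArithmeticFunction.vonMangoldt n * (n : ℝ) ^ (-(1 + s)) := by positivity
      apply mul_nonpos_of_nonneg_of_nonpos h7
      apply KK_nonpos
      rw [abs_div, abs_of_pos hε, lt_div_iff₀ hε, one_mul]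
      rw [hT, Finset.mem_Icc, not_and_or, not_le, not_le, Nat.lt_ceil,
        Nat.floor_lt (Real.exp_pos _).le] at hn
      rcases hn with hn | hn
      · have : Real.log n < L - ε := by
          rw [Real.log_lt_iff_lt_exp hnR]
          exact hn
        rw [abs_of_neg] <;> linarith
      · have : L + ε < Real.log n := by
          rw [Real.lt_log_iff_exp_lt hnR]
          exact hn
        rw [abs_of_pos] <;> linarith
  have hsum1 : Summable fun n : ℕ => ArithmeticFunction.vonMangoldt n * (n : ℝ) ^ (-(1 + s)) *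
      KK ((Real.log n - L) / ε) := by
    refine Summable.of_norm_bounded ((summable_vM s hs0).mul_right 4) fun n => ?_
    have h7 : 0 ≤ ArithmeticFunction.vonMangoldt n * (n : ℝ) ^ (-(1 + s)) :=
      mul_nonneg ArithmeticFunction.vonMangoldt_nonneg (by positivity)
    rw [norm_mul, Real.norm_eq_abs, Real.norm_eq_abs, abs_of_nonneg h7]
    exact mul_le_mul_of_nonneg_left (abs_KK_le _) h7
  have hsum2 : Summable fun n : ℕ => if n ∈ T then 4 * (ArithmeticFunction.vonMangoldt n / n)
      else 0 := by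
    apply summable_of_ne_finset_zero (s := T)
    intro n hn
    rw [if_neg hn]
  have hup : PS s L ε ≤ ∑ n ∈ T, 4 * (ArithmeticFunction.vonMangoldt n / n) := by
    unfold PS
    refine (hsum1.tsum_le_tsum hterm hsum2).trans (le_of_eq ?_)
    rw [tsum_eq_sum (s := T)]
    · exact Finset.sum_congr rfl fun n hn => if_pos hn
    · intro n hn
      rw [if_neg hn]
  rw [← Finset.mul_sum] at hup
  linarith

end Pool.Agent.H32.Low
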