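import Mathlib
import Pool.Agent.H32.Low.ShortSum

/-!
A positive proportion of primes in every short multiplicative interval.
-/

namespace Pool.Agent.H32.Low

open Filter Topology

lemma log_bound (d : ℝ) (h0 : 0 < d) (h1 : d ≤ 1) : d / 4 ≤ Real.log (1 + d) / 2 := by
  have h2 : 1 - (1 + d)⁻¹ ≤ Real.log (1 + d) := Real.one_sub_inv_le_log_of_pos (by linarith)
  have h3 : d / 2 ≤ 1 - (1 + d)⁻¹ := by
    rw [← one_div, div_le_iff₀ (by norm_num : (0:ℝ) < 2)]
    have h4 : (1 - 1 / (1 + d)) * 2 = 2 * d / (1 + d) := by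
      field_simp
      ring
    rw [h4, le_div_iff₀ (by linarith)]
    nlinarith
  linarith

lemma vM_short (d : ℝ) (h0 : 0 < d) (h1 : d ≤ 1) : ∀ᶠ k : ℕ in atTop,
    d / 400 * k ≤ ∑ n ∈ Finset.Icc k ⌊(1 + d) * k⌋₊, ArithmeticFunction.vonMangoldt n := by
  set ε : ℝ := Real.log (1 + d) / 2 with hε
  have hε4 : d / 4 ≤ ε := log_bound d h0 h1
  have hε0 : 0 < ε := by linarith
  have h2 := short_sum ε hε0
  have h3 : Tendsto (fun k : ℕ => Real.log k + ε) atTop atTop :=
    tendsto_atTop_add_const_right _ _ (Real.tendsto_log_atTop.comp tendsto_natCast_atTop_atTop)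
  filter_upwards [h3.eventually h2, eventually_ge_atTop 1] with k hk hk1
  have hkR : (0 : ℝ) < k := by exact_mod_cast hk1
  have e1 : Real.exp (Real.log k + ε - ε) = k := by
    rw [add_sub_cancel_right, Real.exp_log hkR]
  have e2 : Real.exp (Real.log k + ε + ε) = (1 + d) * k := by
    have : Real.log k + ε + ε = Real.log k + Real.log (1 + d) := by rw [hε]; ring
    rw [this, Real.exp_add, Real.exp_log hkR, Real.exp_log (by linarith), mul_comm]
  rw [e1, e2, Nat.ceil_natCast] at hk
  have h4 : ∑ n ∈ Finset.Icc k ⌊(1 + d) * k⌋₊, ArithmeticFunction.vonMangoldt n / n ≤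
      (∑ n ∈ Finset.Icc k ⌊(1 + d) * k⌋₊, ArithmeticFunction.vonMangoldt n) / k := by
    rw [Finset.sum_div]
    refine Finset.sum_le_sum fun n hn => ?_
    have hkn : k ≤ n := (Finset.mem_Icc.mp hn).1
    have hkn' : (k : ℝ) ≤ n := by exact_mod_cast hkn
    exact div_le_div_of_nonneg_left ArithmeticFunction.vonMangoldt_nonneg hkR hkn'
  have h5 := hk.trans h4
  rw [le_div_iff₀ hkR] at h5
  refine le_trans ?_ h5
  have : d / 400 ≤ 1 / 100 * ε := by linarith
  gcongr

/-- There are many primes in `(k, (1+d)k]`. -/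
theorem short_primes (d : ℝ) (h0 : 0 < d) (h1 : d ≤ 1) : ∀ᶠ k : ℕ in atTop,
    d / 800 * k ≤ ∑ p ∈ (Finset.Ioc k ⌊(1 + d) * k⌋₊).filter Nat.Prime, Real.log p := by
  have hlit : ∀ᶠ k : ℕ in atTop,
      Real.log k + 2 * √(2 * k) * Real.log (2 * k) ≤ d / 800 * k := by
    have h2 : (fun x : ℝ => Real.log x + 2 * √(2 * x) * Real.log (2 * x)) =o[atTop]
        fun x : ℝ => x := by
      have h3 : Real.log =o[atTop] fun x : ℝ => x := Real.isLittleO_log_id_atTop
      have h4 : (fun x : ℝ => 2 * √x * Real.log x) =o[atTop] fun x : ℝ => x := by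
        have h5 : (fun x : ℝ => Real.log x) =o[atTop] fun x : ℝ => x ^ (1 / 2 : ℝ) :=
          isLittleO_log_rpow_atTop (by norm_num)
        have h6 : (fun x : ℝ => 2 * √x * Real.log x) =o[atTop]
            fun x : ℝ => √x * x ^ (1 / 2 : ℝ) := by
          have h7 : (fun x : ℝ => 2 * √x) =O[atTop] fun x : ℝ => √x :=
            Asymptotics.isBigO_const_mul_self 2 _ _
          exact h7.mul_isLittleO h5
        refine h6.trans_eventuallyEq ?_
        filter_upwards [eventually_ge_atTop 0] with x hx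
        rw [← Real.sqrt_eq_rpow, Real.mul_self_sqrt hx]
      have h8 : Tendsto (fun x : ℝ => 2 * x) atTop atTop :=
        tendsto_id.const_mul_atTop (by norm_num)
      have h9 := h4.comp_tendsto h8
      have h10 : (fun x : ℝ => 2 * √(2 * x) * Real.log (2 * x)) =o[atTop] fun x : ℝ => x := by
        refine h9.trans_isBigO ?_
        exact Asymptotics.isBigO_const_mul_self 2 _ _
      exact h3.add h10
    have h11 := h2.bound (show (0:ℝ) < d / 800 by positivity)
    have h12 := tendsto_natCast_atTop_atTop (R := ℝ) |>.eventually h11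
    filter_upwards [h12] with k hk
    have e : ‖(k : ℝ)‖ = k := by rw [Real.norm_eq_abs, abs_of_nonneg (Nat.cast_nonneg k)]
    rw [e] at hk
    exact (Real.le_norm_self _).trans hk
  filter_upwards [vM_short d h0 h1, hlit, eventually_ge_atTop 1] with k hk hl hk1
  have hkR : (1 : ℝ) ≤ k := by exact_mod_cast hk1
  set N := ⌊(1 + d) * k⌋₊ with hN
  have hkN : k ≤ N := by
    rw [hN]
    apply Nat.le_floor
    nlinarith
  have hN2 : (N : ℝ) ≤ 2 * k := by
    have := Nat.floor_le (show 0 ≤ (1 + d) * k by positivity)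
    rw [← hN] at this
    nlinarith
  have hN1 : (1 : ℝ) ≤ N := hkR.trans (by exact_mod_cast hkN)
  have hpsi : Chebyshev.psi N = Chebyshev.psi k +
      ∑ n ∈ Finset.Ioc k N, ArithmeticFunction.vonMangoldt n := by
    unfold Chebyshev.psi
    rw [Nat.floor_natCast, Nat.floor_natCast]
    rw [Finset.sum_Ioc_consecutive _ (Nat.zero_le k) hkN]
  have htheta : Chebyshev.theta N = Chebyshev.theta k +
      ∑ p ∈ (Finset.Ioc k N).filter Nat.Prime, Real.log p := by
    unfold Chebyshev.theta
    rw [Nat.floor_natCast, Nat.floor_natCast, Finset.sum_filter, Finset.sum_filter,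
      Finset.sum_filter]
    rw [Finset.sum_Ioc_consecutive _ (Nat.zero_le k) hkN]
  have h2 := Chebyshev.theta_le_psi k
  have h3 := Chebyshev.psi_sub_theta_le hN1
  have h4 : ∑ n ∈ Finset.Icc k N, ArithmeticFunction.vonMangoldt n =
      ArithmeticFunction.vonMangoldt k +
      ∑ n ∈ Finset.Ioc k N, ArithmeticFunction.vonMangoldt n := by
    rw [← Finset.Ioc_insert_left hkN, Finset.sum_insert (by simp)]
  rw [h4] at hk
  have h5 : ArithmeticFunction.vonMangoldt k ≤ Real.log k :=
    ArithmeticFunction.vonMangoldt_le_log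
  have h6 : 2 * √(N : ℝ) * Real.log N ≤ 2 * √(2 * k) * Real.log (2 * k) := by
    have a1 : √(N : ℝ) ≤ √(2 * k) := Real.sqrt_le_sqrt hN2
    have a2 : Real.log N ≤ Real.log (2 * k) := Real.log_le_log (by linarith) hN2
    have a3 : 0 ≤ Real.log N := Real.log_nonneg hN1
    gcongr
  linarith

end Pool.Agent.H32.Low
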