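import Mathlib
import Pool.Agent.H32.Nk.Exp

/-!
The Kusmin-Landau inequality and the van der Corput differencing inequality.
-/

namespace Pool.Agent.H32.Low

open Finset Complex Pool.Agent.H32.Nk

/-- backward difference `f m - f (m+1)` -/
def Dl (f : ℕ → ℝ) : ℕ → ℝ := fun m => f m - f (m + 1)

lemma KL_aux {x : ℝ} (hx0 : 0 < x) (hx : x ≤ 1 / 2) :
    ‖(1 - E (-x))⁻¹‖ ≤ 1 / (4 * x) := by
  have h1 : 4 * x ≤ ‖E (-x) - 1‖ := by
    have := norm_E_sub_one_ge (x := -x) (by rw [abs_neg, abs_of_pos hx0]; exact hx)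
    rwa [abs_neg, abs_of_pos hx0] at this
  rw [norm_inv, ← norm_sub_rev, ← one_div]
  exact one_div_le_one_div_of_le (by linarith) h1

lemma KL_aux2 {x y : ℝ} (hx0 : 0 < x) (hxy : x ≤ y) (hy : y ≤ 1 / 2) :
    ‖(1 - E (-x))⁻¹ - (1 - E (-y))⁻¹‖ ≤ Real.pi / 8 * (1 / x - 1 / y) := by
  have hy0 : 0 < y := lt_of_lt_of_le hx0 hxy
  have h1 : 4 * x ≤ ‖1 - E (-x)‖ := by
    have := norm_E_sub_one_ge (x := -x) (by rw [abs_neg, abs_of_pos hx0]; linarith)
    rw [abs_neg, abs_of_pos hx0] at this
    rwa [norm_sub_rev]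
  have h2 : 4 * y ≤ ‖1 - E (-y)‖ := by
    have := norm_E_sub_one_ge (x := -y) (by rw [abs_neg, abs_of_pos hy0]; linarith)
    rw [abs_neg, abs_of_pos hy0] at this
    rwa [norm_sub_rev]
  have hnx : (1 - E (-x)) ≠ 0 := by
    intro h
    rw [h, norm_zero] at h1
    linarith
  have hny : (1 - E (-y)) ≠ 0 := by
    intro h
    rw [h, norm_zero] at h2
    linarith
  have h3 : (1 - E (-x))⁻¹ - (1 - E (-y))⁻¹ =
      (E (-x) - E (-y)) / ((1 - E (-x)) * (1 - E (-y))) := by
    field_simp
    ring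
  have h4 : ‖E (-x) - E (-y)‖ ≤ 2 * Real.pi * (y - x) := by
    rw [norm_E_sub_E]
    have := norm_E_sub_one_le (-x - -y)
    have h5 : |-x - -y| = y - x := by
      rw [abs_of_nonneg] <;> linarith
    rwa [h5] at this
  rw [h3, norm_div, norm_mul]
  have h5 : 16 * (x * y) ≤ ‖1 - E (-x)‖ * ‖1 - E (-y)‖ := by
    calc 16 * (x * y) = (4 * x) * (4 * y) := by ring
      _ ≤ _ := mul_le_mul h1 h2 (by positivity) (norm_nonneg _)
  have h6 : Real.pi / 8 * (1 / x - 1 / y) = (2 * Real.pi * (y - x)) / (16 * (x * y)) := by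
    field_simp
    ring
  rw [h6]
  have hpi := Real.pi_pos
  exact div_le_div₀ (by nlinarith) h4 (by positivity) h5

/-- Kusmin-Landau inequality, discrete form. -/
theorem kusmin_landau (f : ℕ → ℝ) (N : ℕ) {A : ℝ} (hA : 0 < A)
    (h1 : ∀ m < N, A ≤ Dl f m) (h2 : ∀ m < N, Dl f m ≤ 1 / 2)
    (h3 : ∀ m < N, 0 ≤ Dl (Dl f) m) :
    ‖∑ m ∈ range N, E (f m)‖ ≤ 1 / A := by
  rcases Nat.eq_zero_or_pos N with hN | hN
  · subst hN
    simp
    exact hA.le
  set c : ℕ → ℂ := fun m => (1 - E (-(Dl f m)))⁻¹ with hc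
  have hpi := Real.pi_gt_d2
  have hpi2 := Real.pi_lt_d2
  have key : ∀ n, n < N →
      ‖∑ m ∈ range (n + 1), E (f m) + (c n - 1) * E (f n)‖ ≤ Real.pi / 8 * (1 / Dl f n) := by
    intro n
    induction n with
    | zero =>
      intro h
      rw [sum_range_one]
      have h4 : E (f 0) + (c 0 - 1) * E (f 0) = c 0 * E (f 0) := by ring
      rw [h4, norm_mul, norm_E, mul_one]
      have hpos : 0 < Dl f 0 := lt_of_lt_of_le hA (h1 0 h)
      calc ‖c 0‖ ≤ 1 / (4 * Dl f 0) := KL_aux hpos (h2 0 h)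
        _ = 1 / 4 * (1 / Dl f 0) := by field_simp
        _ ≤ _ := by
          apply mul_le_mul_of_nonneg_right _ (by positivity)
          linarith
    | succ n ih =>
      intro h
      have hn : n < N := by omega
      have ih' := ih hn
      have hpos : 0 < Dl f n := lt_of_lt_of_le hA (h1 n hn)
      have hpos1 : 0 < Dl f (n + 1) := lt_of_lt_of_le hA (h1 (n + 1) h)
      have hle : Dl f (n + 1) ≤ Dl f n := by
        have := h3 n hn
        have h5 : Dl (Dl f) n = Dl f n - Dl f (n + 1) := rfl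
        linarith
      -- c n * (u_n - u_{n+1}) = u_n
      have hu : c n * (E (f n) - E (f (n + 1))) = E (f n) := by
        have h5 : E (f (n + 1)) = E (f n) * E (-(Dl f n)) := by
          rw [← E_add]
          congr 1
          unfold Dl
          ring
        rw [h5]
        have h6 : (1 - E (-(Dl f n))) ≠ 0 := by
          intro h0
          have h7 := norm_E_sub_one_ge (x := -(Dl f n))
            (by rw [abs_neg, abs_of_pos hpos]; exact h2 n hn)
          rw [abs_neg, abs_of_pos hpos, norm_sub_rev, h0, norm_zero] at h7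
          linarith
        simp only [hc]
        field_simp
      have h7 : ∑ m ∈ range (n + 1 + 1), E (f m) + (c (n + 1) - 1) * E (f (n + 1)) =
          (∑ m ∈ range (n + 1), E (f m) + (c n - 1) * E (f n)) +
            (c (n + 1) - c n) * E (f (n + 1)) := by
        rw [sum_range_succ _ (n + 1)]
        have : c n * E (f n) - E (f n) = c n * E (f (n + 1)) := by
          rw [← sub_eq_zero]
          have := hu
          linear_combination hu
        linear_combination -this
      rw [h7]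
      calc _ ≤ ‖∑ m ∈ range (n + 1), E (f m) + (c n - 1) * E (f n)‖ +
            ‖(c (n + 1) - c n) * E (f (n + 1))‖ := norm_add_le _ _
        _ ≤ Real.pi / 8 * (1 / Dl f n) + Real.pi / 8 * (1 / Dl f (n + 1) - 1 / Dl f n) := by
          apply add_le_add ih'
          rw [norm_mul, norm_E, mul_one]
          exact KL_aux2 hpos1 hle (h2 n hn)
        _ = _ := by ring
  obtain ⟨n, rfl⟩ : ∃ n, N = n + 1 := ⟨N - 1, by omega⟩
  have hk := key n (by omega)
  have hpos : 0 < Dl f n := lt_of_lt_of_le hA (h1 n (by omega))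
  -- (c n - 1) * E (f n) = c n * E (f (n+1))
  have h8 : (c n - 1) * E (f n) = c n * E (f (n + 1)) := by
    have h5 : E (f (n + 1)) = E (f n) * E (-(Dl f n)) := by
      rw [← E_add]
      congr 1
      unfold Dl
      ring
    rw [h5]
    have h6 : (1 - E (-(Dl f n))) ≠ 0 := by
      intro h0
      have h7 := norm_E_sub_one_ge (x := -(Dl f n))
        (by rw [abs_neg, abs_of_pos hpos]; exact h2 n (by omega))
      rw [abs_neg, abs_of_pos hpos, norm_sub_rev, h0, norm_zero] at h7
      linarith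
    simp only [hc]
    field_simp
    ring
  rw [h8] at hk
  calc ‖∑ m ∈ range (n + 1), E (f m)‖
      = ‖(∑ m ∈ range (n + 1), E (f m) + c n * E (f (n + 1))) - c n * E (f (n + 1))‖ := by
        congr 1; ring
    _ ≤ ‖∑ m ∈ range (n + 1), E (f m) + c n * E (f (n + 1))‖ + ‖c n * E (f (n + 1))‖ :=
        norm_sub_le _ _
    _ ≤ Real.pi / 8 * (1 / Dl f n) + 1 / (4 * Dl f n) := by
        apply add_le_add hk
        rw [norm_mul, norm_E, mul_one]
        exact KL_aux hpos (h2 n (by omega))
    _ = (Real.pi / 8 + 1 / 4) * (1 / Dl f n) := by field_simp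
    _ ≤ 1 * (1 / Dl f n) := by
        apply mul_le_mul_of_nonneg_right _ (by positivity)
        linarith
    _ ≤ 1 / A := by
        rw [one_mul]
        exact one_div_le_one_div_of_le hA (h1 n (by omega))

end Pool.Agent.H32.Low
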