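import Mathlib
import Pool.Agent.H32.Low.KL

/-!
The Fejér kernel and sums of it.
-/

namespace Pool.Agent.H32.Low

open Finset Complex Pool.Agent.H32.Nk

/-- normalised Fejér kernel -/
noncomputable def FF (H : ℕ) (x : ℝ) : ℝ := ‖∑ h ∈ range H, E (h * x)‖ ^ 2 / (H : ℝ) ^ 2

lemma FF_nonneg (H : ℕ) (x : ℝ) : 0 ≤ FF H x := by unfold FF; positivity

lemma norm_D_le (H : ℕ) (x : ℝ) : ‖∑ h ∈ range H, E (h * x)‖ ≤ H := by
  refine (norm_sum_le _ _).trans ?_
  rw [sum_congr rfl fun h _ => norm_E _]
  simp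

lemma FF_le_one (H : ℕ) (hH : 0 < H) (x : ℝ) : FF H x ≤ 1 := by
  unfold FF
  have hHR : (0 : ℝ) < H := by exact_mod_cast hH
  rw [div_le_one (by positivity)]
  exact pow_le_pow_left₀ (norm_nonneg _) (norm_D_le H x) 2

lemma FF_add_int (H : ℕ) (x : ℝ) (n : ℤ) : FF H (x + n) = FF H x := by
  unfold FF
  congr 3
  refine sum_congr rfl fun h _ => ?_
  have : (h : ℝ) * (x + n) = h * x + ((h * n : ℤ) : ℝ) := by push_cast; ring
  rw [this, E_add_int]

/-- the kernel is at least `1/2` near integers -/
lemma FF_ge (H : ℕ) (hH : 0 < H) (x : ℝ) (n : ℤ) (h : |x - n| ≤ 1 / (16 * H)) :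
    1 / 2 ≤ FF H x := by
  have hHR : (0 : ℝ) < H := by exact_mod_cast hH
  have h1 : FF H x = FF H (x - n) := by
    have := FF_add_int H (x - n) n
    rw [sub_add_cancel] at this
    exact this
  rw [h1]
  set y := x - n with hy
  unfold FF
  rw [le_div_iff₀ (by positivity)]
  have hre : ∀ h ∈ range H, (9 / 10 : ℝ) ≤ (E (h * y)).re := by
    intro i hi
    have hi' : (i : ℝ) ≤ H := by exact_mod_cast (mem_range.mp hi).le
    unfold E
    rw [Complex.exp_ofReal_mul_I_re]
    have h2 := Real.one_sub_sq_div_two_le_cos (x := 2 * Real.pi * (i * y))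
    refine le_trans ?_ h2
    have h3 : |(i : ℝ) * y| ≤ 1 / 16 := by
      rw [abs_mul, abs_of_nonneg (Nat.cast_nonneg i)]
      calc (i : ℝ) * |y| ≤ H * (1 / (16 * H)) := by gcongr
        _ = 1 / 16 := by field_simp
    have h4 : (2 * Real.pi * (i * y)) ^ 2 ≤ (2 * 3.15 * (1 / 16)) ^ 2 := by
      rw [← sq_abs, abs_mul, abs_mul, abs_of_pos Real.pi_pos, abs_of_pos (by norm_num : (0:ℝ) < 2)]
      have := Real.pi_lt_d2
      have := Real.pi_pos
      gcongr
    norm_num at h4 ⊢
    linarith
  have h2 : (9 / 10 : ℝ) * H ≤ ‖∑ h ∈ range H, E (h * y)‖ := by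
    calc (9 / 10 : ℝ) * H = ∑ h ∈ range H, (9 / 10 : ℝ) := by
          rw [sum_const, card_range, nsmul_eq_mul, mul_comm]
      _ ≤ ∑ h ∈ range H, (E (h * y)).re := sum_le_sum hre
      _ = (∑ h ∈ range H, E (h * y)).re := by rw [Complex.re_sum]
      _ ≤ _ := (le_abs_self _).trans (Complex.abs_re_le_norm _)
  have h3 : ((9 / 10 : ℝ) * H) ^ 2 ≤ ‖∑ h ∈ range H, E (h * y)‖ ^ 2 :=
    pow_le_pow_left₀ (by positivity) h2 2
  nlinarith [sq_nonneg (H : ℝ)]

/-- Lipschitz bound -/
lemma FF_lip (H : ℕ) (hH : 0 < H) (x y : ℝ) : |FF H x - FF H y| ≤ 4 * Real.pi * H * |x - y| := by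
  have hHR : (0 : ℝ) < H := by exact_mod_cast hH
  set A := ∑ h ∈ range H, E (h * x) with hA
  set B := ∑ h ∈ range H, E (h * y) with hB
  have hpi := Real.pi_pos
  have h1 : ‖A - B‖ ≤ H * (2 * Real.pi * H * |x - y|) := by
    rw [hA, hB, ← sum_sub_distrib]
    refine (norm_sum_le _ _).trans ?_
    calc ∑ h ∈ range H, ‖E (h * x) - E (h * y)‖ ≤ ∑ h ∈ range H, (2 * Real.pi * H * |x - y|) := by
          refine sum_le_sum fun h hh => ?_
          have hh' : (h : ℝ) ≤ H := by exact_mod_cast (mem_range.mp hh).le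
          rw [norm_E_sub_E]
          refine (norm_E_sub_one_le _).trans ?_
          rw [← mul_sub, abs_mul, abs_of_nonneg (Nat.cast_nonneg h)]
          calc 2 * Real.pi * (h * |x - y|) ≤ 2 * Real.pi * (H * |x - y|) := by gcongr
            _ = _ := by ring
      _ = _ := by rw [sum_const, card_range, nsmul_eq_mul]
  have h2 : |‖A‖ ^ 2 - ‖B‖ ^ 2| ≤ 2 * H * ‖A - B‖ := by
    have e : ‖A‖ ^ 2 - ‖B‖ ^ 2 = (‖A‖ + ‖B‖) * (‖A‖ - ‖B‖) := by ring
    rw [e, abs_mul, abs_of_nonneg (by positivity)]
    have b1 := norm_D_le H x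
    have b2 := norm_D_le H y
    have b3 := abs_norm_sub_norm_le A B
    calc (‖A‖ + ‖B‖) * |‖A‖ - ‖B‖| ≤ (H + H) * ‖A - B‖ := by gcongr
      _ = _ := by ring
  unfold FF
  rw [← sub_div, abs_div, abs_of_pos (by positivity : (0:ℝ) < (H:ℝ) ^ 2), div_le_iff₀ (by positivity)]
  calc |‖A‖ ^ 2 - ‖B‖ ^ 2| ≤ 2 * H * ‖A - B‖ := h2
    _ ≤ 2 * H * (H * (2 * Real.pi * H * |x - y|)) := by gcongr
    _ = _ := by ring

/-- sums of the kernel -/
lemma FF_sum (H : ℕ) (hH : 0 < H) {ι : Type*} (S : Finset ι) (θ : ι → ℝ) :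
    |∑ x ∈ S, FF H (θ x) - (S.card : ℝ) / H| ≤
      2 / H * ∑ j ∈ Ico 1 H, ‖∑ x ∈ S, E (j * θ x)‖ := by
  have hHR : (0 : ℝ) < H := by exact_mod_cast hH
  -- complex expansion
  have h1 : ((∑ x ∈ S, ‖∑ h ∈ range H, E (h * θ x)‖ ^ 2 : ℝ) : ℂ) =
      ∑ h ∈ range H, ∑ h' ∈ range H, ∑ x ∈ S, E ((h - h' : ℝ) * θ x) := by
    push_cast
    calc _ = ∑ x ∈ S, ∑ h ∈ range H, ∑ h' ∈ range H, E ((h - h' : ℝ) * θ x) := by
          refine sum_congr rfl fun x _ => ?_
          rw [← Complex.mul_conj', map_sum, sum_mul_sum]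
          refine sum_congr rfl fun h _ => sum_congr rfl fun h' _ => ?_
          rw [← E_neg, ← E_add]
          congr 1
          ring
      _ = _ := by
          rw [sum_comm]
          refine sum_congr rfl fun h _ => ?_
          rw [sum_comm]
  have h2 : ((∑ x ∈ S, ‖∑ h ∈ range H, E (h * θ x)‖ ^ 2 - H * S.card : ℝ) : ℂ) =
      ∑ h ∈ range H, ∑ h' ∈ (range H).erase h, ∑ x ∈ S, E ((h - h' : ℝ) * θ x) := by
    rw [Complex.ofReal_sub, h1]
    have h3 : ∀ h ∈ range H, ∑ h' ∈ range H, ∑ x ∈ S, E ((h - h' : ℝ) * θ x) =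
        (S.card : ℂ) + ∑ h' ∈ (range H).erase h, ∑ x ∈ S, E ((h - h' : ℝ) * θ x) := by
      intro h hh
      rw [← add_sum_erase _ _ hh]
      congr 1
      simp [E_zero]
    rw [sum_congr rfl h3, sum_add_distrib, sum_const, card_range, nsmul_eq_mul]
    push_cast
    ring
  have h3 : |∑ x ∈ S, ‖∑ h ∈ range H, E (h * θ x)‖ ^ 2 - H * S.card| ≤
      H * (2 * ∑ j ∈ Ico 1 H, ‖∑ x ∈ S, E (j * θ x)‖) := by
    rw [← Real.norm_eq_abs, ← Complex.norm_real, h2]
    refine (norm_sum_le _ _).trans ?_
    calc _ ≤ ∑ h ∈ range H, (2 * ∑ j ∈ Ico 1 H, ‖∑ x ∈ S, E (j * θ x)‖) := by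
          refine sum_le_sum fun h hh => ?_
          refine (norm_sum_le _ _).trans ?_
          set g : ℕ → ℝ := fun j => ‖∑ x ∈ S, E (j * θ x)‖ with hg
          have hterm : ∀ h' ∈ (range H).erase h, ‖∑ x ∈ S, E ((h - h' : ℝ) * θ x)‖ =
              g (max h h' - min h h') := by
            intro h' _
            simp only [hg]
            rcases le_total h h' with hle | hle
            · rw [max_eq_right hle, min_eq_left hle, Nat.cast_sub hle]
              rw [← Complex.norm_conj, map_sum]
              congr 1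
              refine sum_congr rfl fun x _ => ?_
              rw [← E_neg]
              congr 1
              ring
            · rw [max_eq_left hle, min_eq_right hle, Nat.cast_sub hle]
          rw [sum_congr rfl hterm, two_mul]
          have hsplit : ∑ h' ∈ (range H).erase h, g (max h h' - min h h') =
              ∑ h' ∈ ((range H).erase h).filter (fun h' => h' ≤ h), g (max h h' - min h h') +
              ∑ h' ∈ ((range H).erase h).filter (fun h' => ¬ h' ≤ h), g (max h h' - min h h') :=
            (sum_filter_add_sum_filter_not _ _ _).symm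
          have hh' := mem_range.mp hh
          rw [hsplit]
          apply add_le_add
          · rw [← sum_image (s := ((range H).erase h).filter (fun h' => h' ≤ h)) (f := g)
              (g := fun h' => max h h' - min h h')]
            · apply sum_le_sum_of_subset_of_nonneg
              · intro j hj
                rw [mem_image] at hj
                obtain ⟨a, ha, rfl⟩ := hj
                rw [mem_filter, mem_erase, mem_range] at ha
                rw [mem_Ico]
                omega
              · intro i _ _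
                exact norm_nonneg _
            · intro a ha b hb hab
              have ha' := (mem_filter.mp (mem_coe.mp ha)).2
              have hb' := (mem_filter.mp (mem_coe.mp hb)).2
              simp only at hab
              omega
          · rw [← sum_image (s := ((range H).erase h).filter (fun h' => ¬ h' ≤ h)) (f := g)
              (g := fun h' => max h h' - min h h')]
            · apply sum_le_sum_of_subset_of_nonneg
              · intro j hj
                rw [mem_image] at hj
                obtain ⟨a, ha, rfl⟩ := hj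
                rw [mem_filter, mem_erase, mem_range] at ha
                rw [mem_Ico]
                omega
              · intro i _ _
                exact norm_nonneg _
            · intro a ha b hb hab
              have ha' := (mem_filter.mp (mem_coe.mp ha)).2
              have hb' := (mem_filter.mp (mem_coe.mp hb)).2
              simp only at hab
              omega
      _ = _ := by rw [sum_const, card_range, nsmul_eq_mul]
  have h4 : ∑ x ∈ S, FF H (θ x) - (S.card : ℝ) / H =
      (∑ x ∈ S, ‖∑ h ∈ range H, E (h * θ x)‖ ^ 2 - H * S.card) / (H : ℝ) ^ 2 := by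
    unfold FF
    rw [← sum_div]
    field_simp
  rw [h4, abs_div, abs_of_pos (by positivity : (0:ℝ) < (H:ℝ) ^ 2), div_le_iff₀ (by positivity)]
  refine h3.trans (le_of_eq ?_)
  field_simp

end Pool.Agent.H32.Low
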