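import Mathlib
import Pool.Agent.H32.Low.KL

/-!
The van der Corput differencing inequality.
-/

namespace Pool.Agent.H32.Low

open Finset Complex Pool.Agent.H32.Nk


/-- correlation -/
noncomputable def corr (u : ℕ → ℂ) (N j : ℕ) : ℂ :=
  ∑ m ∈ range (N - j), u (m + j) * (starRingEnd ℂ) (u m)

/-- extension by zero -/
noncomputable def cut (u : ℕ → ℂ) (N : ℕ) : ℕ → ℂ := fun m => if m < N then u m else 0

/-- shifted copy -/
noncomputable def sft (u : ℕ → ℂ) (N : ℕ) (n h : ℕ) : ℂ := if h ≤ n then cut u N (n - h) else 0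

lemma sum_sft (u : ℕ → ℂ) (N H h : ℕ) (hh : h < H) :
    ∑ n ∈ range (N + H), sft u N n h = ∑ m ∈ range N, u m := by
  obtain ⟨k, rfl⟩ : ∃ k, H = h + k := ⟨H - h, by omega⟩
  rw [show N + (h + k) = h + (N + k) by ring, sum_range_add]
  have h1 : ∑ x ∈ range h, sft u N x h = 0 := by
    apply sum_eq_zero
    intro x hx
    unfold sft
    rw [if_neg (by have := mem_range.mp hx; omega)]
  rw [h1, zero_add, sum_range_add]
  have h2 : ∑ x ∈ range k, sft u N (h + (N + x)) h = 0 := by
    apply sum_eq_zero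
    intro x _
    unfold sft cut
    rw [if_pos (by omega), if_neg (by omega)]
  rw [h2, add_zero]
  refine sum_congr rfl fun x hx => ?_
  unfold sft cut
  rw [if_pos (by omega)]
  have : h + x - h = x := by omega
  rw [this, if_pos (mem_range.mp hx)]

lemma sum_sft_mul (u : ℕ → ℂ) (N H h h' : ℕ) (hh : h ≤ h') (hH : h' < H) :
    ∑ n ∈ range (N + H), sft u N n h * (starRingEnd ℂ) (sft u N n h') = corr u N (h' - h) := by
  obtain ⟨j, rfl⟩ : ∃ j, h' = h + j := ⟨h' - h, by omega⟩
  obtain ⟨k, rfl⟩ : ∃ k, H = h + j + k := ⟨H - (h + j), by omega⟩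
  have hj : h + j - h = j := by omega
  rw [hj]
  rw [show N + (h + j + k) = (h + j) + (N + k) by ring, sum_range_add]
  have h1 : ∑ x ∈ range (h + j), sft u N x h * (starRingEnd ℂ) (sft u N x (h + j)) = 0 := by
    apply sum_eq_zero
    intro x hx
    have := mem_range.mp hx
    unfold sft
    rw [if_neg (by omega : ¬ (h + j ≤ x)), map_zero, mul_zero]
  rw [h1, zero_add]
  unfold corr
  rw [show N + k = (N - j) + (N + k - (N - j)) by omega, sum_range_add]
  have h2 : ∑ x ∈ range (N + k - (N - j)), sft u N (h + j + (N - j + x)) h *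
      (starRingEnd ℂ) (sft u N (h + j + (N - j + x)) (h + j)) = 0 := by
    apply sum_eq_zero
    intro x _
    have : sft u N (h + j + (N - j + x)) h = 0 := by
      unfold sft cut
      rw [if_pos (by omega), if_neg (by omega)]
    rw [this, zero_mul]
  rw [h2, add_zero]
  refine sum_congr rfl fun x hx => ?_
  have hx' := mem_range.mp hx
  unfold sft cut
  rw [if_pos (by omega), if_pos (by omega)]
  have e1 : h + j + x - h = x + j := by omega
  have e2 : h + j + x - (h + j) = x := by omega
  rw [e1, e2, if_pos (by omega), if_pos (by omega)]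

lemma norm_sum_sft_mul (u : ℕ → ℂ) (N H h h' : ℕ) (hh : h < H) (hH : h' < H) :
    ‖∑ n ∈ range (N + H), sft u N n h * (starRingEnd ℂ) (sft u N n h')‖ =
      ‖corr u N (max h h' - min h h')‖ := by
  rcases le_total h h' with hle | hle
  · rw [sum_sft_mul u N H h h' hle hH, max_eq_right hle, min_eq_left hle]
  · rw [max_eq_left hle, min_eq_right hle, ← sum_sft_mul u N H h' h hle hh]
    rw [← Complex.norm_conj, map_sum]
    congr 1
    refine sum_congr rfl fun n _ => ?_
    rw [map_mul, Complex.conj_conj, mul_comm]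

lemma sum_abs_diff_le (g : ℕ → ℝ) (hg : ∀ j, 0 ≤ g j) (H h : ℕ) (hh : h < H) :
    ∑ h' ∈ range H, g (max h h' - min h h') ≤ 2 * ∑ j ∈ range H, g j := by
  rw [two_mul]
  have h1 : ∑ h' ∈ range H, g (max h h' - min h h') =
      ∑ h' ∈ (range H).filter (fun h' => h' ≤ h), g (max h h' - min h h') +
      ∑ h' ∈ (range H).filter (fun h' => ¬ h' ≤ h), g (max h h' - min h h') :=
    (sum_filter_add_sum_filter_not _ _ _).symm
  rw [h1]
  apply add_le_add
  · rw [← sum_image (s := (range H).filter (fun h' => h' ≤ h)) (f := g)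
      (g := fun h' => max h h' - min h h')]
    · apply sum_le_sum_of_subset_of_nonneg
      · intro j hj
        rw [mem_image] at hj
        obtain ⟨a, ha, rfl⟩ := hj
        rw [mem_filter, mem_range] at ha
        rw [mem_range]
        omega
      · intro i _ _
        exact hg i
    · intro a ha b hb hab
      have ha' := (mem_filter.mp (mem_coe.mp ha)).2
      have hb' := (mem_filter.mp (mem_coe.mp hb)).2
      simp only at hab
      omega
  · rw [← sum_image (s := (range H).filter (fun h' => ¬ h' ≤ h)) (f := g)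
      (g := fun h' => max h h' - min h h')]
    · apply sum_le_sum_of_subset_of_nonneg
      · intro j hj
        rw [mem_image] at hj
        obtain ⟨a, ha, rfl⟩ := hj
        rw [mem_filter, mem_range] at ha
        rw [mem_range]
        omega
      · intro i _ _
        exact hg i
    · intro a ha b hb hab
      have ha' := (mem_filter.mp (mem_coe.mp ha)).2
      have hb' := (mem_filter.mp (mem_coe.mp hb)).2
      simp only at hab
      omega

/-- van der Corput's inequality. -/
theorem vdc_ineq (u : ℕ → ℂ) (N H : ℕ) (hH : 0 < H) :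
    ‖∑ m ∈ range N, u m‖ ^ 2 ≤
      2 * (N + H) / H * ∑ j ∈ range H, ‖corr u N j‖ := by
  set S : ℂ := ∑ m ∈ range N, u m with hS
  have h1 : ∑ n ∈ range (N + H), ∑ h ∈ range H, sft u N n h = H * S := by
    rw [sum_comm]
    rw [sum_congr rfl fun h hh => sum_sft u N H h (mem_range.mp hh)]
    rw [sum_const, card_range, nsmul_eq_mul]
  have h2 : ‖(H : ℂ) * S‖ ^ 2 ≤
      (N + H) * ∑ n ∈ range (N + H), ‖∑ h ∈ range H, sft u N n h‖ ^ 2 := by
    rw [← h1]
    calc ‖∑ n ∈ range (N + H), ∑ h ∈ range H, sft u N n h‖ ^ 2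
        ≤ (∑ n ∈ range (N + H), ‖∑ h ∈ range H, sft u N n h‖) ^ 2 := by
          apply pow_le_pow_left₀ (norm_nonneg _) (norm_sum_le _ _)
      _ ≤ _ := by
          have := sq_sum_le_card_mul_sum_sq (s := range (N + H))
            (f := fun n => ‖∑ h ∈ range H, sft u N n h‖)
          rw [card_range] at this
          push_cast at this
          exact this
  have h3 : ((∑ n ∈ range (N + H), ‖∑ h ∈ range H, sft u N n h‖ ^ 2 : ℝ) : ℂ) =
      ∑ h ∈ range H, ∑ h' ∈ range H,
        ∑ n ∈ range (N + H), sft u N n h * (starRingEnd ℂ) (sft u N n h') := by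
    push_cast
    calc _ = ∑ n ∈ range (N + H), ∑ h ∈ range H, ∑ h' ∈ range H,
          sft u N n h * (starRingEnd ℂ) (sft u N n h') := by
          refine sum_congr rfl fun n _ => ?_
          rw [← Complex.mul_conj', map_sum, sum_mul_sum]
      _ = _ := by
          rw [sum_comm]
          refine sum_congr rfl fun h _ => ?_
          rw [sum_comm]
  have h4 : ∑ n ∈ range (N + H), ‖∑ h ∈ range H, sft u N n h‖ ^ 2 ≤
      H * (2 * ∑ j ∈ range H, ‖corr u N j‖) := by
    have h5 : ∑ n ∈ range (N + H), ‖∑ h ∈ range H, sft u N n h‖ ^ 2 =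
        ‖((∑ n ∈ range (N + H), ‖∑ h ∈ range H, sft u N n h‖ ^ 2 : ℝ) : ℂ)‖ := by
      rw [Complex.norm_real, Real.norm_eq_abs, abs_of_nonneg]
      exact sum_nonneg fun n _ => by positivity
    rw [h5, h3]
    calc _ ≤ ∑ h ∈ range H, ‖∑ h' ∈ range H,
          ∑ n ∈ range (N + H), sft u N n h * (starRingEnd ℂ) (sft u N n h')‖ := norm_sum_le _ _
      _ ≤ ∑ h ∈ range H, (2 * ∑ j ∈ range H, ‖corr u N j‖) := by
          refine sum_le_sum fun h hh => ?_
          refine (norm_sum_le _ _).trans ?_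
          rw [sum_congr rfl fun h' hh' =>
            norm_sum_sft_mul u N H h h' (mem_range.mp hh) (mem_range.mp hh')]
          exact sum_abs_diff_le (fun j => ‖corr u N j‖) (fun j => norm_nonneg _) H h
            (mem_range.mp hh)
      _ = _ := by rw [sum_const, card_range, nsmul_eq_mul]
  have hHpos : (0 : ℝ) < H := by exact_mod_cast hH
  have h6 : ‖(H : ℂ) * S‖ ^ 2 = H ^ 2 * ‖S‖ ^ 2 := by
    rw [norm_mul, Complex.norm_natCast, mul_pow]
  rw [h6] at h2
  have h7 : (H : ℝ) ^ 2 * ‖S‖ ^ 2 ≤ (N + H) * (H * (2 * ∑ j ∈ range H, ‖corr u N j‖)) :=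
    h2.trans (mul_le_mul_of_nonneg_left h4 (by positivity))
  have h8 : ‖S‖ ^ 2 * H ≤ 2 * (N + H) * ∑ j ∈ range H, ‖corr u N j‖ := by
    apply le_of_mul_le_mul_left _ hHpos
    calc (H : ℝ) * (‖S‖ ^ 2 * H) = (H : ℝ) ^ 2 * ‖S‖ ^ 2 := by ring
      _ ≤ _ := h7
      _ = _ := by ring
  rw [div_mul_eq_mul_div, le_div_iff₀ hHpos]
  exact h8

end Pool.Agent.H32.Low
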