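import Mathlib
import Pool.Agent.H32.Low.VdC

/-!
Iterating van der Corput's inequality.
-/

namespace Pool.Agent.H32.Low

open Finset Complex Pool.Agent.H32.Nk

lemma Dl_sum (g : ℕ → ℝ) (h : ℕ) :
    Dl (fun m => ∑ j ∈ range h, g (m + j)) = fun m => ∑ j ∈ range h, Dl g (m + j) := by
  funext m
  unfold Dl
  rw [← sum_sub_distrib]
  refine sum_congr rfl fun j _ => ?_
  rw [show m + 1 + j = m + j + 1 by ring]

lemma Dl_iter_sum (r : ℕ) (g : ℕ → ℝ) (h : ℕ) :
    Dl^[r] (fun m => ∑ j ∈ range h, g (m + j)) =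
      fun m => ∑ j ∈ range h, (Dl^[r] g) (m + j) := by
  induction r with
  | zero => rfl
  | succ r ih =>
    rw [Function.iterate_succ_apply', ih, Dl_sum, Function.iterate_succ_apply']

lemma tele (f : ℕ → ℝ) (h : ℕ) :
    (fun m => f m - f (m + h)) = fun m => ∑ j ∈ range h, Dl f (m + j) := by
  funext m
  have := sum_range_sub' (fun j => f (m + j)) h
  simp only [add_zero] at this
  rw [← this]
  rfl

lemma Dl_iter_diff (r : ℕ) (f : ℕ → ℝ) (h : ℕ) :
    Dl^[r] (fun m => f m - f (m + h)) = fun m => ∑ j ∈ range h, (Dl^[r + 1] f) (m + j) := by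
  rw [tele, Dl_iter_sum, Function.iterate_succ_apply]

lemma norm_corr_E (f : ℕ → ℝ) (N j : ℕ) :
    ‖corr (fun m => E (f m)) N j‖ = ‖∑ m ∈ range (N - j), E (f m - f (m + j))‖ := by
  unfold corr
  rw [← Complex.norm_conj, map_sum]
  congr 1
  refine sum_congr rfl fun m _ => ?_
  rw [map_mul, Complex.conj_conj, ← E_neg, ← E_add]
  congr 1
  ring

/-- iterated van der Corput inequality -/
theorem vdc_iter (r : ℕ) : ∃ C : ℝ, 1 ≤ C ∧ ∀ (f : ℕ → ℝ) (N H : ℕ) (A B L l : ℝ),
    0 < H → (N : ℝ) ≤ L → (H : ℝ) ≤ L → 0 < A → 0 ≤ B → 1 ≤ l →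
    (∑ h ∈ range H, (1 : ℝ) / h) ≤ l →
    (∀ m < N, A ≤ Dl^[r + 1] f m) → (∀ m < N, Dl^[r + 1] f m ≤ B) →
    (∀ m < N, 0 ≤ Dl^[r + 2] f m) → B * H ^ r ≤ 1 / 2 →
    ‖∑ m ∈ range N, E (f m)‖ ^ (2 ^ r) ≤ C * L ^ (2 ^ r) * (1 / H + l ^ r / (A * L * H ^ r)) := by
  induction r with
  | zero =>
    refine ⟨1, le_rfl, ?_⟩
    intro f N H A B L l hH hNL hHL hA hB hl hsum h1 h2 h3 hBH
    have hHpos : (0 : ℝ) < H := by exact_mod_cast hH
    have hL : 0 < L := lt_of_lt_of_le hHpos hHL
    have hB2 : B ≤ 1 / 2 := by simpa using hBH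
    have := kusmin_landau f N hA h1 (fun m hm => (h2 m hm).trans hB2) h3
    simp only [pow_zero, pow_one, mul_one, one_mul]
    refine this.trans ?_
    have h4 : L * (1 / H + 1 / (A * L)) = 1 / A + L / H := by
      field_simp
      ring
    rw [h4]
    have : 0 ≤ L / H := by positivity
    linarith
  | succ r ih =>
    obtain ⟨C, hC1, hC⟩ := ih
    refine ⟨4 ^ (2 ^ r) * (1 + C), ?_, ?_⟩
    · have : (1 : ℝ) ≤ 4 ^ (2 ^ r) := one_le_pow₀ (by norm_num)
      nlinarith
    intro f N H A B L l hH hNL hHL hA hB hl hsum h1 h2 h3 hBH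
    have hHpos : (0 : ℝ) < H := by exact_mod_cast hH
    have hH1 : (1 : ℝ) ≤ H := by exact_mod_cast hH
    have hL : 0 < L := lt_of_lt_of_le hHpos hHL
    set S := ‖∑ m ∈ range N, E (f m)‖ with hS
    set q := 2 ^ r with hq
    have hqpos : 0 < q := by positivity
    set g : ℕ → ℝ := fun j => ‖corr (fun m => E (f m)) N j‖ with hg
    have hg0 : ∀ j, 0 ≤ g j := fun j => norm_nonneg _
    -- van der Corput
    have hv : S ^ 2 ≤ 4 * L / H * ∑ j ∈ range H, g j := by
      have h4 := vdc_ineq (fun m => E (f m)) N H hH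
      refine h4.trans ?_
      apply mul_le_mul_of_nonneg_right _ (sum_nonneg fun j _ => hg0 j)
      apply div_le_div_of_nonneg_right _ hHpos.le
      linarith
    -- power mean
    have hpm : (∑ j ∈ range H, g j) ^ q ≤ H ^ (q - 1) * ∑ j ∈ range H, g j ^ q := by
      obtain ⟨n, hn⟩ : ∃ n, q = n + 1 := ⟨q - 1, by omega⟩
      have h4 := pow_sum_div_card_le_sum_pow (s := range H) (f := g) (fun i _ => hg0 i) n
      rw [card_range, div_le_iff₀ (by positivity)] at h4
      rw [hn]
      simp only [Nat.add_sub_cancel]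
      linarith
    -- individual bounds
    have hind : ∀ j ∈ range H, g j ^ q ≤
        (if j = 0 then L ^ q else 0) +
        C * L ^ q * (1 / H + l ^ r / (A * L * H ^ r) * (1 / j)) := by
      intro j hj
      have hjH := mem_range.mp hj
      rcases Nat.eq_zero_or_pos j with hj0 | hj0
      · subst hj0
        rw [if_pos rfl]
        have h5 : g 0 ≤ L := by
          simp only [hg, norm_corr_E]
          calc _ ≤ ∑ m ∈ range (N - 0), ‖E (f m - f (m + 0))‖ := norm_sum_le _ _
            _ = N := by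
              rw [sum_congr rfl fun m _ => norm_E _]
              simp
            _ ≤ L := hNL
        have h6 : g 0 ^ q ≤ L ^ q := pow_le_pow_left₀ (hg0 0) h5 q
        have h7 : 0 ≤ C * L ^ q * (1 / H + l ^ r / (A * L * H ^ r) * (1 / ((0 : ℕ) : ℝ))) := by
          have : (1 : ℝ) / ((0 : ℕ) : ℝ) = 0 := by simp
          rw [this, mul_zero, add_zero]
          positivity
        linarith
      · rw [if_neg (by omega), zero_add]
        have hjpos : (0 : ℝ) < j := by exact_mod_cast hj0
        have hj1 : (1 : ℝ) ≤ j := by exact_mod_cast hj0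
        simp only [hg]
        rw [norm_corr_E]
        have h5 := hC (fun m => f m - f (m + j)) (N - j) H (j * A) (j * B) L l hH
          (le_trans (by exact_mod_cast Nat.sub_le _ _) hNL) hHL (by positivity) (by positivity) hl
          hsum ?_ ?_ ?_ ?_
        · refine h5.trans (le_of_eq ?_)
          congr 2
          field_simp
        · intro m hm
          rw [Dl_iter_diff]
          calc (j : ℝ) * A = ∑ i ∈ range j, A := by rw [sum_const, card_range, nsmul_eq_mul]
            _ ≤ _ := by
              refine sum_le_sum fun i hi => ?_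
              have := mem_range.mp hi
              exact h1 (m + i) (by omega)
        · intro m hm
          rw [Dl_iter_diff]
          calc _ ≤ ∑ i ∈ range j, B := by
                refine sum_le_sum fun i hi => ?_
                have := mem_range.mp hi
                exact h2 (m + i) (by omega)
            _ = _ := by rw [sum_const, card_range, nsmul_eq_mul]
        · intro m hm
          rw [Dl_iter_diff]
          refine sum_nonneg fun i hi => ?_
          have := mem_range.mp hi
          exact h3 (m + i) (by omega)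
        · have hjle : (j : ℝ) ≤ H := by exact_mod_cast hjH.le
          calc (j : ℝ) * B * H ^ r ≤ H * B * H ^ r := by gcongr
            _ = B * H ^ (r + 1) := by ring
            _ ≤ 1 / 2 := hBH
    have hsum2 : ∑ j ∈ range H, g j ^ q ≤
        L ^ q * (1 + C * (1 + l ^ (r + 1) / (A * L * H ^ r))) := by
      calc _ ≤ ∑ j ∈ range H, ((if j = 0 then L ^ q else 0) +
          C * L ^ q * (1 / H + l ^ r / (A * L * H ^ r) * (1 / j))) := sum_le_sum hind
        _ = L ^ q + C * L ^ q * (H * (1 / H) +
              l ^ r / (A * L * H ^ r) * ∑ j ∈ range H, (1 : ℝ) / j) := by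
            rw [sum_add_distrib]
            congr 1
            · rw [sum_ite_eq' (range H) 0 (fun _ => L ^ q), if_pos (mem_range.mpr hH)]
            · rw [← mul_sum, sum_add_distrib, sum_const, card_range, nsmul_eq_mul, ← mul_sum]
        _ ≤ L ^ q + C * L ^ q * (H * (1 / H) + l ^ r / (A * L * H ^ r) * l) := by
            gcongr
        _ = _ := by
            rw [mul_one_div_cancel hHpos.ne']
            ring
    have hS0 : 0 ≤ S := norm_nonneg _
    calc S ^ (2 ^ (r + 1)) = (S ^ 2) ^ q := by
          rw [← pow_mul, pow_succ 2 r, mul_comm 2 q]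
      _ ≤ (4 * L / H * ∑ j ∈ range H, g j) ^ q := pow_le_pow_left₀ (by positivity) hv q
      _ = (4 * L / H) ^ q * (∑ j ∈ range H, g j) ^ q := mul_pow _ _ _
      _ ≤ (4 * L / H) ^ q * (H ^ (q - 1) * ∑ j ∈ range H, g j ^ q) := by gcongr
      _ ≤ (4 * L / H) ^ q * (H ^ (q - 1) *
            (L ^ q * (1 + C * (1 + l ^ (r + 1) / (A * L * H ^ r))))) := by gcongr
      _ = 4 ^ q * L ^ (q * 2) * (1 / H) * (1 + C * (1 + l ^ (r + 1) / (A * L * H ^ r))) := by
          have h9 : (H : ℝ) ^ q = H ^ (q - 1) * H := by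
            rw [← pow_succ]
            congr 1
            omega
          rw [div_pow, mul_pow, h9, pow_mul]
          field_simp
      _ ≤ 4 ^ q * (1 + C) * L ^ (q * 2) * (1 / H + l ^ (r + 1) / (A * L * H ^ (r + 1))) := by
          have h10 : (1 / (H : ℝ)) * (1 + C * (1 + l ^ (r + 1) / (A * L * H ^ r))) ≤
              (1 + C) * (1 / H + l ^ (r + 1) / (A * L * H ^ (r + 1))) := by
            have h11 : l ^ (r + 1) / (A * L * H ^ (r + 1)) =
                (1 / (H : ℝ)) * (l ^ (r + 1) / (A * L * H ^ r)) := by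
              rw [pow_succ (H : ℝ)]
              field_simp
            rw [h11]
            have h12 : 0 ≤ l ^ (r + 1) / (A * L * H ^ r) := by positivity
            have h13 : (1 + C) * (1 / H + 1 / (H : ℝ) * (l ^ (r + 1) / (A * L * H ^ r))) -
              (1 / (H : ℝ)) * (1 + C * (1 + l ^ (r + 1) / (A * L * H ^ r))) =
              1 / (H : ℝ) * (l ^ (r + 1) / (A * L * H ^ r)) := by ring
            have h14 : 0 ≤ 1 / (H : ℝ) * (l ^ (r + 1) / (A * L * H ^ r)) := by positivity
            linarith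
          calc _ = 4 ^ q * L ^ (q * 2) *
                ((1 / H) * (1 + C * (1 + l ^ (r + 1) / (A * L * H ^ r)))) := by ring
            _ ≤ 4 ^ q * L ^ (q * 2) *
                ((1 + C) * (1 / H + l ^ (r + 1) / (A * L * H ^ (r + 1)))) := by gcongr
            _ = _ := by ring
      _ = _ := by
          rw [pow_succ 2 r]

end Pool.Agent.H32.Low
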