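import Mathlib

/-!
Sums over multiples of `d`.
-/

namespace Pool.Agent.H32.Low

open Finset

lemma sum_mult {M : Type*} [AddCommMonoid M] (g : ℕ → M) (d k K : ℕ) (hd : 0 < d) :
    ∑ x ∈ (Ioc k K).filter (fun x => d ∣ x), g x = ∑ m ∈ Ioc (k / d) (K / d), g (d * m) := by
  have h : (Ioc k K).filter (fun x => d ∣ x) = (Ioc (k / d) (K / d)).image (fun m => d * m) := by
    ext x
    rw [mem_filter, mem_Ioc, mem_image]
    constructor
    · rintro ⟨⟨h1, h2⟩, m, rfl⟩
      refine ⟨m, ?_, rfl⟩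
      rw [mem_Ioc]
      constructor
      · rw [Nat.div_lt_iff_lt_mul hd, mul_comm]; exact h1
      · rw [Nat.le_div_iff_mul_le hd, mul_comm]; exact h2
    · rintro ⟨m, hm, rfl⟩
      rw [mem_Ioc, Nat.div_lt_iff_lt_mul hd, Nat.le_div_iff_mul_le hd] at hm
      refine ⟨⟨?_, ?_⟩, dvd_mul_right _ _⟩
      · rw [mul_comm]; exact hm.1
      · rw [mul_comm]; exact hm.2
  rw [h, sum_image]
  intro a _ b _ hab
  exact Nat.eq_of_mul_eq_mul_left hd hab

/-- comparison of the sum over multiples of `d` and the full sum -/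
lemma comb (g : ℕ → ℝ) (hg0 : ∀ x, 0 ≤ g x) (hg1 : ∀ x, g x ≤ 1) (k K d : ℕ) (hd : 0 < d)
    (hkK : k ≤ K) (l : ℝ) (hl : 0 ≤ l)
    (hlip : ∀ x y : ℕ, k ≤ x → x ≤ y → |g x - g y| ≤ l * ((y : ℝ) - x)) :
    |∑ x ∈ (Ioc k K).filter (fun x => d ∣ x), g x - (∑ x ∈ Ioc k K, g x) / d| ≤
      2 + l * ((K : ℝ) - k + d) := by
  set a := k / d with ha
  set b := K / d with hb
  have hab : a ≤ b := Nat.div_le_div_right hkK
  have ha1 : d * a ≤ k := Nat.mul_div_le k d
  have ha2 : k < d * (a + 1) := Nat.lt_mul_div_succ k hd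
  have hb1 : d * b ≤ K := Nat.mul_div_le K d
  have hb2 : K < d * (b + 1) := Nat.lt_mul_div_succ K hd
  have hdR : (0 : ℝ) < d := by exact_mod_cast hd
  set P : ℕ → ℝ := fun t => ∑ y ∈ range t, g y with hP
  have hPmono : ∀ s t, s ≤ t → 0 ≤ P t - P s ∧ P t - P s ≤ (t : ℝ) - s := by
    intro s t hst
    have h1 : P t - P s = ∑ y ∈ Ico s t, g y := by
      simp only [hP]
      rw [Finset.sum_Ico_eq_sub _ hst]
    rw [h1]
    refine ⟨sum_nonneg fun y _ => hg0 y, ?_⟩
    calc ∑ y ∈ Ico s t, g y ≤ ∑ y ∈ Ico s t, (1 : ℝ) := sum_le_sum fun y _ => hg1 y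
      _ = _ := by rw [sum_const, Nat.card_Ico, nsmul_eq_mul, mul_one, Nat.cast_sub hst]
  have hW1 : ∑ x ∈ Ioc k K, g x = P (K + 1) - P (k + 1) := by
    simp only [hP]
    rw [← Finset.sum_Ico_eq_sub _ (by omega : k + 1 ≤ K + 1)]
    apply sum_congr _ fun _ _ => rfl
    ext x
    rw [mem_Ioc, mem_Ico]
    omega
  have hblock : ∀ b', a ≤ b' → ∑ m ∈ Ioc a b', ∑ i ∈ range d, g (d * m + i) =
      P (d * (b' + 1)) - P (d * (a + 1)) := by
    intro b' hb'
    induction b', hb' using Nat.le_induction with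
    | base => simp
    | succ n hn ih =>
      rw [sum_Ioc_succ_top (by omega), ih]
      have h1 : ∑ i ∈ range d, g (d * (n + 1) + i) = P (d * (n + 1 + 1)) - P (d * (n + 1)) := by
        simp only [hP]
        rw [← Finset.sum_Ico_eq_sub _ (by nlinarith : d * (n + 1) ≤ d * (n + 1 + 1)),
          sum_Ico_eq_sum_range]
        have : d * (n + 1 + 1) - d * (n + 1) = d := by
          rw [← Nat.mul_sub]
          simp
        rw [this]
      rw [h1]
      ring
  have hB := hblock b hab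
  have hdiff1 : |∑ m ∈ Ioc a b, ∑ i ∈ range d, g (d * m + i) - ∑ x ∈ Ioc k K, g x| ≤ 2 * d := by
    rw [hB, hW1]
    have h1 := hPmono (k + 1) (d * (a + 1)) (by omega)
    have h2 := hPmono (K + 1) (d * (b + 1)) (by omega)
    have h3 : ((d * (a + 1) : ℕ) : ℝ) - ((k + 1 : ℕ) : ℝ) ≤ d := by
      have : d * (a + 1) ≤ k + 1 + d := by
        rw [mul_add, mul_one]; omega
      have : ((d * (a + 1) : ℕ) : ℝ) ≤ ((k + 1 + d : ℕ) : ℝ) := by exact_mod_cast this
      push_cast at this ⊢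
      linarith
    have h4 : ((d * (b + 1) : ℕ) : ℝ) - ((K + 1 : ℕ) : ℝ) ≤ d := by
      have : d * (b + 1) ≤ K + 1 + d := by
        rw [mul_add, mul_one]; omega
      have : ((d * (b + 1) : ℕ) : ℝ) ≤ ((K + 1 + d : ℕ) : ℝ) := by exact_mod_cast this
      push_cast at this ⊢
      linarith
    rw [abs_le]
    constructor <;> linarith [h1.1, h1.2, h2.1, h2.2]
  have hdiff2 : |d * ∑ m ∈ Ioc a b, g (d * m) - ∑ m ∈ Ioc a b, ∑ i ∈ range d, g (d * m + i)| ≤
      l * d * ((K : ℝ) - k + d) := by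
    rw [mul_sum, ← sum_sub_distrib]
    refine (abs_sum_le_sum_abs _ _).trans ?_
    have hterm : ∀ m ∈ Ioc a b, |d * g (d * m) - ∑ i ∈ range d, g (d * m + i)| ≤ l * d * d := by
      intro m hm
      have hm' := mem_Ioc.mp hm
      have hkm : k ≤ d * m := by
        have : d * (a + 1) ≤ d * m := Nat.mul_le_mul_left d (by omega)
        omega
      have e : (d : ℝ) * g (d * m) = ∑ i ∈ range d, g (d * m) := by
        rw [sum_const, card_range, nsmul_eq_mul]
      rw [e, ← sum_sub_distrib]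
      refine (abs_sum_le_sum_abs _ _).trans ?_
      calc _ ≤ ∑ i ∈ range d, l * d := by
            refine sum_le_sum fun i hi => ?_
            refine (hlip (d * m) (d * m + i) hkm (by omega)).trans ?_
            have : (i : ℝ) ≤ d := by exact_mod_cast (mem_range.mp hi).le
            push_cast
            apply mul_le_mul_of_nonneg_left _ hl
            linarith
        _ = _ := by rw [sum_const, card_range, nsmul_eq_mul]; ring
    calc _ ≤ ∑ m ∈ Ioc a b, l * d * d := sum_le_sum hterm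
      _ = ((b : ℝ) - a) * (l * d * d) := by
          rw [sum_const, Nat.card_Ioc, nsmul_eq_mul, Nat.cast_sub hab]
      _ = l * d * (d * b - d * a) := by ring
      _ ≤ l * d * ((K : ℝ) - k + d) := by
          apply mul_le_mul_of_nonneg_left _ (by positivity)
          have h1 : ((d * b : ℕ) : ℝ) ≤ K := by exact_mod_cast hb1
          have h2 : (k : ℝ) ≤ ((d * (a + 1) : ℕ) : ℝ) := by exact_mod_cast ha2.le
          push_cast at h1 h2
          linarith
  rw [sum_mult g d k K hd]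
  have e : ∑ m ∈ Ioc a b, g (d * m) - (∑ x ∈ Ioc k K, g x) / d =
      ((d * ∑ m ∈ Ioc a b, g (d * m) - ∑ m ∈ Ioc a b, ∑ i ∈ range d, g (d * m + i)) +
      (∑ m ∈ Ioc a b, ∑ i ∈ range d, g (d * m + i) - ∑ x ∈ Ioc k K, g x)) / d := by
    field_simp
    ring
  rw [e, abs_div, abs_of_pos hdR, div_le_iff₀ hdR]
  refine (abs_add_le _ _).trans ?_
  calc _ ≤ l * d * ((K : ℝ) - k + d) + 2 * d := add_le_add hdiff2 hdiff1
    _ = _ := by ring

end Pool.Agent.H32.Low
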