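import Mathlib
import Pool.Agent.H32.Low.Iter

/-!
Power saving for the exponential sums with phase `y / m`.
-/

namespace Pool.Agent.H32.Low

open Finset Complex Pool.Agent.H32.Nk Filter

lemma Dl_iter_inv (y a : ℝ) (ha : 0 < a) (j : ℕ) :
    Dl^[j] (fun m : ℕ => y / (a + m)) =
      fun m : ℕ => (j.factorial : ℝ) * y / ∏ i ∈ range (j + 1), (a + m + i) := by
  induction j with
  | zero =>
    funext m
    simp
  | succ j ih =>
    rw [Function.iterate_succ_apply', ih]
    funext m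
    unfold Dl
    have hm : (0 : ℝ) ≤ m := Nat.cast_nonneg m
    have hP : 0 < ∏ i ∈ range (j + 1), (a + m + i) := by
      apply prod_pos
      intro i _
      positivity
    have hQ : 0 < ∏ i ∈ range (j + 1), (a + ((m + 1 : ℕ) : ℝ) + i) := by
      apply prod_pos
      intro i _
      positivity
    have h1 : ∏ i ∈ range (j + 1 + 1), (a + m + i) =
        (∏ i ∈ range (j + 1), (a + m + i)) * (a + m + (j + 1 : ℕ)) := prod_range_succ _ _
    have h2 : ∏ i ∈ range (j + 1 + 1), (a + m + i) =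
        (∏ i ∈ range (j + 1), (a + ((m + 1 : ℕ) : ℝ) + i)) * (a + m) := by
      rw [prod_range_succ']
      congr 1
      · refine prod_congr rfl fun i _ => ?_
        push_cast
        ring
      · simp
    have h3 : 0 < a + m := by positivity
    have h4 : 0 < a + m + (j + 1 : ℕ) := by positivity
    have h5 : (∏ i ∈ range (j + 1), (a + ((m + 1 : ℕ) : ℝ) + i)) =
        (∏ i ∈ range (j + 1), (a + m + i)) * (a + m + (j + 1 : ℕ)) / (a + m) := by
      rw [eq_div_iff h3.ne', ← h1, ← h2]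
    show (j.factorial : ℝ) * y / (∏ i ∈ range (j + 1), (a + m + i)) -
      (j.factorial : ℝ) * y / (∏ i ∈ range (j + 1), (a + ((m + 1 : ℕ) : ℝ) + i)) =
      ((j + 1).factorial : ℝ) * y / ∏ i ∈ range (j + 1 + 1), (a + m + i)
    rw [h5, h1, Nat.factorial_succ]
    push_cast
    push_cast at h4
    field_simp
    ring

lemma sum_one_div_le (H : ℕ) (hH : 0 < H) :
    ∑ h ∈ range H, (1 : ℝ) / h ≤ 1 + Real.log H := by
  obtain ⟨n, rfl⟩ : ∃ n, H = n + 1 := ⟨H - 1, by omega⟩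
  rw [sum_range_succ']
  simp only [Nat.cast_zero, div_zero, add_zero]
  have h1 := harmonic_le_one_add_log n
  have h2 : ((harmonic n : ℚ) : ℝ) = ∑ k ∈ range n, (1 : ℝ) / ((k + 1 : ℕ) : ℝ) := by
    unfold harmonic
    push_cast
    refine sum_congr rfl fun i _ => ?_
    rw [one_div]
  rw [h2] at h1
  refine h1.trans ?_
  have : Real.log n ≤ Real.log ((n + 1 : ℕ) : ℝ) := by
    rcases Nat.eq_zero_or_pos n with h | h
    · subst h; simp
    · apply Real.log_le_log (by exact_mod_cast h)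
      push_cast
      linarith
  linarith

lemma eventually_log_pow (K : ℝ) (r : ℕ) (s : ℝ) (hs : 0 < s) :
    ∀ᶠ M : ℕ in atTop, K * (1 + Real.log M) ^ r ≤ (M : ℝ) ^ s := by
  have h1 : (fun x : ℝ => (1 + Real.log x) ^ r) =o[atTop] fun x : ℝ => x ^ s := by
    have h2 : (fun x : ℝ => (1 + Real.log x) ^ r) =O[atTop] fun x : ℝ => Real.log x ^ (r : ℝ) := by
      have h3 : (fun x : ℝ => (1 + Real.log x)) =O[atTop] fun x : ℝ => Real.log x := by
        rw [Asymptotics.isBigO_iff]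
        refine ⟨2, ?_⟩
        filter_upwards [Real.tendsto_log_atTop.eventually_ge_atTop 1] with x hx
        rw [Real.norm_eq_abs, Real.norm_eq_abs, abs_of_nonneg, abs_of_nonneg] <;> linarith
      have h4 := h3.pow r
      simpa [Real.rpow_natCast] using h4
    exact h2.trans_isLittleO (isLittleO_log_rpow_rpow_atTop (r : ℝ) hs)
  have h2 : (fun x : ℝ => K * (1 + Real.log x) ^ r) =o[atTop] fun x : ℝ => x ^ s :=
    h1.const_mul_left K
  have h3 := h2.bound (show (0 : ℝ) < 1 by norm_num)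
  have h4 := tendsto_natCast_atTop_atTop (R := ℝ) |>.eventually h3
  filter_upwards [h4] with M hM
  rw [one_mul, Real.norm_eq_abs, Real.norm_eq_abs] at hM
  have h5 : |(M : ℝ) ^ s| = (M : ℝ) ^ s := abs_of_nonneg (by positivity)
  rw [h5] at hM
  exact (le_abs_self _).trans hM

theorem power_saving (D : ℕ) : ∃ c : ℝ, 0 < c ∧ ∀ᶠ M : ℕ in atTop, ∀ N ≤ M, ∀ y : ℝ,
    (M : ℝ) ^ (5 / 4 : ℝ) ≤ y → y ≤ (M : ℝ) ^ (D + 1) →
    ‖∑ m ∈ range N, E (y / ((M + 1 : ℝ) + m))‖ ≤ (M : ℝ) ^ (1 - c) := by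
  set r : ℕ := D + 2 with hr
  obtain ⟨C, hC1, hC⟩ := vdc_iter r
  have hrpos : (0 : ℝ) < r := by rw [hr]; push_cast; positivity
  have hr1 : (1 : ℝ) ≤ r := by rw [hr]; push_cast; linarith [Nat.cast_nonneg (α := ℝ) D]
  have hq : (0 : ℝ) < 2 ^ r := by positivity
  refine ⟨1 / (8 * r * 2 ^ r), by positivity, ?_⟩
  have ev1 := eventually_log_pow (C * (2 + 6 ^ (r + 2))) r (1 / (8 * r)) (by positivity)
  have ev2 : ∀ᶠ M : ℕ in atTop, (2 : ℝ) ≤ (M : ℝ) ^ (1 / (r : ℝ)) := by
    have h1 : Tendsto (fun x : ℝ => x ^ (1 / (r : ℝ))) atTop atTop :=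
      tendsto_rpow_atTop (by positivity)
    exact tendsto_natCast_atTop_atTop (R := ℝ) |>.eventually (h1.eventually_ge_atTop 2)
  have ev3 : ∀ᶠ M : ℕ in atTop, ((r + 1).factorial : ℝ) * 2 ≤ (M : ℝ) ^ (3 / 4 : ℝ) := by
    have h1 : Tendsto (fun x : ℝ => x ^ (3 / 4 : ℝ)) atTop atTop :=
      tendsto_rpow_atTop (by norm_num)
    exact tendsto_natCast_atTop_atTop (R := ℝ) |>.eventually (h1.eventually_ge_atTop _)
  filter_upwards [ev1, ev2, ev3, eventually_ge_atTop (r + 2)] with M h1 h2 h3 h4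
  intro N hN y hy1 hy2
  have hM1 : (1 : ℝ) ≤ M := by exact_mod_cast (by omega : 1 ≤ M)
  have hM0 : (0 : ℝ) < M := by linarith
  have hy0 : 0 < y := lt_of_lt_of_le (by positivity) hy1
  set t : ℝ := ((M : ℝ) ^ ((r : ℝ) + 5 / 4) / y) ^ (1 / (r : ℝ)) with ht
  have ht0 : 0 < t := by positivity
  have htr : t ^ r = (M : ℝ) ^ ((r : ℝ) + 5 / 4) / y := by
    rw [ht, ← Real.rpow_natCast, ← Real.rpow_mul (by positivity), one_div_mul_cancel hrpos.ne',
      Real.rpow_one]
  have htM : t ≤ M := by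
    apply le_of_pow_le_pow_left₀ (n := r) (by omega) hM0.le
    rw [htr, div_le_iff₀ hy0, ← Real.rpow_natCast, Real.rpow_add hM0]
    gcongr
  have htlow : (M : ℝ) ^ (1 / (r : ℝ)) ≤ t := by
    rw [ht]
    apply Real.rpow_le_rpow hM0.le _ (by positivity)
    rw [le_div_iff₀ hy0]
    calc (M : ℝ) * y ≤ M * (M : ℝ) ^ (D + 1) := by gcongr
      _ = (M : ℝ) ^ ((r : ℕ) : ℝ) := by
          rw [Real.rpow_natCast, hr]
          ring
      _ ≤ _ := Real.rpow_le_rpow_of_exponent_le hM1 (by linarith)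
  have ht2 : 2 ≤ t := h2.trans htlow
  set H : ℕ := ⌊t⌋₊ with hH
  have hHt : (H : ℝ) ≤ t := Nat.floor_le ht0.le
  have hHt2 : t / 2 ≤ H := by
    have := Nat.lt_floor_add_one t
    rw [← hH] at this
    linarith
  have hHpos : 0 < H := by
    have : (0 : ℝ) < H := by linarith
    exact_mod_cast this
  have hHR : (0 : ℝ) < H := by exact_mod_cast hHpos
  have hfacpos : (0 : ℝ) < ((r + 1).factorial : ℝ) := by exact_mod_cast Nat.factorial_pos _
  have hfac1 : (1 : ℝ) ≤ ((r + 1).factorial : ℝ) := by exact_mod_cast Nat.factorial_pos _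
  have hlogM : 0 ≤ Real.log M := Real.log_nonneg hM1
  have hprod_low : ∀ (j : ℕ) (m : ℕ),
      (M : ℝ) ^ j ≤ ∏ i ∈ range j, ((M + 1 : ℝ) + m + i) := by
    intro j m
    calc (M : ℝ) ^ j = ∏ i ∈ range j, (M : ℝ) := by rw [prod_const, card_range]
      _ ≤ _ := by
        apply Finset.prod_le_prod
        · intro i _; exact hM0.le
        · intro i _
          have := Nat.cast_nonneg (α := ℝ) m
          have := Nat.cast_nonneg (α := ℝ) i
          linarith
  have hprod_up : ∀ m < N,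
      ∏ i ∈ range (r + 2), ((M + 1 : ℝ) + m + i) ≤ (3 * M : ℝ) ^ (r + 2) := by
    intro m hm
    calc _ ≤ ∏ i ∈ range (r + 2), (3 * M : ℝ) := by
          apply Finset.prod_le_prod
          · intro i _; positivity
          · intro i hi
            have h5 : i + 1 ≤ M := by have := mem_range.mp hi; omega
            have h6 : m + 1 ≤ M := by omega
            have h7 : (i : ℝ) + 1 ≤ M := by exact_mod_cast h5
            have h8 : (m : ℝ) + 1 ≤ M := by exact_mod_cast h6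
            linarith
      _ = _ := by rw [prod_const, card_range]
  have hprodpos : ∀ (j : ℕ) (m : ℕ), 0 < ∏ i ∈ range j, ((M + 1 : ℝ) + m + i) := by
    intro j m
    apply prod_pos
    intro i _
    positivity
  have main := hC (fun m : ℕ => y / ((M + 1 : ℝ) + m)) N H
    (((r + 1).factorial : ℝ) * y / (3 * M) ^ (r + 2))
    (((r + 1).factorial : ℝ) * y / M ^ (r + 2)) M (1 + Real.log M) hHpos
    (by exact_mod_cast hN) (hHt.trans htM) (by positivity) (by positivity) (by linarith)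
    ?_ ?_ ?_ ?_ ?_
  rotate_left
  · refine (sum_one_div_le H hHpos).trans ?_
    have := Real.log_le_log hHR (hHt.trans htM)
    linarith
  · intro m hm
    rw [Dl_iter_inv _ _ (by positivity)]
    apply div_le_div_of_nonneg_left (by positivity) (hprodpos _ _)
    exact hprod_up m hm
  · intro m hm
    rw [Dl_iter_inv _ _ (by positivity)]
    apply div_le_div_of_nonneg_left (by positivity) (by positivity)
    exact hprod_low _ _
  · intro m hm
    rw [Dl_iter_inv _ _ (by positivity)]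
    exact div_nonneg (by positivity) (hprodpos _ _).le
  · have h5 : (H : ℝ) ^ r ≤ (M : ℝ) ^ ((r : ℝ) + 5 / 4) / y := by
      rw [← htr]
      exact pow_le_pow_left₀ hHR.le hHt r
    calc ((r + 1).factorial : ℝ) * y / M ^ (r + 2) * H ^ r
        ≤ ((r + 1).factorial : ℝ) * y / M ^ (r + 2) * ((M : ℝ) ^ ((r : ℝ) + 5 / 4) / y) := by
          gcongr
      _ = ((r + 1).factorial : ℝ) / (M : ℝ) ^ (3 / 4 : ℝ) := by
          have h6 : (M : ℝ) ^ (r + 2) = (M : ℝ) ^ ((r : ℝ) + 5 / 4) * (M : ℝ) ^ (3 / 4 : ℝ) := by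
            rw [← Real.rpow_add hM0, ← Real.rpow_natCast]
            congr 1
            push_cast
            ring
          rw [h6]
          field_simp
      _ ≤ 1 / 2 := by
          rw [div_le_div_iff₀ (by positivity) (by norm_num)]
          linarith
  -- final computation
  set S := ‖∑ m ∈ range N, E (y / ((M + 1 : ℝ) + m))‖ with hS
  have hb1 : 1 / (H : ℝ) ≤ 2 * (M : ℝ) ^ (-(1 / (4 * r) : ℝ)) := by
    have h5 : 1 / (H : ℝ) ≤ 2 / t := by
      rw [div_le_div_iff₀ hHR ht0]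
      linarith
    refine h5.trans ?_
    rw [Real.rpow_neg hM0.le, ← div_eq_mul_inv]
    apply div_le_div_of_nonneg_left (by norm_num) (by positivity)
    refine le_trans ?_ htlow
    apply Real.rpow_le_rpow_of_exponent_le hM1
    apply one_div_le_one_div_of_le hrpos
    linarith
  have hb2 : 1 / (((r + 1).factorial : ℝ) * y / (3 * M) ^ (r + 2) * M * H ^ r) ≤
      6 ^ (r + 2) * (M : ℝ) ^ (-(1 / (4 * r) : ℝ)) := by
    have h5 : (M : ℝ) ^ ((r : ℝ) + 5 / 4) / y / 2 ^ r ≤ (H : ℝ) ^ r := by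
      rw [← htr, ← div_pow]
      exact pow_le_pow_left₀ (by positivity) hHt2 r
    have h6 : 1 / (((r + 1).factorial : ℝ) * y / (3 * M) ^ (r + 2) * M * H ^ r) ≤
        1 / (1 * y / (3 * M) ^ (r + 2) * M * ((M : ℝ) ^ ((r : ℝ) + 5 / 4) / y / 2 ^ r)) := by
      apply one_div_le_one_div_of_le (by positivity)
      gcongr
    refine h6.trans ?_
    have h7 : 1 / (1 * y / (3 * M) ^ (r + 2) * M * ((M : ℝ) ^ ((r : ℝ) + 5 / 4) / y / 2 ^ r)) =
        3 ^ (r + 2) * 2 ^ r * (M : ℝ) ^ (-(1 / 4) : ℝ) := by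
      have h8 : (M : ℝ) ^ ((r : ℝ) + 5 / 4) = (M : ℝ) ^ (r + 1) * (M : ℝ) ^ (1 / 4 : ℝ) := by
        rw [← Real.rpow_natCast, ← Real.rpow_add hM0]
        congr 1
        push_cast
        ring
      rw [h8, Real.rpow_neg hM0.le, mul_pow]
      field_simp
      ring
    rw [h7]
    have h8 : (3 : ℝ) ^ (r + 2) * 2 ^ r ≤ 6 ^ (r + 2) := by
      calc (3 : ℝ) ^ (r + 2) * 2 ^ r ≤ 3 ^ (r + 2) * 2 ^ (r + 2) := by
            gcongr
            · norm_num
            · omega
        _ = 6 ^ (r + 2) := by rw [← mul_pow]; norm_num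
    have h9 : (M : ℝ) ^ (-(1 / 4) : ℝ) ≤ (M : ℝ) ^ (-(1 / (4 * r) : ℝ)) := by
      apply Real.rpow_le_rpow_of_exponent_le hM1
      rw [neg_le_neg_iff]
      apply one_div_le_one_div_of_le (by norm_num)
      linarith
    gcongr
  have hl1 : (1 : ℝ) ≤ (1 + Real.log M) ^ r := one_le_pow₀ (by linarith)
  have hfin : S ^ (2 ^ r) ≤ (M : ℝ) ^ (2 ^ r) * (M : ℝ) ^ (-(1 / (8 * r)) : ℝ) := by
    refine main.trans ?_
    have h5 : 1 / (H : ℝ) + (1 + Real.log M) ^ r /
        (((r + 1).factorial : ℝ) * y / (3 * M) ^ (r + 2) * M * H ^ r) ≤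
        (2 + 6 ^ (r + 2)) * (1 + Real.log M) ^ r * (M : ℝ) ^ (-(1 / (4 * r) : ℝ)) := by
      have h6 : (1 + Real.log M) ^ r /
        (((r + 1).factorial : ℝ) * y / (3 * M) ^ (r + 2) * M * H ^ r) ≤
        (1 + Real.log M) ^ r * (6 ^ (r + 2) * (M : ℝ) ^ (-(1 / (4 * r) : ℝ))) := by
        rw [div_eq_mul_one_div]
        gcongr
      have h7 : 1 / (H : ℝ) ≤ (1 + Real.log M) ^ r * (2 * (M : ℝ) ^ (-(1 / (4 * r) : ℝ))) := by
        refine hb1.trans ?_
        have : 0 ≤ 2 * (M : ℝ) ^ (-(1 / (4 * r) : ℝ)) := by positivity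
        nlinarith
      calc _ ≤ (1 + Real.log M) ^ r * (2 * (M : ℝ) ^ (-(1 / (4 * r) : ℝ))) +
            (1 + Real.log M) ^ r * (6 ^ (r + 2) * (M : ℝ) ^ (-(1 / (4 * r) : ℝ))) :=
            add_le_add h7 h6
        _ = _ := by ring
    calc _ ≤ C * (M : ℝ) ^ (2 ^ r) *
          ((2 + 6 ^ (r + 2)) * (1 + Real.log M) ^ r * (M : ℝ) ^ (-(1 / (4 * r) : ℝ))) := by gcongr
      _ = (M : ℝ) ^ (2 ^ r) * ((C * (2 + 6 ^ (r + 2)) * (1 + Real.log M) ^ r) *
            (M : ℝ) ^ (-(1 / (4 * r) : ℝ))) := by ring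
      _ ≤ (M : ℝ) ^ (2 ^ r) * ((M : ℝ) ^ (1 / (8 * r) : ℝ) *
            (M : ℝ) ^ (-(1 / (4 * r) : ℝ))) := by gcongr
      _ = _ := by
          rw [← Real.rpow_add hM0]
          congr 2
          field_simp
          ring
  apply le_of_pow_le_pow_left₀ (n := 2 ^ r) (by positivity) (by positivity)
  refine hfin.trans (le_of_eq ?_)
  rw [← Real.rpow_natCast, ← Real.rpow_add hM0, ← Real.rpow_natCast, ← Real.rpow_mul hM0.le]
  congr 1
  push_cast
  field_simp
  ring

end Pool.Agent.H32.Low
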