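import Mathlib
import Pool.Agent.H32.Low.Mult
import Pool.Agent.H32.Low.Dist
import Pool.Agent.H32.Low.Saving

/-!
Distribution of `n / x` modulo one over `x ∈ (k, K]`, `d ∣ x`.
-/

namespace Pool.Agent.H32.Low

open Finset Complex Pool.Agent.H32.Nk Filter

/-- right end point -/
noncomputable def KR (H k : ℕ) : ℕ := ⌊(1 + 1 / (16 * (H : ℝ))) * k⌋₊

lemma KR_le (H k : ℕ) (hH : 0 < H) : (KR H k : ℝ) ≤ k + k / (16 * H) := by
  have hHR : (0 : ℝ) < H := by exact_mod_cast hH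
  have := Nat.floor_le (show 0 ≤ (1 + 1 / (16 * (H : ℝ))) * k by positivity)
  unfold KR
  refine this.trans (le_of_eq ?_)
  field_simp

lemma le_KR (H k : ℕ) : k ≤ KR H k := by
  unfold KR
  apply Nat.le_floor
  have h1 : 0 ≤ 1 / (16 * (H : ℝ)) * k := by positivity
  nlinarith

lemma card_mult (d k K : ℕ) (hd : 0 < d) (hkK : k ≤ K) :
    |((Ioc (k / d) (K / d)).card : ℝ) - ((K : ℝ) - k) / d| ≤ 1 := by
  have hab : k / d ≤ K / d := Nat.div_le_div_right hkK
  rw [Nat.card_Ioc, Nat.cast_sub hab]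
  have hdR : (0 : ℝ) < d := by exact_mod_cast hd
  have ha1 : d * (k / d) ≤ k := Nat.mul_div_le k d
  have ha2 : k < d * (k / d + 1) := Nat.lt_mul_div_succ k hd
  have hb1 : d * (K / d) ≤ K := Nat.mul_div_le K d
  have hb2 : K < d * (K / d + 1) := Nat.lt_mul_div_succ K hd
  have ha1' : (d : ℝ) * (k / d : ℕ) ≤ k := by exact_mod_cast ha1
  have ha2' : (k : ℝ) < d * ((k / d : ℕ) + 1) := by exact_mod_cast ha2
  have hb1' : (d : ℝ) * (K / d : ℕ) ≤ K := by exact_mod_cast hb1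
  have hb2' : (K : ℝ) < d * ((K / d : ℕ) + 1) := by exact_mod_cast hb2
  rw [abs_le]
  constructor
  · rw [← sub_nonneg]
    have : 0 ≤ d * (((K / d : ℕ) : ℝ) - (k / d : ℕ) - ((K : ℝ) - k) / d - -1) := by
      have e : d * (((K / d : ℕ) : ℝ) - (k / d : ℕ) - ((K : ℝ) - k) / d - -1) =
        d * (K / d : ℕ) - d * (k / d : ℕ) - (K - k) + d := by
        field_simp
        ring
      rw [e]
      linarith
    exact nonneg_of_mul_nonneg_right this hdR
  · rw [← sub_nonneg]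
    have : 0 ≤ d * (1 - (((K / d : ℕ) : ℝ) - (k / d : ℕ) - ((K : ℝ) - k) / d)) := by
      have e : d * (1 - (((K / d : ℕ) : ℝ) - (k / d : ℕ) - ((K : ℝ) - k) / d)) =
        d - (d * (K / d : ℕ) - d * (k / d : ℕ) - (K - k)) := by
        field_simp
      rw [e]
      linarith
    exact nonneg_of_mul_nonneg_right this hdR

/-- exponential sum over multiples of `d`, rewritten -/
lemma expsum_mult (n j d a b : ℕ) (hab : a ≤ b) (hd : 0 < d) :
    ∑ m ∈ Ioc a b, E (j * ((n : ℝ) / ((d * m : ℕ) : ℝ))) =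
      ∑ i ∈ range (b - a), E (((j : ℝ) * n / d) / ((a + 1 : ℝ) + i)) := by
  have h : Ioc a b = Ico (a + 1) (b + 1) := by
    ext x
    rw [mem_Ioc, mem_Ico]
    omega
  rw [h, sum_Ico_eq_sum_range]
  have h2 : b + 1 - (a + 1) = b - a := by omega
  rw [h2]
  refine sum_congr rfl fun i _ => ?_
  congr 1
  have hdR : (0 : ℝ) < d := by exact_mod_cast hd
  push_cast
  have : (a : ℝ) + 1 + i ≠ 0 := by positivity
  field_simp

/-- Regime of large `n`. -/
theorem regime1 (D : ℕ) : ∃ c η : ℝ, 0 < c ∧ c ≤ 1 ∧ 0 < η ∧ η ≤ 1 / 16 ∧ ∀ H : ℕ, 0 < H →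
    ∀ᶠ k : ℕ in atTop, ∀ n d : ℕ, (k : ℝ) ^ (3 / 2 : ℝ) ≤ n → (n : ℝ) ≤ (k : ℝ) ^ D →
    0 < d → (d : ℝ) ≤ (k : ℝ) ^ (2 * η) →
    |∑ x ∈ (Ioc k (KR H k)).filter (fun x => d ∣ x), FF H ((n : ℝ) / x) -
      (((KR H k : ℝ) - k) / H) / d| ≤ 1 + 2 * (k : ℝ) ^ (1 - c) := by
  obtain ⟨c0, hc0, hps⟩ := power_saving D
  set η : ℝ := 1 / (16 * (D + 1)) with hη
  have hD1 : (0 : ℝ) < (D : ℝ) + 1 := by positivity
  have hη0 : 0 < η := by positivity
  have hη1 : η ≤ 1 / 16 := by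
    rw [hη]
    apply one_div_le_one_div_of_le (by norm_num)
    have : (0 : ℝ) ≤ D := Nat.cast_nonneg D
    linarith
  have hηD : η * (D + 1) = 1 / 16 := by
    rw [hη]
    field_simp
  refine ⟨min c0 1, η, lt_min hc0 one_pos, min_le_right _ _, hη0, hη1, ?_⟩
  intro H hH
  have hHR : (0 : ℝ) < H := by exact_mod_cast hH
  rw [eventually_atTop] at hps
  obtain ⟨M0, hM0⟩ := hps
  have t1 : Tendsto (fun x : ℝ => x ^ (3 / 4 : ℝ)) atTop atTop := tendsto_rpow_atTop (by norm_num)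
  have ev1 : ∀ᶠ k : ℕ in atTop, 2 * (M0 : ℝ) + 8 ≤ (k : ℝ) ^ (3 / 4 : ℝ) :=
    tendsto_natCast_atTop_atTop (R := ℝ) |>.eventually (t1.eventually_ge_atTop _)
  have ev2 : ∀ᶠ k : ℕ in atTop, (H : ℝ) * 2 ^ (D + 1) ≤ (k : ℝ) ^ (3 / 4 : ℝ) :=
    tendsto_natCast_atTop_atTop (R := ℝ) |>.eventually (t1.eventually_ge_atTop _)
  filter_upwards [ev1, ev2, eventually_ge_atTop 1] with k h1 h2 hk1 n d hn1 hn2 hd hd2
  have hkR : (1 : ℝ) ≤ k := by exact_mod_cast hk1
  have hk0 : (0 : ℝ) < k := by linarith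
  have hdR : (0 : ℝ) < d := by exact_mod_cast hd
  have hd1 : (1 : ℝ) ≤ d := by exact_mod_cast hd
  set K := KR H k with hK
  have hkK : k ≤ K := le_KR H k
  set M := k / d with hM
  -- size of M
  have hkd : (k : ℝ) ^ (1 - 2 * η) ≤ k / d := by
    rw [Real.rpow_sub hk0, Real.rpow_one]
    exact div_le_div_of_nonneg_left hk0.le hdR hd2
  have hkd34 : (k : ℝ) ^ (3 / 4 : ℝ) ≤ k / d := by
    refine le_trans ?_ hkd
    apply Real.rpow_le_rpow_of_exponent_le hkR
    linarith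
  have hMlow : (k : ℝ) / d / 2 ≤ M := by
    have h3 : (k : ℝ) / d < M + 1 := by
      rw [hM]
      rw [div_lt_iff₀ hdR]
      have := Nat.lt_mul_div_succ k hd
      have h4 : (k : ℝ) < ((d * (k / d + 1) : ℕ) : ℝ) := by exact_mod_cast this
      push_cast at h4
      linarith
    have h5 : 8 ≤ (k : ℝ) / d := by
      have : (0 : ℝ) ≤ M0 := Nat.cast_nonneg M0
      linarith
    linarith
  have hMk : (M : ℝ) ≤ k := by
    have : M ≤ k := Nat.div_le_self k d
    exact_mod_cast this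
  have hM0' : M0 ≤ M := by
    have : (M0 : ℝ) ≤ M := by linarith
    exact_mod_cast this
  have hM1 : (1 : ℝ) ≤ M := by
    have : (0 : ℝ) ≤ M0 := Nat.cast_nonneg M0
    linarith
  have hMpos : (0 : ℝ) < M := by linarith
  have hab : M ≤ K / d := Nat.div_le_div_right hkK
  -- number of terms
  have hNM : K / d - M ≤ M := by
    have h3 := card_mult d k K hd hkK
    rw [Nat.card_Ioc] at h3
    have h4 := (abs_le.mp h3).2
    have h5 : ((K : ℝ) - k) / d ≤ (k : ℝ) / d / 16 := by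
      rw [div_div, div_le_div_iff₀ hdR (by positivity)]
      have h6 := KR_le H k hH
      have h7 : (k : ℝ) / (16 * H) ≤ k / 16 := by
        apply div_le_div_of_nonneg_left hk0.le (by norm_num)
        have : (1 : ℝ) ≤ H := by exact_mod_cast hH
        linarith
      have h8 : (K : ℝ) - k ≤ k / 16 := by linarith
      nlinarith
    have h6 : ((K / d - M : ℕ) : ℝ) ≤ M := by
      have h7 : 8 ≤ (k : ℝ) / d := by
        have : (0 : ℝ) ≤ M0 := Nat.cast_nonneg M0
        linarith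
      linarith
    exact_mod_cast h6
  -- bound for individual exponential sums
  have hexp : ∀ j ∈ Ico 1 H, ‖∑ m ∈ Ioc M (K / d), E (j * ((n : ℝ) / ((d * m : ℕ) : ℝ)))‖ ≤
      (k : ℝ) ^ (1 - min c0 1) := by
    intro j hj
    obtain ⟨hj1, hj2⟩ := mem_Ico.mp hj
    have hj1' : (1 : ℝ) ≤ j := by exact_mod_cast hj1
    have hj2' : (j : ℝ) ≤ H := by exact_mod_cast hj2.le
    rw [expsum_mult n j d M (K / d) hab hd]
    have hn0 : (0 : ℝ) ≤ n := Nat.cast_nonneg n
    have h3 := hM0 M hM0' (K / d - M) hNM ((j : ℝ) * n / d) ?_ ?_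
    · refine h3.trans ?_
      calc (M : ℝ) ^ (1 - c0) ≤ (M : ℝ) ^ (1 - min c0 1) := by
            apply Real.rpow_le_rpow_of_exponent_le hM1
            linarith [min_le_left c0 1]
        _ ≤ (k : ℝ) ^ (1 - min c0 1) := by
            apply Real.rpow_le_rpow hMpos.le hMk
            linarith [min_le_right c0 1]
    · -- lower bound for y
      have h4 : (k : ℝ) ^ (5 / 4 : ℝ) ≤ n / d := by
        rw [le_div_iff₀ hdR]
        calc (k : ℝ) ^ (5 / 4 : ℝ) * d ≤ (k : ℝ) ^ (5 / 4 : ℝ) * (k : ℝ) ^ (2 * η) := by gcongr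
          _ = (k : ℝ) ^ (5 / 4 + 2 * η : ℝ) := by rw [Real.rpow_add hk0]
          _ ≤ (k : ℝ) ^ (3 / 2 : ℝ) := by
              apply Real.rpow_le_rpow_of_exponent_le hkR
              linarith
          _ ≤ n := hn1
      calc (M : ℝ) ^ (5 / 4 : ℝ) ≤ (k : ℝ) ^ (5 / 4 : ℝ) :=
            Real.rpow_le_rpow hMpos.le hMk (by norm_num)
        _ ≤ n / d := h4
        _ ≤ (j : ℝ) * n / d := by
            apply div_le_div_of_nonneg_right _ hdR.le
            nlinarith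
    · -- upper bound for y
      have h4 : (j : ℝ) * n / d ≤ H * (k : ℝ) ^ D := by
        calc (j : ℝ) * n / d ≤ (j : ℝ) * n := div_le_self (by positivity) hd1
          _ ≤ H * (k : ℝ) ^ D := by gcongr
      refine h4.trans ?_
      have h5 : ((k : ℝ) ^ (1 - 2 * η)) ^ (D + 1) = (k : ℝ) ^ D * (k : ℝ) ^ (7 / 8 : ℝ) := by
        rw [← Real.rpow_natCast, ← Real.rpow_mul hk0.le, ← Real.rpow_natCast (k : ℝ) D,
          ← Real.rpow_add hk0]
        congr 1
        push_cast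
        linear_combination (-2) * hηD
      have h6 : (k : ℝ) ^ (1 - 2 * η) / 2 ≤ M := by linarith
      calc (H : ℝ) * (k : ℝ) ^ D = (H * 2 ^ (D + 1)) * (k : ℝ) ^ D / 2 ^ (D + 1) := by
            field_simp
        _ ≤ (k : ℝ) ^ (7 / 8 : ℝ) * (k : ℝ) ^ D / 2 ^ (D + 1) := by
            have h7 : (k : ℝ) ^ (3 / 4 : ℝ) ≤ (k : ℝ) ^ (7 / 8 : ℝ) :=
              Real.rpow_le_rpow_of_exponent_le hkR (by norm_num)
            have h8 := h2.trans h7
            gcongr
        _ = ((k : ℝ) ^ (1 - 2 * η) / 2) ^ (D + 1) := by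
            rw [div_pow, h5, mul_comm ((k : ℝ) ^ D)]
        _ ≤ (M : ℝ) ^ (D + 1) := pow_le_pow_left₀ (by positivity) h6 _
  have hFS := FF_sum H hH (Ioc M (K / d)) (fun m => (n : ℝ) / ((d * m : ℕ) : ℝ))
  have hsumexp : 2 / (H : ℝ) * ∑ j ∈ Ico 1 H,
      ‖∑ m ∈ Ioc M (K / d), E (j * ((n : ℝ) / ((d * m : ℕ) : ℝ)))‖ ≤
      2 * (k : ℝ) ^ (1 - min c0 1) := by
    calc _ ≤ 2 / (H : ℝ) * ∑ j ∈ Ico 1 H, (k : ℝ) ^ (1 - min c0 1) := by
          apply mul_le_mul_of_nonneg_left (sum_le_sum hexp) (by positivity)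
      _ = 2 / (H : ℝ) * (((H - 1 : ℕ) : ℝ) * (k : ℝ) ^ (1 - min c0 1)) := by
          rw [sum_const, Nat.card_Ico, nsmul_eq_mul]
      _ ≤ 2 / (H : ℝ) * ((H : ℝ) * (k : ℝ) ^ (1 - min c0 1)) := by
          have : ((H - 1 : ℕ) : ℝ) ≤ H := by exact_mod_cast Nat.sub_le H 1
          gcongr
      _ = _ := by field_simp
  rw [sum_mult (fun x => FF H ((n : ℝ) / x)) d k K hd]
  have hcard := card_mult d k K hd hkK
  have hcard2 : |((Ioc M (K / d)).card : ℝ) / H - ((K : ℝ) - k) / H / d| ≤ 1 := by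
    have e : ((Ioc M (K / d)).card : ℝ) / H - ((K : ℝ) - k) / H / d =
        (((Ioc M (K / d)).card : ℝ) - ((K : ℝ) - k) / d) / H := by
      field_simp
    rw [e, abs_div, abs_of_pos hHR, div_le_one hHR]
    exact hcard.trans (by exact_mod_cast hH)
  have h9 := (hFS.trans hsumexp)
  calc _ = |(∑ m ∈ Ioc M (K / d), FF H ((n : ℝ) / ((d * m : ℕ) : ℝ)) -
        ((Ioc M (K / d)).card : ℝ) / H) +
        (((Ioc M (K / d)).card : ℝ) / H - ((K : ℝ) - k) / H / d)| := by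
        congr 1
        ring
    _ ≤ _ := (abs_add_le _ _).trans (by linarith)

/-- Regime of small `n`. -/
theorem regime2 (H : ℕ) (hH : 0 < H) :
    ∀ᶠ k : ℕ in atTop, ∀ n : ℕ, (16 * (H : ℝ)) ^ 2 * k ≤ n → (n : ℝ) ≤ (k : ℝ) ^ (3 / 2 : ℝ) →
    (∑ x ∈ Ioc k (KR H k), FF H ((n : ℝ) / x) ≤ k / (8 * H ^ 2)) ∧
    ∀ d : ℕ, 0 < d → (d : ℝ) ≤ k / 2 →
    |∑ x ∈ (Ioc k (KR H k)).filter (fun x => d ∣ x), FF H ((n : ℝ) / x) -
      (∑ x ∈ Ioc k (KR H k), FF H ((n : ℝ) / x)) / d| ≤ 2 + 13 * H * (k : ℝ) ^ (1 / 2 : ℝ) := by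
  have hHR : (0 : ℝ) < H := by exact_mod_cast hH
  have hH1 : (1 : ℝ) ≤ H := by exact_mod_cast hH
  have t1 : Tendsto (fun x : ℝ => x ^ (1 / 2 : ℝ)) atTop atTop := tendsto_rpow_atTop (by norm_num)
  have ev1 : ∀ᶠ k : ℕ in atTop, 2 * (H : ℝ) ≤ (k : ℝ) ^ (1 / 2 : ℝ) :=
    tendsto_natCast_atTop_atTop (R := ℝ) |>.eventually (t1.eventually_ge_atTop _)
  filter_upwards [ev1, eventually_ge_atTop 8] with k h1 hk8 n hn1 hn2
  have hk8' : (8 : ℝ) ≤ k := by exact_mod_cast hk8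
  have hk0 : (0 : ℝ) < k := by linarith
  set K := KR H k with hK
  have hkK : k ≤ K := le_KR H k
  have hKup := KR_le H k hH
  rw [← hK] at hKup
  have hKk : (k : ℝ) / (16 * H) ≤ k / 16 := by
    apply div_le_div_of_nonneg_left hk0.le (by norm_num)
    linarith
  have hn0 : (0 : ℝ) < n := lt_of_lt_of_le (by positivity) hn1
  have hk32 : (k : ℝ) ^ (3 / 2 : ℝ) * (k : ℝ) ^ (1 / 2 : ℝ) = (k : ℝ) ^ 2 := by
    rw [← Real.rpow_add hk0, ← Real.rpow_natCast]
    norm_num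
  constructor
  · -- total sum
    have hFS := FF_sum H hH (Ioc k K) (fun x => (n : ℝ) / x)
    have hexp : ∀ j ∈ Ico 1 H, ‖∑ x ∈ Ioc k K, E (j * ((n : ℝ) / x))‖ ≤ k / (64 * H ^ 2) := by
      intro j hj
      obtain ⟨hj1, hj2⟩ := mem_Ico.mp hj
      have hj1' : (1 : ℝ) ≤ j := by exact_mod_cast hj1
      have hj2' : (j : ℝ) ≤ H := by exact_mod_cast hj2.le
      have h3 := expsum_mult n j 1 k K hkK one_pos
      simp only [one_mul, Nat.cast_one, div_one] at h3
      rw [h3]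
      set y : ℝ := (j : ℝ) * n with hy
      have hy0 : 0 < y := by positivity
      have hDl : ∀ m : ℕ, Dl (fun i : ℕ => y / ((k + 1 : ℝ) + i)) m =
          y / (((k + 1 : ℝ) + m) * ((k + 1 : ℝ) + m + 1)) := by
        intro m
        unfold Dl
        have a1 : (0 : ℝ) < (k : ℝ) + 1 + m := by positivity
        push_cast
        have a2 : (0 : ℝ) < (k : ℝ) + 1 + (m + 1) := by positivity
        field_simp
        ring
      have hKL := kusmin_landau (fun i : ℕ => y / ((k + 1 : ℝ) + i)) (K - k)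
        (A := y / (4 * k ^ 2)) (by positivity) ?_ ?_ ?_
      · refine hKL.trans ?_
        rw [one_div_div, div_le_div_iff₀ hy0 (by positivity)]
        have h4 : (16 * (H : ℝ)) ^ 2 * k ≤ y := by
          rw [hy]
          nlinarith
        nlinarith
      · intro m hm
        rw [hDl]
        apply div_le_div_of_nonneg_left hy0.le (by positivity)
        have hm' : (m : ℝ) + 1 ≤ K - k := by
          have : m + 1 ≤ K - k := hm
          have h5 : ((m + 1 : ℕ) : ℝ) ≤ ((K - k : ℕ) : ℝ) := by exact_mod_cast this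
          rw [Nat.cast_sub hkK] at h5
          push_cast at h5
          exact h5
        have h6 : (k : ℝ) + 1 + m ≤ 2 * k := by linarith
        have h7 : (k : ℝ) + 1 + m + 1 ≤ 2 * k := by linarith
        calc ((k : ℝ) + 1 + m) * ((k : ℝ) + 1 + m + 1) ≤ (2 * k) * (2 * k) := by gcongr
          _ = _ := by ring
      · intro m _
        rw [hDl]
        have h4 : y / (((k + 1 : ℝ) + m) * ((k + 1 : ℝ) + m + 1)) ≤ y / (k ^ 2) := by
          apply div_le_div_of_nonneg_left hy0.le (by positivity)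
          have : (0 : ℝ) ≤ m := Nat.cast_nonneg m
          nlinarith
        refine h4.trans ?_
        rw [div_le_div_iff₀ (by positivity) (by norm_num)]
        have h5 : y ≤ H * (k : ℝ) ^ (3 / 2 : ℝ) := by
          rw [hy]
          gcongr
        calc y * 2 ≤ (H * (k : ℝ) ^ (3 / 2 : ℝ)) * 2 := by gcongr
          _ = (k : ℝ) ^ (3 / 2 : ℝ) * (2 * H) := by ring
          _ ≤ (k : ℝ) ^ (3 / 2 : ℝ) * (k : ℝ) ^ (1 / 2 : ℝ) := by gcongr
          _ = 1 * k ^ 2 := by rw [hk32, one_mul]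
      · intro m _
        have e : Dl (Dl (fun i : ℕ => y / ((k + 1 : ℝ) + i))) m =
          Dl (fun i : ℕ => y / ((k + 1 : ℝ) + i)) m -
          Dl (fun i : ℕ => y / ((k + 1 : ℝ) + i)) (m + 1) := rfl
        rw [e, hDl, hDl, sub_nonneg]
        apply div_le_div_of_nonneg_left hy0.le (by positivity)
        push_cast
        have : (0 : ℝ) ≤ m := Nat.cast_nonneg m
        nlinarith
    have hsumexp : 2 / (H : ℝ) * ∑ j ∈ Ico 1 H, ‖∑ x ∈ Ioc k K, E (j * ((n : ℝ) / x))‖ ≤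
        k / (32 * H ^ 2) := by
      calc _ ≤ 2 / (H : ℝ) * ∑ j ∈ Ico 1 H, (k / (64 * H ^ 2) : ℝ) := by
            apply mul_le_mul_of_nonneg_left (sum_le_sum hexp) (by positivity)
        _ = 2 / (H : ℝ) * (((H - 1 : ℕ) : ℝ) * (k / (64 * H ^ 2) : ℝ)) := by
            rw [sum_const, Nat.card_Ico, nsmul_eq_mul]
        _ ≤ 2 / (H : ℝ) * ((H : ℝ) * (k / (64 * H ^ 2) : ℝ)) := by
            have : ((H - 1 : ℕ) : ℝ) ≤ H := by exact_mod_cast Nat.sub_le H 1
            gcongr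
        _ = _ := by
            field_simp
            ring
    have h2 := (abs_le.mp (hFS.trans hsumexp)).2
    have h3 : ((Ioc k K).card : ℝ) / H ≤ k / (16 * H ^ 2) := by
      rw [Nat.card_Ioc, Nat.cast_sub hkK, div_le_div_iff₀ hHR (by positivity)]
      have h4 : (K : ℝ) - k ≤ k / (16 * H) := by linarith
      calc ((K : ℝ) - k) * (16 * H ^ 2) ≤ (k / (16 * H)) * (16 * H ^ 2) := by gcongr
        _ = _ := by field_simp
    have h4 : (k : ℝ) / (16 * H ^ 2) + k / (32 * H ^ 2) ≤ k / (8 * H ^ 2) := by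
      have e : (k : ℝ) / (8 * H ^ 2) = k / (16 * H ^ 2) + k / (16 * H ^ 2) := by
        field_simp
        ring
      have e2 : (k : ℝ) / (32 * H ^ 2) ≤ k / (16 * H ^ 2) := by
        apply div_le_div_of_nonneg_left hk0.le (by positivity)
        nlinarith [sq_nonneg (H : ℝ)]
      linarith
    linarith
  · intro d hd hd2
    have hpi := Real.pi_pos
    have hpi2 := Real.pi_lt_d2
    set l : ℝ := 4 * Real.pi * H * (n / k ^ 2) with hl
    have hl0 : 0 ≤ l := by positivity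
    have h3 := comb (fun x => FF H ((n : ℝ) / x)) (fun x => FF_nonneg H _)
      (fun x => FF_le_one H hH _) k K d hd hkK l hl0 ?_
    · refine h3.trans ?_
      have h4 : l ≤ 13 * H * ((k : ℝ) ^ (3 / 2 : ℝ) / k ^ 2) := by
        rw [hl]
        have h5 : (n : ℝ) / k ^ 2 ≤ (k : ℝ) ^ (3 / 2 : ℝ) / k ^ 2 := by gcongr
        have h6 : 4 * Real.pi * H ≤ 13 * H := by nlinarith
        gcongr
      have h5 : (K : ℝ) - k + d ≤ k := by linarith
      have h6 : 0 ≤ (K : ℝ) - k + d := by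
        have : (k : ℝ) ≤ K := by exact_mod_cast hkK
        positivity
      calc 2 + l * ((K : ℝ) - k + d) ≤ 2 + (13 * H * ((k : ℝ) ^ (3 / 2 : ℝ) / k ^ 2)) * k := by
            gcongr
        _ = 2 + 13 * H * (k : ℝ) ^ (1 / 2 : ℝ) := by
            have h7 : (k : ℝ) ^ (3 / 2 : ℝ) = k * (k : ℝ) ^ (1 / 2 : ℝ) := by
              have : (k : ℝ) * (k : ℝ) ^ (1 / 2 : ℝ) = (k : ℝ) ^ (1 : ℝ) * (k : ℝ) ^ (1 / 2 : ℝ) := by
                rw [Real.rpow_one]
              rw [this, ← Real.rpow_add hk0]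
              norm_num
            rw [h7]
            field_simp
    · intro x y hx hxy
      refine (FF_lip H hH _ _).trans ?_
      have hxR : (k : ℝ) ≤ x := by exact_mod_cast hx
      have hyR : (x : ℝ) ≤ y := by exact_mod_cast hxy
      have hx0 : (0 : ℝ) < x := by linarith
      have hy0 : (0 : ℝ) < y := by linarith
      have e : (n : ℝ) / x - n / y = n * (y - x) / (x * y) := by
        field_simp
      have h4 : |(n : ℝ) / x - n / y| ≤ n / k ^ 2 * ((y : ℝ) - x) := by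
        rw [e, abs_of_nonneg (div_nonneg (mul_nonneg hn0.le (by linarith)) (by positivity))]
        rw [div_mul_eq_mul_div]
        apply div_le_div_of_nonneg_left (mul_nonneg hn0.le (by linarith)) (by positivity)
        rw [sq]
        exact mul_le_mul hxR (by linarith) hk0.le hx0.le
      calc 4 * Real.pi * H * |(n : ℝ) / x - n / y| ≤
            4 * Real.pi * H * (n / k ^ 2 * ((y : ℝ) - x)) := by gcongr
        _ = l * ((y : ℝ) - x) := by rw [hl]; ring

end Pool.Agent.H32.Low
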