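import Mathlib

/-!
Selberg's upper bound sieve for primes (weighted version).
-/

namespace Pool.Agent.H32.Low

open Finset

open ArithmeticFunction in
/-- weight `μ(n)²/φ(n)` -/
noncomputable def sw (n : ℕ) : ℝ := ((moebius n : ℤ) : ℝ) ^ 2 / (n.totient : ℝ)

/-- `V = ∑_{m ≤ z} μ²(m)/φ(m)` -/
noncomputable def SV (z : ℕ) : ℝ := ∑ m ∈ Icc 1 z, sw m

open ArithmeticFunction in
/-- Selberg weights -/
noncomputable def lam (z d : ℕ) : ℝ :=
  (d : ℝ) * ((moebius d : ℤ) : ℝ) / SV z * ∑ m ∈ (Icc 1 z).filter (fun m => d ∣ m), sw m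

lemma sw_nonneg (n : ℕ) : 0 ≤ sw n := by unfold sw; positivity

lemma sw_one : sw 1 = 1 := by simp [sw]

lemma SV_ge_one {z : ℕ} (hz : 1 ≤ z) : 1 ≤ SV z := by
  unfold SV
  calc (1 : ℝ) = sw 1 := sw_one.symm
    _ ≤ _ := single_le_sum (fun i _ => sw_nonneg i) (mem_Icc.mpr ⟨le_rfl, hz⟩)

lemma lam_one {z : ℕ} (hz : 1 ≤ z) : lam z 1 = 1 := by
  have h := SV_ge_one hz
  unfold lam
  have h1 : (Icc 1 z).filter (fun m => 1 ∣ m) = Icc 1 z := by
    apply filter_true_of_mem
    intro m _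
    exact one_dvd m
  rw [h1]
  have h2 : SV z ≠ 0 := by linarith
  have h3 : ∑ m ∈ Icc 1 z, sw m = SV z := rfl
  rw [h3]
  simp
  field_simp

lemma abs_lam_le {z : ℕ} (hz : 1 ≤ z) (d : ℕ) : |lam z d| ≤ d := by
  have h := SV_ge_one hz
  unfold lam
  rw [abs_mul, abs_div, abs_mul, abs_of_nonneg (Nat.cast_nonneg (α := ℝ) d),
    abs_of_nonneg (by linarith : (0:ℝ) ≤ SV z), abs_of_nonneg (sum_nonneg fun i _ => sw_nonneg i)]
  have h1 : ∑ m ∈ (Icc 1 z).filter (fun m => d ∣ m), sw m ≤ SV z := by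
    unfold SV
    apply sum_le_sum_of_subset_of_nonneg (filter_subset _ _)
    intro i _ _
    exact sw_nonneg i
  have h2 : |((ArithmeticFunction.moebius d : ℤ) : ℝ)| ≤ 1 := by
    have := ArithmeticFunction.abs_moebius_le_one (n := d)
    exact_mod_cast this
  have h0 : 0 ≤ ∑ m ∈ (Icc 1 z).filter (fun m => d ∣ m), sw m :=
    sum_nonneg fun i _ => sw_nonneg i
  rw [div_mul_eq_mul_div, div_le_iff₀ (by linarith)]
  calc (d : ℝ) * |((ArithmeticFunction.moebius d : ℤ) : ℝ)| *
        ∑ m ∈ (Icc 1 z).filter (fun m => d ∣ m), sw m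
      ≤ (d : ℝ) * 1 * SV z := by gcongr
    _ = _ := by ring

/-- Möbius sum over `g ∣ d ∣ m` for squarefree `m`. -/
lemma moebius_sum (z g m : ℕ) (hg : 1 ≤ g) (hm : 1 ≤ m) (hmz : m ≤ z) (hsq : Squarefree m) :
    ∑ d ∈ (Icc 1 z).filter (fun d => g ∣ d ∧ d ∣ m), ArithmeticFunction.moebius d =
      if g = m then ArithmeticFunction.moebius m else 0 := by
  by_cases hgm : g ∣ m
  · obtain ⟨k, rfl⟩ := hgm
    have hk : k ≠ 0 := by
      rintro rfl
      simp at hm
    have h1 : (Icc 1 z).filter (fun d => g ∣ d ∧ d ∣ g * k) =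
        k.divisors.image (fun x => g * x) := by
      ext d
      rw [mem_filter, mem_Icc, mem_image]
      constructor
      · rintro ⟨_, ⟨x, rfl⟩, hd⟩
        refine ⟨x, ?_, rfl⟩
        rw [Nat.mem_divisors]
        exact ⟨Nat.dvd_of_mul_dvd_mul_left (by omega) hd, hk⟩
      · rintro ⟨x, hx, rfl⟩
        rw [Nat.mem_divisors] at hx
        have hx0 : 0 < x := Nat.pos_of_dvd_of_pos hx.1 (Nat.pos_of_ne_zero hk)
        refine ⟨⟨Nat.mul_pos (by omega) hx0, ?_⟩, dvd_mul_right _ _, mul_dvd_mul_left g hx.1⟩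
        calc g * x ≤ g * k := Nat.mul_le_mul_left g (Nat.le_of_dvd (Nat.pos_of_ne_zero hk) hx.1)
          _ ≤ z := hmz
    rw [h1, sum_image]
    · have hcop : Nat.Coprime g k := Nat.coprime_of_squarefree_mul hsq
      have h2 : ∀ x ∈ k.divisors, ArithmeticFunction.moebius (g * x) =
          ArithmeticFunction.moebius g * ArithmeticFunction.moebius x := by
        intro x hx
        apply ArithmeticFunction.isMultiplicative_moebius.map_mul_of_coprime
        exact Nat.Coprime.coprime_dvd_right (Nat.dvd_of_mem_divisors hx) hcop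
      rw [sum_congr rfl h2, ← mul_sum]
      have h3 : ∑ x ∈ k.divisors, ArithmeticFunction.moebius x = if k = 1 then 1 else 0 := by
        rw [← ArithmeticFunction.coe_mul_zeta_apply, ArithmeticFunction.moebius_mul_coe_zeta,
          ArithmeticFunction.one_apply]
      rw [h3]
      by_cases hk1 : k = 1
      · subst hk1
        simp
      · rw [if_neg hk1, mul_zero, if_neg]
        intro h
        apply hk1
        have : g * 1 = g * k := by rw [mul_one]; exact h
        exact (Nat.eq_of_mul_eq_mul_left (by omega) this).symm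
    · intro a _ b _ hab
      exact Nat.eq_of_mul_eq_mul_left (by omega) hab
  · rw [if_neg (by rintro rfl; exact hgm dvd_rfl)]
    apply sum_eq_zero
    intro d hd
    exfalso
    obtain ⟨_, h1, h2⟩ := mem_filter.mp hd
    exact hgm (h1.trans h2)

/-- the diagonalising variables -/
lemma y_eq (z g : ℕ) (hg : 1 ≤ g) (hgz : g ≤ z) :
    ∑ d ∈ (Icc 1 z).filter (fun d => g ∣ d), lam z d / d =
      ((ArithmeticFunction.moebius g : ℤ) : ℝ) * sw g / SV z := by
  have h1 : ∀ d ∈ (Icc 1 z).filter (fun d => g ∣ d), lam z d / d =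
      ∑ m ∈ Icc 1 z, if d ∣ m then (((ArithmeticFunction.moebius d : ℤ) : ℝ) * sw m / SV z) else 0 := by
    intro d hd
    have hd1 : 1 ≤ d := (mem_Icc.mp (mem_filter.mp hd).1).1
    have hd0 : (d : ℝ) ≠ 0 := by
      have : (0 : ℝ) < d := by exact_mod_cast hd1
      exact this.ne'
    unfold lam
    rw [← sum_filter, ← sum_div, ← mul_sum]
    field_simp
  rw [sum_congr rfl h1, sum_comm]
  have h2 : ∀ m ∈ Icc 1 z, ∑ d ∈ (Icc 1 z).filter (fun d => g ∣ d),
      (if d ∣ m then (((ArithmeticFunction.moebius d : ℤ) : ℝ) * sw m / SV z) else 0) =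
      if g = m then (((ArithmeticFunction.moebius m : ℤ) : ℝ) * sw m / SV z) else 0 := by
    intro m hm
    obtain ⟨hm1, hm2⟩ := mem_Icc.mp hm
    rw [← sum_filter, filter_filter]
    by_cases hsq : Squarefree m
    · have h3 := moebius_sum z g m hg hm1 hm2 hsq
      have h4 : ∑ d ∈ (Icc 1 z).filter (fun d => g ∣ d ∧ d ∣ m),
          (((ArithmeticFunction.moebius d : ℤ) : ℝ) * sw m / SV z) =
          ((∑ d ∈ (Icc 1 z).filter (fun d => g ∣ d ∧ d ∣ m),
            ArithmeticFunction.moebius d : ℤ) : ℝ) * sw m / SV z := by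
        push_cast
        rw [sum_mul, sum_div]
      rw [h4, h3]
      split_ifs with h5
      · rfl
      · simp
    · have h3 : sw m = 0 := by
        unfold sw
        rw [ArithmeticFunction.moebius_eq_zero_of_not_squarefree hsq]
        simp
      rw [h3]
      simp
  rw [sum_congr rfl h2, sum_ite_eq, if_pos (mem_Icc.mpr ⟨hg, hgz⟩)]

lemma gcd_eq_sum (z d e : ℕ) (hd : 1 ≤ d) (hdz : d ≤ z) :
    (Nat.gcd d e : ℝ) = ∑ g ∈ Icc 1 z, if (g ∣ d ∧ g ∣ e) then (g.totient : ℝ) else 0 := by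
  have h1 : (Nat.gcd d e : ℝ) = ((∑ g ∈ (Nat.gcd d e).divisors, g.totient : ℕ) : ℝ) := by
    rw [Nat.sum_totient]
  rw [h1, ← sum_filter]
  push_cast
  have hg : 0 < Nat.gcd d e := Nat.gcd_pos_of_pos_left e (by omega)
  apply sum_congr
  · ext g
    rw [Nat.mem_divisors, mem_filter, mem_Icc, Nat.dvd_gcd_iff]
    constructor
    · rintro ⟨⟨h2, h3⟩, _⟩
      exact ⟨⟨Nat.pos_of_dvd_of_pos h2 (by omega), (Nat.le_of_dvd (by omega) h2).trans hdz⟩, h2, h3⟩
    · rintro ⟨_, h2⟩
      exact ⟨h2, hg.ne'⟩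
  · intro g _
    rfl

/-- the quadratic form at the Selberg weights -/
lemma quad_eq (z : ℕ) (hz : 1 ≤ z) :
    ∑ d ∈ Icc 1 z, ∑ e ∈ Icc 1 z, lam z d * lam z e / (Nat.lcm d e) = 1 / SV z := by
  have hV := SV_ge_one hz
  have hV0 : SV z ≠ 0 := by linarith
  have h1 : ∀ d ∈ Icc 1 z, ∀ e ∈ Icc 1 z, lam z d * lam z e / (Nat.lcm d e) =
      ∑ g ∈ Icc 1 z, (g.totient : ℝ) * ((if g ∣ d then lam z d / d else 0) *
        (if g ∣ e then lam z e / e else 0)) := by
    intro d hd e he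
    obtain ⟨hd1, hd2⟩ := mem_Icc.mp hd
    obtain ⟨he1, he2⟩ := mem_Icc.mp he
    have hd0 : (0 : ℝ) < d := by exact_mod_cast hd1
    have he0 : (0 : ℝ) < e := by exact_mod_cast he1
    have hl0 : (0 : ℝ) < (Nat.lcm d e : ℝ) := by
      exact_mod_cast Nat.lcm_pos (by omega) (by omega)
    have h2 : lam z d * lam z e / (Nat.lcm d e) = (lam z d / d) * (lam z e / e) * Nat.gcd d e := by
      have h3 : (Nat.gcd d e : ℝ) * Nat.lcm d e = d * e := by
        exact_mod_cast Nat.gcd_mul_lcm d e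
      rw [div_eq_iff hl0.ne']
      calc lam z d * lam z e = (lam z d / d) * (lam z e / e) * (d * e) := by field_simp
        _ = _ := by rw [← h3]; ring
    rw [h2, gcd_eq_sum z d e hd1 hd2, mul_sum]
    refine sum_congr rfl fun g _ => ?_
    by_cases h4 : g ∣ d <;> by_cases h5 : g ∣ e <;> simp [h4, h5]
    ring
  calc _ = ∑ d ∈ Icc 1 z, ∑ e ∈ Icc 1 z, ∑ g ∈ Icc 1 z, (g.totient : ℝ) *
        ((if g ∣ d then lam z d / d else 0) * (if g ∣ e then lam z e / e else 0)) :=
        sum_congr rfl fun d hd => sum_congr rfl fun e he => h1 d hd e he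
    _ = ∑ g ∈ Icc 1 z, (g.totient : ℝ) *
        (∑ d ∈ (Icc 1 z).filter (fun d => g ∣ d), lam z d / d) ^ 2 := by
        rw [sum_congr rfl fun d _ => sum_comm]
        rw [sum_comm]
        refine sum_congr rfl fun g _ => ?_
        rw [sq, sum_filter, sum_mul_sum, mul_sum]
        refine sum_congr rfl fun d _ => ?_
        rw [mul_sum]
    _ = ∑ g ∈ Icc 1 z, sw g / SV z ^ 2 := by
        refine sum_congr rfl fun g hg => ?_
        obtain ⟨hg1, hg2⟩ := mem_Icc.mp hg
        rw [y_eq z g hg1 hg2]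
        have hφ : (0 : ℝ) < (g.totient : ℝ) := by exact_mod_cast Nat.totient_pos.mpr hg1
        by_cases hsq : Squarefree g
        · have h6 : ((ArithmeticFunction.moebius g : ℤ) : ℝ) ^ 2 = 1 := by
            exact_mod_cast ArithmeticFunction.moebius_sq_eq_one_of_squarefree hsq
          unfold sw
          rw [h6]
          rw [div_pow, mul_pow, h6]
          field_simp
        · have h6 : sw g = 0 := by
            unfold sw
            rw [ArithmeticFunction.moebius_eq_zero_of_not_squarefree hsq]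
            simp
          rw [h6]
          simp
    _ = SV z / SV z ^ 2 := by rw [← sum_div]; rfl
    _ = _ := by field_simp

lemma SV_ge_log (z : ℕ) (hz : 1 ≤ z) : Real.log z / 2 ≤ SV z := by
  have h1 : Real.log z ≤ ∑ n ∈ Icc 1 z, (1 : ℝ) / n := by
    have h2 := log_add_one_le_harmonic z
    have h3 : ((harmonic z : ℚ) : ℝ) = ∑ n ∈ Icc 1 z, (1 : ℝ) / n := by
      rw [harmonic_eq_sum_Icc]
      push_cast
      refine sum_congr rfl fun i _ => ?_
      rw [one_div]
    rw [h3] at h2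
    refine le_trans ?_ h2
    apply Real.log_le_log (by exact_mod_cast hz)
    push_cast
    linarith
  have h2 : ∑ n ∈ Icc 1 z, (1 : ℝ) / n ≤
      ∑ ab ∈ (Icc 1 z ×ˢ Icc 1 z), sw ab.1 * (1 / (ab.2 : ℝ) ^ 2) := by
    have hex : ∀ n : ℕ, ∃ ab : ℕ × ℕ, 0 < n → (0 < ab.1 ∧ 0 < ab.2 ∧ ab.2 ^ 2 * ab.1 = n ∧
        Squarefree ab.1) := by
      intro n
      by_cases hn : 0 < n
      · obtain ⟨a, b, h⟩ := Nat.sq_mul_squarefree_of_pos hn
        exact ⟨(a, b), fun _ => h⟩
      · exact ⟨(0, 0), fun h => absurd h hn⟩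
    choose F hF using hex
    have hinj : Set.InjOn F (Icc 1 z : Finset ℕ) := by
      intro n hn m hm h
      have hn' := mem_Icc.mp (mem_coe.mp hn)
      have hm' := mem_Icc.mp (mem_coe.mp hm)
      rw [← (hF n (by omega)).2.2.1, ← (hF m (by omega)).2.2.1, h]
    calc ∑ n ∈ Icc 1 z, (1 : ℝ) / n
        ≤ ∑ n ∈ Icc 1 z, sw (F n).1 * (1 / ((F n).2 : ℝ) ^ 2) := by
          refine sum_le_sum fun n hn => ?_
          have hn' := mem_Icc.mp hn
          obtain ⟨ha, hb, hab, hsq⟩ := hF n (by omega)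
          have hsw : 1 / ((F n).1 : ℝ) ≤ sw (F n).1 := by
            unfold sw
            have h6 : ((ArithmeticFunction.moebius (F n).1 : ℤ) : ℝ) ^ 2 = 1 := by
              exact_mod_cast ArithmeticFunction.moebius_sq_eq_one_of_squarefree hsq
            rw [h6]
            apply one_div_le_one_div_of_le
            · exact_mod_cast Nat.totient_pos.mpr ha
            · exact_mod_cast Nat.totient_le _
          have hn3 : (n : ℝ) = ((F n).2 : ℝ) ^ 2 * (F n).1 := by exact_mod_cast hab.symm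
          rw [hn3]
          calc 1 / (((F n).2 : ℝ) ^ 2 * (F n).1) = 1 / ((F n).1 : ℝ) * (1 / ((F n).2 : ℝ) ^ 2) := by
                rw [one_div_mul_one_div, mul_comm]
            _ ≤ _ := by gcongr
      _ = ∑ ab ∈ (Icc 1 z).image F, sw ab.1 * (1 / (ab.2 : ℝ) ^ 2) := by
          rw [sum_image hinj]
      _ ≤ _ := by
          apply sum_le_sum_of_subset_of_nonneg
          · intro ab hab
            rw [mem_image] at hab
            obtain ⟨n, hn, rfl⟩ := hab
            have hn' := mem_Icc.mp hn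
            obtain ⟨ha, hb, hab, hsq⟩ := hF n (by omega)
            rw [mem_product, mem_Icc, mem_Icc]
            have h7 : (F n).1 ≤ n := by
              calc (F n).1 ≤ (F n).2 ^ 2 * (F n).1 := Nat.le_mul_of_pos_left _ (by positivity)
                _ = n := hab
            have h8 : (F n).2 ≤ n := by
              calc (F n).2 ≤ (F n).2 ^ 2 := by nlinarith
                _ ≤ (F n).2 ^ 2 * (F n).1 := Nat.le_mul_of_pos_right _ ha
                _ = n := hab
            exact ⟨⟨ha, by omega⟩, hb, by omega⟩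
          · intro i _ _
            have := sw_nonneg i.1
            positivity
  have h3 : ∑ ab ∈ (Icc 1 z ×ˢ Icc 1 z), sw ab.1 * (1 / (ab.2 : ℝ) ^ 2) =
      SV z * ∑ b ∈ Icc 1 z, (1 / (b : ℝ) ^ 2) := by
    rw [sum_product, SV, sum_mul_sum]
  have h4 : ∑ b ∈ Icc 1 z, (1 / (b : ℝ) ^ 2) ≤ 2 := by
    have h5 : Icc 1 z = insert 1 (Ioc 1 z) := by
      ext x
      rw [mem_Icc, mem_insert, mem_Ioc]
      omega
    rw [h5, sum_insert (by simp)]
    have h6 := sum_Ioc_inv_sq_le_sub (α := ℝ) (k := 1) (n := z) one_ne_zero hz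
    have h7 : ∑ b ∈ Ioc 1 z, (1 / (b : ℝ) ^ 2) = ∑ b ∈ Ioc 1 z, ((b : ℝ) ^ 2)⁻¹ := by
      refine sum_congr rfl fun i _ => ?_
      rw [one_div]
    rw [h7]
    have h8 : (0 : ℝ) ≤ (z : ℝ)⁻¹ := by positivity
    simp only [Nat.cast_one, inv_one] at h6
    norm_num
    linarith
  have hV := SV_ge_one hz
  nlinarith

/-- Selberg's sieve: an upper bound for a weighted sum over primes `> z`. -/
theorem selberg (S : Finset ℕ) (w : ℕ → ℝ) (hw : ∀ m, 0 ≤ w m) (z : ℕ) (hz : 2 ≤ z)
    (X E : ℝ) (hX : 0 ≤ X) (hE : 0 ≤ E)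
    (h : ∀ d ∈ Icc 1 (z ^ 2), |∑ m ∈ S.filter (fun m => d ∣ m), w m - X / d| ≤ E) :
    ∑ p ∈ S.filter (fun p => p.Prime ∧ z < p), w p ≤ X * (2 / Real.log z) + E * (z : ℝ) ^ 4 := by
  have hz1 : 1 ≤ z := by omega
  have hV := SV_ge_one hz1
  -- step 1
  have h1 : ∑ p ∈ S.filter (fun p => p.Prime ∧ z < p), w p ≤
      ∑ m ∈ S, w m * (∑ d ∈ (Icc 1 z).filter (fun d => d ∣ m), lam z d) ^ 2 := by
    calc _ ≤ ∑ m ∈ S.filter (fun p => p.Prime ∧ z < p),
          w m * (∑ d ∈ (Icc 1 z).filter (fun d => d ∣ m), lam z d) ^ 2 := by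
          refine sum_le_sum fun p hp => ?_
          obtain ⟨_, hpp, hzp⟩ := mem_filter.mp hp
          have h2 : (Icc 1 z).filter (fun d => d ∣ p) = {1} := by
            ext d
            rw [mem_filter, mem_Icc, mem_singleton]
            constructor
            · rintro ⟨⟨ha, hb⟩, hc⟩
              rcases (Nat.dvd_prime hpp).mp hc with h3 | h3
              · exact h3
              · omega
            · rintro rfl
              exact ⟨⟨le_rfl, hz1⟩, one_dvd _⟩
          rw [h2, sum_singleton, lam_one hz1]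
          simp
      _ ≤ _ := by
          apply sum_le_sum_of_subset_of_nonneg (filter_subset _ _)
          intro i _ _
          exact mul_nonneg (hw i) (sq_nonneg _)
  -- step 2
  have h2 : ∑ m ∈ S, w m * (∑ d ∈ (Icc 1 z).filter (fun d => d ∣ m), lam z d) ^ 2 =
      ∑ d ∈ Icc 1 z, ∑ e ∈ Icc 1 z, lam z d * lam z e *
        ∑ m ∈ S.filter (fun m => Nat.lcm d e ∣ m), w m := by
    calc _ = ∑ m ∈ S, ∑ d ∈ Icc 1 z, ∑ e ∈ Icc 1 z,
          (if Nat.lcm d e ∣ m then lam z d * lam z e * w m else 0) := by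
          refine sum_congr rfl fun m _ => ?_
          rw [sq, sum_filter, sum_mul_sum, mul_sum]
          refine sum_congr rfl fun d _ => ?_
          rw [mul_sum]
          refine sum_congr rfl fun e _ => ?_
          by_cases h4 : d ∣ m <;> by_cases h5 : e ∣ m <;> simp [Nat.lcm_dvd_iff, h4, h5]
          ring
      _ = _ := by
          rw [sum_comm]
          refine sum_congr rfl fun d _ => ?_
          rw [sum_comm]
          refine sum_congr rfl fun e _ => ?_
          rw [← sum_filter, mul_sum]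
  -- step 3
  have h3 : ∑ d ∈ Icc 1 z, ∑ e ∈ Icc 1 z, lam z d * lam z e *
        ∑ m ∈ S.filter (fun m => Nat.lcm d e ∣ m), w m ≤
      ∑ d ∈ Icc 1 z, ∑ e ∈ Icc 1 z, (X * (lam z d * lam z e / (Nat.lcm d e)) +
        (d : ℝ) * e * E) := by
    refine sum_le_sum fun d hd => sum_le_sum fun e he => ?_
    obtain ⟨hd1, hd2⟩ := mem_Icc.mp hd
    obtain ⟨he1, he2⟩ := mem_Icc.mp he
    have hl : Nat.lcm d e ∈ Icc 1 (z ^ 2) := by
      rw [mem_Icc]
      refine ⟨Nat.lcm_pos (by omega) (by omega), ?_⟩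
      calc Nat.lcm d e ≤ d * e := Nat.le_of_dvd (Nat.mul_pos hd1 he1) (Nat.lcm_dvd_mul d e)
        _ ≤ z * z := Nat.mul_le_mul hd2 he2
        _ = z ^ 2 := by ring
    have h4 := h _ hl
    set W := ∑ m ∈ S.filter (fun m => Nat.lcm d e ∣ m), w m with hW
    have h5 : lam z d * lam z e * W = X * (lam z d * lam z e / (Nat.lcm d e)) +
        lam z d * lam z e * (W - X / (Nat.lcm d e)) := by ring
    rw [h5]
    have h6 : lam z d * lam z e * (W - X / (Nat.lcm d e)) ≤ (d : ℝ) * e * E := by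
      calc _ ≤ |lam z d * lam z e * (W - X / (Nat.lcm d e))| := le_abs_self _
        _ = |lam z d| * |lam z e| * |W - X / (Nat.lcm d e)| := by rw [abs_mul, abs_mul]
        _ ≤ d * e * E := by
          have ha := abs_lam_le hz1 d
          have hb := abs_lam_le hz1 e
          gcongr
    linarith
  have h4 : ∑ d ∈ Icc 1 z, ∑ e ∈ Icc 1 z, (X * (lam z d * lam z e / (Nat.lcm d e)) +
        (d : ℝ) * e * E) = X * (1 / SV z) + (∑ d ∈ Icc 1 z, (d : ℝ)) ^ 2 * E := by
    rw [← quad_eq z hz1]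
    simp only [sum_add_distrib]
    congr 1
    · rw [mul_sum]
      refine sum_congr rfl fun d _ => ?_
      rw [mul_sum]
    · rw [sq, sum_mul_sum, sum_mul]
      refine sum_congr rfl fun d _ => ?_
      rw [sum_mul]
  have h5 : (∑ d ∈ Icc 1 z, (d : ℝ)) ≤ (z : ℝ) ^ 2 := by
    calc (∑ d ∈ Icc 1 z, (d : ℝ)) ≤ ∑ d ∈ Icc 1 z, (z : ℝ) := by
          refine sum_le_sum fun d hd => ?_
          exact_mod_cast (mem_Icc.mp hd).2
      _ = _ := by
          rw [sum_const, Nat.card_Icc, nsmul_eq_mul]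
          simp
          ring
  have h6 : (∑ d ∈ Icc 1 z, (d : ℝ)) ^ 2 * E ≤ E * (z : ℝ) ^ 4 := by
    have h7 : (∑ d ∈ Icc 1 z, (d : ℝ)) ^ 2 ≤ ((z : ℝ) ^ 2) ^ 2 :=
      pow_le_pow_left₀ (sum_nonneg fun i _ => Nat.cast_nonneg i) h5 2
    calc _ ≤ ((z : ℝ) ^ 2) ^ 2 * E := by gcongr
      _ = _ := by ring
  have hlogpos : 0 < Real.log z := Real.log_pos (by exact_mod_cast (by omega : 1 < z))
  have h7 : X * (1 / SV z) ≤ X * (2 / Real.log z) := by
    apply mul_le_mul_of_nonneg_left _ hX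
    have h8 := SV_ge_log z hz1
    rw [div_le_div_iff₀ (by linarith) hlogpos]
    linarith
  linarith [h1, h2, h3, h4, h6, h7]

end Pool.Agent.H32.Low
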