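import Mathlib
import Pool.Agent.H32.Low.Regime
import Pool.Agent.H32.Low.Sieve
import Pool.Agent.H32.Low.ShortPrimes

/-!
Assembly of the lower bound.
-/

namespace Pool.Agent.H32.Low

open Finset Filter

/-- Upper bound for the weighted number of primes. -/
theorem prime_upper (D : ℕ) : ∃ η : ℝ, 0 < η ∧ ∀ H : ℕ, 0 < H → ∀ᶠ k : ℕ in atTop, ∀ n : ℕ,
    (16 * (H : ℝ)) ^ 2 * k ≤ n → (n : ℝ) ≤ (k : ℝ) ^ D →
    ∑ p ∈ (Ioc k (KR H k)).filter Nat.Prime, FF H ((n : ℝ) / p) ≤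
      k / ((H : ℝ) ^ 2 * η * Real.log k) := by
  obtain ⟨c, η1, hc0, hc1, hη10, hη11, hreg1⟩ := regime1 D
  set η : ℝ := min η1 (c / 8) with hη
  have hη0 : 0 < η := lt_min hη10 (by positivity)
  have hηle1 : η ≤ η1 := min_le_left _ _
  have hηle2 : η ≤ c / 8 := min_le_right _ _
  refine ⟨η, hη0, ?_⟩
  intro H hH
  have hHR : (0 : ℝ) < H := by exact_mod_cast hH
  have hH1 : (1 : ℝ) ≤ H := by exact_mod_cast hH
  have ev1 := eventually_log_pow ((3 + 13 * H) * (2 * H ^ 2 * η)) 1 (c / 4) (by positivity)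
  have t1 : Tendsto (fun x : ℝ => x ^ (η / 2)) atTop atTop := tendsto_rpow_atTop (by positivity)
  have ev2 : ∀ᶠ k : ℕ in atTop, (2 : ℝ) ≤ (k : ℝ) ^ (η / 2) :=
    tendsto_natCast_atTop_atTop (R := ℝ) |>.eventually (t1.eventually_ge_atTop _)
  have t2 : Tendsto (fun x : ℝ => x ^ (3 / 4 : ℝ)) atTop atTop := tendsto_rpow_atTop (by norm_num)
  have ev3 : ∀ᶠ k : ℕ in atTop, (2 : ℝ) ≤ (k : ℝ) ^ (3 / 4 : ℝ) :=
    tendsto_natCast_atTop_atTop (R := ℝ) |>.eventually (t2.eventually_ge_atTop _)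
  filter_upwards [hreg1 H hH, regime2 H hH, ev1, ev2, ev3, eventually_ge_atTop 8] with
    k r1 r2 h1 h2 h3 hk8 n hn1 hn2
  have hk8' : (8 : ℝ) ≤ k := by exact_mod_cast hk8
  have hk0 : (0 : ℝ) < k := by linarith
  have hk1 : (1 : ℝ) ≤ k := by linarith
  have hlogk : 0 < Real.log k := Real.log_pos (by linarith)
  set K := KR H k with hK
  have hkK : k ≤ K := le_KR H k
  have hkKR : (k : ℝ) ≤ K := by exact_mod_cast hkK
  set z : ℕ := ⌊(k : ℝ) ^ η⌋₊ with hz
  have hsq : (k : ℝ) ^ η = (k : ℝ) ^ (η / 2) * (k : ℝ) ^ (η / 2) := by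
    rw [← Real.rpow_add hk0]
    congr 1
    ring
  have hkη4 : (4 : ℝ) ≤ (k : ℝ) ^ η := by
    rw [hsq]
    nlinarith
  have hzle : (z : ℝ) ≤ (k : ℝ) ^ η := Nat.floor_le (by positivity)
  have hzge : (k : ℝ) ^ (η / 2) ≤ z := by
    have h4 := Nat.lt_floor_add_one ((k : ℝ) ^ η)
    rw [← hz] at h4
    have h5 : 2 * (k : ℝ) ^ (η / 2) ≤ (k : ℝ) ^ η := by
      rw [hsq]
      have : 0 ≤ (k : ℝ) ^ (η / 2) := by positivity
      nlinarith
    linarith
  have hz2 : 2 ≤ z := by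
    have : (2 : ℝ) ≤ z := h2.trans hzge
    exact_mod_cast this
  have hlogz : η / 2 * Real.log k ≤ Real.log z := by
    rw [← Real.log_rpow hk0]
    exact Real.log_le_log (by positivity) hzge
  have hzk : z ≤ k := by
    have : (z : ℝ) ≤ k := by
      refine hzle.trans ?_
      calc (k : ℝ) ^ η ≤ (k : ℝ) ^ (1 : ℝ) := Real.rpow_le_rpow_of_exponent_le hk1 (by linarith)
        _ = k := Real.rpow_one _
    exact_mod_cast this
  have hz4 : (z : ℝ) ^ 4 ≤ (k : ℝ) ^ (4 * η) := by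
    calc (z : ℝ) ^ 4 ≤ ((k : ℝ) ^ η) ^ 4 := pow_le_pow_left₀ (by positivity) hzle 4
      _ = (k : ℝ) ^ (4 * η) := by
          rw [← Real.rpow_natCast, ← Real.rpow_mul hk0.le]
          congr 1
          push_cast
          ring
  have hd2 : ∀ d ∈ Icc 1 (z ^ 2), (d : ℝ) ≤ (k : ℝ) ^ (2 * η) := by
    intro d hd
    have h4 : (d : ℝ) ≤ (z : ℝ) ^ 2 := by exact_mod_cast (mem_Icc.mp hd).2
    calc (d : ℝ) ≤ (z : ℝ) ^ 2 := h4
      _ ≤ ((k : ℝ) ^ η) ^ 2 := pow_le_pow_left₀ (by positivity) hzle 2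
      _ = (k : ℝ) ^ (2 * η) := by
          rw [← Real.rpow_natCast, ← Real.rpow_mul hk0.le]
          congr 1
          push_cast
          ring
  -- the data for the sieve
  obtain ⟨X, Er, hX0, hX1, hE0, hE1, hXE⟩ : ∃ X Er : ℝ, 0 ≤ X ∧ X ≤ k / (8 * H ^ 2) ∧ 0 ≤ Er ∧
      Er * (z : ℝ) ^ 4 ≤ (3 + 13 * H) * (k : ℝ) ^ (1 - c / 4) ∧
      ∀ d ∈ Icc 1 (z ^ 2), |∑ m ∈ (Ioc k K).filter (fun m => d ∣ m), FF H ((n : ℝ) / m) - X / d| ≤
        Er := by
    rcases le_total ((k : ℝ) ^ (3 / 2 : ℝ)) n with hcase | hcase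
    · refine ⟨((K : ℝ) - k) / H, 1 + 2 * (k : ℝ) ^ (1 - c), ?_, ?_, by positivity, ?_, ?_⟩
      · exact div_nonneg (by linarith) hHR.le
      · have h4 := KR_le H k hH
        rw [← hK] at h4
        rw [div_le_div_iff₀ hHR (by positivity)]
        calc ((K : ℝ) - k) * (8 * H ^ 2) ≤ (k / (16 * H)) * (8 * H ^ 2) := by
              have : (K : ℝ) - k ≤ k / (16 * H) := by linarith
              gcongr
          _ = (k : ℝ) * H / 2 := by
              field_simp
              ring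
          _ ≤ (k : ℝ) * H := by
              have : (0 : ℝ) ≤ (k : ℝ) * H := by positivity
              linarith
      · have h4 : (1 : ℝ) ≤ (k : ℝ) ^ (1 - c) := Real.one_le_rpow hk1 (by linarith)
        calc (1 + 2 * (k : ℝ) ^ (1 - c)) * (z : ℝ) ^ 4
            ≤ (3 * (k : ℝ) ^ (1 - c)) * (k : ℝ) ^ (4 * η) := by
              have : 1 + 2 * (k : ℝ) ^ (1 - c) ≤ 3 * (k : ℝ) ^ (1 - c) := by linarith
              gcongr
          _ = 3 * (k : ℝ) ^ (1 - c + 4 * η) := by rw [Real.rpow_add hk0]; ring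
          _ ≤ 3 * (k : ℝ) ^ (1 - c / 4) := by
              have := Real.rpow_le_rpow_of_exponent_le hk1
                (show 1 - c + 4 * η ≤ 1 - c / 4 by linarith)
              linarith
          _ ≤ (3 + 13 * H) * (k : ℝ) ^ (1 - c / 4) := by
              have : (0 : ℝ) ≤ (k : ℝ) ^ (1 - c / 4) := by positivity
              nlinarith
      · intro d hd
        have hdpos : 0 < d := (mem_Icc.mp hd).1
        apply r1 n d hcase hn2 hdpos
        refine (hd2 d hd).trans ?_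
        apply Real.rpow_le_rpow_of_exponent_le hk1
        linarith
    · obtain ⟨hW, hdd⟩ := r2 n hn1 hcase
      refine ⟨∑ x ∈ Ioc k K, FF H ((n : ℝ) / x), 2 + 13 * H * (k : ℝ) ^ (1 / 2 : ℝ), ?_, hW,
        by positivity, ?_, ?_⟩
      · exact sum_nonneg fun x _ => FF_nonneg H _
      · have h4 : (1 : ℝ) ≤ (k : ℝ) ^ (1 / 2 : ℝ) := Real.one_le_rpow hk1 (by norm_num)
        calc (2 + 13 * H * (k : ℝ) ^ (1 / 2 : ℝ)) * (z : ℝ) ^ 4
            ≤ ((3 + 13 * H) * (k : ℝ) ^ (1 / 2 : ℝ)) * (k : ℝ) ^ (4 * η) := by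
              have : 2 + 13 * H * (k : ℝ) ^ (1 / 2 : ℝ) ≤ (3 + 13 * H) * (k : ℝ) ^ (1 / 2 : ℝ) := by
                nlinarith
              gcongr
          _ = (3 + 13 * H) * (k : ℝ) ^ (1 / 2 + 4 * η) := by rw [Real.rpow_add hk0]; ring
          _ ≤ (3 + 13 * H) * (k : ℝ) ^ (1 - c / 4) := by
              have := Real.rpow_le_rpow_of_exponent_le hk1
                (show 1 / 2 + 4 * η ≤ 1 - c / 4 by linarith)
              gcongr
      · intro d hd
        have hdpos : 0 < d := (mem_Icc.mp hd).1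
        apply hdd d hdpos
        refine (hd2 d hd).trans ?_
        have h5 : (k : ℝ) ^ (2 * η) * 2 ≤ k := by
          calc (k : ℝ) ^ (2 * η) * 2 ≤ (k : ℝ) ^ (1 / 4 : ℝ) * (k : ℝ) ^ (3 / 4 : ℝ) := by
                have : (k : ℝ) ^ (2 * η) ≤ (k : ℝ) ^ (1 / 4 : ℝ) :=
                  Real.rpow_le_rpow_of_exponent_le hk1 (by linarith)
                gcongr
            _ = k := by
                rw [← Real.rpow_add hk0]
                norm_num
        linarith
  have hsel := selberg (Ioc k K) (fun m => FF H ((n : ℝ) / m)) (fun m => FF_nonneg H _) z hz2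
    X Er hX0 hE0 hXE
  have hfil : (Ioc k K).filter (fun p => p.Prime ∧ z < p) = (Ioc k K).filter Nat.Prime := by
    apply filter_congr
    intro p hp
    have := (mem_Ioc.mp hp).1
    constructor
    · rintro ⟨h, _⟩; exact h
    · intro h; exact ⟨h, by omega⟩
  rw [hfil] at hsel
  refine hsel.trans ?_
  have hlogz0 : 0 < Real.log z := lt_of_lt_of_le (by positivity) hlogz
  have h5 : X * (2 / Real.log z) ≤ k / (8 * H ^ 2) * (2 / (η / 2 * Real.log k)) := by
    apply mul_le_mul hX1 _ (by positivity) (by positivity)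
    apply div_le_div_of_nonneg_left (by norm_num) (by positivity) hlogz
  have h6 : (k : ℝ) / (8 * H ^ 2) * (2 / (η / 2 * Real.log k)) =
      k / ((H : ℝ) ^ 2 * η * Real.log k) / 2 := by
    field_simp
    ring
  have h7 : (3 + 13 * H) * (k : ℝ) ^ (1 - c / 4) ≤ k / ((H : ℝ) ^ 2 * η * Real.log k) / 2 := by
    rw [div_div, le_div_iff₀ (by positivity)]
    have h8 : (k : ℝ) ^ (1 - c / 4) * (k : ℝ) ^ (c / 4) = k := by
      rw [← Real.rpow_add hk0]
      norm_num
    rw [pow_one] at h1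
    calc (3 + 13 * H) * (k : ℝ) ^ (1 - c / 4) * ((H : ℝ) ^ 2 * η * Real.log k * 2)
        = (k : ℝ) ^ (1 - c / 4) * ((3 + 13 * H) * (2 * H ^ 2 * η) * Real.log k) := by ring
      _ ≤ (k : ℝ) ^ (1 - c / 4) * ((3 + 13 * H) * (2 * H ^ 2 * η) * (1 + Real.log k)) := by
          gcongr
          linarith
      _ ≤ (k : ℝ) ^ (1 - c / 4) * (k : ℝ) ^ (c / 4) := by gcongr
      _ = k := h8
  calc _ ≤ k / ((H : ℝ) ^ 2 * η * Real.log k) / 2 + k / ((H : ℝ) ^ 2 * η * Real.log k) / 2 := by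
        apply add_le_add
        · rw [← h6]; exact h5
        · exact hE1.trans h7
    _ = _ := by ring

/-- Lower bound for the number of primes. -/
lemma prime_count (H : ℕ) (hH : 0 < H) : ∀ᶠ k : ℕ in atTop,
    (k : ℝ) / (25600 * H * Real.log k) ≤ (((Ioc k (KR H k)).filter Nat.Prime).card : ℝ) := by
  have hHR : (0 : ℝ) < H := by exact_mod_cast hH
  have hH1 : (1 : ℝ) ≤ H := by exact_mod_cast hH
  have h1 := short_primes (1 / (16 * H)) (by positivity) (by
    rw [div_le_one (by positivity)]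
    linarith)
  filter_upwards [h1, eventually_ge_atTop 8] with k hk hk8
  have hk8' : (8 : ℝ) ≤ k := by exact_mod_cast hk8
  have hk0 : (0 : ℝ) < k := by linarith
  have hlogk : 0 < Real.log k := Real.log_pos (by linarith)
  have hK2 : (KR H k : ℝ) ≤ 2 * k := by
    have h2 := KR_le H k hH
    have h3 : (k : ℝ) / (16 * H) ≤ k := div_le_self hk0.le (by linarith)
    linarith
  have h4 : ∑ p ∈ (Ioc k (KR H k)).filter Nat.Prime, Real.log p ≤
      (((Ioc k (KR H k)).filter Nat.Prime).card : ℝ) * (2 * Real.log k) := by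
    rw [← nsmul_eq_mul, ← sum_const]
    refine sum_le_sum fun p hp => ?_
    have hp1 := (mem_Ioc.mp (mem_filter.mp hp).1)
    have hpk : (p : ℝ) ≤ k ^ 2 := by
      have : (p : ℝ) ≤ KR H k := by exact_mod_cast hp1.2
      nlinarith
    have hp0 : (0 : ℝ) < p := by
      have : 0 < p := by omega
      exact_mod_cast this
    calc Real.log p ≤ Real.log ((k : ℝ) ^ 2) := Real.log_le_log hp0 hpk
      _ = 2 * Real.log k := by rw [Real.log_pow]; norm_num
  have h5 : 1 / (16 * (H : ℝ)) / 800 * k ≤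
      (((Ioc k (KR H k)).filter Nat.Prime).card : ℝ) * (2 * Real.log k) := hk.trans h4
  rw [div_le_iff₀ (by positivity)]
  have h6 : (k : ℝ) = (1 / (16 * (H : ℝ)) / 800 * k) * (12800 * H) := by
    field_simp
    norm_num
  calc (k : ℝ) = (1 / (16 * (H : ℝ)) / 800 * k) * (12800 * H) := h6
    _ ≤ (((Ioc k (KR H k)).filter Nat.Prime).card : ℝ) * (2 * Real.log k) * (12800 * H) := by
        gcongr
    _ = _ := by ring

/-- If no term of the product is divisible by `p`, then `n / p` is near an integer. -/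
lemma near_int (n k p : ℕ) (hkp : k < p) (δ : ℝ) (hδ : 0 ≤ δ)
    (hp : (p : ℝ) ≤ k + k * δ) (hdiv : ¬ p ∣ ∏ i ∈ Icc 1 k, (n - i)) :
    ∃ m : ℤ, |(n : ℝ) / p - m| ≤ δ := by
  have hp0 : (0 : ℝ) < p := by
    have : 0 < p := by omega
    exact_mod_cast this
  obtain ⟨q, hq⟩ : ∃ q : ℕ, q = n / p := ⟨_, rfl⟩
  have hdm : (p : ℝ) * (q : ℝ) + ((n % p : ℕ) : ℝ) = n := by
    rw [hq]
    exact_mod_cast Nat.div_add_mod n p
  have hmod : n % p < p := Nat.mod_lt n (by omega)
  by_cases h0 : n % p = 0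
  · refine ⟨(q : ℤ), ?_⟩
    rw [h0] at hdm
    have : (n : ℝ) / p - ((q : ℤ) : ℝ) = 0 := by
      rw [sub_eq_zero, div_eq_iff hp0.ne']
      push_cast at hdm ⊢
      linarith
    rw [this, abs_zero]
    exact hδ
  · have hlt : k < n % p := by
      by_contra hle
      apply hdiv
      have hle' : n % p ≤ k := not_lt.mp hle
      have hmem : n % p ∈ Icc 1 k := mem_Icc.mpr ⟨by omega, hle'⟩
      refine dvd_trans ?_ (Finset.dvd_prod_of_mem (fun i => n - i) hmem)
      exact Nat.dvd_sub_mod n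
    refine ⟨(q : ℤ) + 1, ?_⟩
    have e : (n : ℝ) / p - (((q : ℤ) + 1 : ℤ) : ℝ) = -((p - ((n % p : ℕ) : ℝ)) / p) := by
      obtain ⟨r, hr⟩ : ∃ r : ℕ, r = n % p := ⟨_, rfl⟩
      rw [← hr] at hdm ⊢
      push_cast
      rw [← hdm]
      field_simp
      ring
    have h1 : ((n % p : ℕ) : ℝ) < p := by exact_mod_cast hmod
    have h2 : (k : ℝ) < ((n % p : ℕ) : ℝ) := by exact_mod_cast hlt
    rw [e, abs_neg, abs_of_nonneg (div_nonneg (by linarith) hp0.le), div_le_iff₀ hp0]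
    have h3 : (k : ℝ) < p := by exact_mod_cast hkp
    have h4 : (k : ℝ) * δ ≤ δ * p := by nlinarith
    linarith

/-- multiples in the window -/
lemma dvd_window (n k p j : ℕ) (h1 : n ≤ j * p + k) (h2 : j * p + 1 ≤ n) :
    p ∣ ∏ i ∈ Icc 1 k, (n - i) := by
  have hmem : n - j * p ∈ Icc 1 k := by
    rw [mem_Icc]
    omega
  refine dvd_trans ?_ (Finset.dvd_prod_of_mem (fun i => n - i) hmem)
  have : n - (n - j * p) = j * p := by omega
  simp only [this]
  exact dvd_mul_left p j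

/-- existence of a prime in `(k, (1+d) k]` -/
lemma exists_prime (d : ℝ) (h0 : 0 < d) (h1 : d ≤ 1) : ∀ᶠ k : ℕ in atTop,
    ∃ p : ℕ, p.Prime ∧ k < p ∧ (p : ℝ) ≤ (1 + d) * k := by
  filter_upwards [short_primes d h0 h1, eventually_ge_atTop 1] with k hk hk1
  have hkR : (0 : ℝ) < k := by exact_mod_cast hk1
  by_contra hno
  have hempty : (Ioc k ⌊(1 + d) * k⌋₊).filter Nat.Prime = ∅ := by
    rw [filter_eq_empty_iff]
    intro p hp hpp
    apply hno
    refine ⟨p, hpp, (mem_Ioc.mp hp).1, ?_⟩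
    exact (Nat.le_floor_iff (by positivity)).mp (mem_Ioc.mp hp).2
  rw [hempty, sum_empty] at hk
  have : 0 < d / 800 * k := by positivity
  linarith

/-- The range `n ≤ C k`. -/
lemma small_n (C : ℕ) (hC : 2 ≤ C) : ∀ᶠ k : ℕ in atTop, ∀ n : ℕ, 2 * k ≤ n → n ≤ C * k →
    ∃ p : ℕ, p.Prime ∧ k < p ∧ p < 2 * k ∧ p ∣ ∏ i ∈ Icc 1 k, (n - i) := by
  have hCR : (2 : ℝ) ≤ C := by exact_mod_cast hC
  set ε : ℝ := 1 / (4 * C) with hε
  have hε0 : 0 < ε := by positivity
  have hεC : ε * C = 1 / 4 := by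
    rw [hε]; field_simp
  have hε1 : ε ≤ 1 / 8 := by nlinarith
  have ev1 := exists_prime ε hε0 (by linarith)
  have ev2 := exists_prime (ε / 4) (by linarith) (by linarith)
  have hfl : Tendsto (fun k : ℕ => ⌊(1 + 3 * ε) * (k : ℝ)⌋₊) atTop atTop := by
    apply tendsto_nat_floor_atTop.comp
    exact (tendsto_natCast_atTop_atTop (R := ℝ)).const_mul_atTop (by linarith)
  have ev3 : ∀ᶠ k : ℕ in atTop, 1 ≤ ε * (k : ℝ) :=
    ((tendsto_natCast_atTop_atTop (R := ℝ)).const_mul_atTop hε0).eventually_ge_atTop 1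
  filter_upwards [ev1, hfl.eventually ev2, ev3, eventually_ge_atTop 3] with k h1 h2 h3 hk3 n hn1 hn2
  have hkR : (3 : ℝ) ≤ k := by exact_mod_cast hk3
  have hk0 : (0 : ℝ) < k := by linarith
  set j : ℕ := (n - 1) / k with hj
  have hj1 : j * k ≤ n - 1 := Nat.div_mul_le_self (n - 1) k
  have hj2 : n - 1 < (j + 1) * k := by
    have := Nat.lt_mul_div_succ (n - 1) (show 0 < k by omega)
    rw [mul_comm]
    exact this
  have hjpos : 1 ≤ j := by
    rw [hj, Nat.le_div_iff_mul_le (by omega)]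
    omega
  have hjC : j ≤ C := by
    by_contra h
    have h4 : C + 1 ≤ j := by omega
    have h5 : (C + 1) * k ≤ j * k := Nat.mul_le_mul_right k h4
    have h6 : (C + 1) * k = C * k + k := by ring
    omega
  have hjCR : (j : ℝ) ≤ C := by exact_mod_cast hjC
  have hnR : ((n - 1 : ℕ) : ℝ) = (n : ℝ) - 1 := by
    rw [Nat.cast_sub (by omega)]
    simp
  have hj1R : (j : ℝ) * k ≤ (n : ℝ) - 1 := by
    rw [← hnR]
    exact_mod_cast hj1
  by_cases hcase : (j : ℝ) * ((1 + ε) * k) ≤ (n : ℝ) - 1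
  · obtain ⟨p, hp, hkp, hpε⟩ := h1
    refine ⟨p, hp, hkp, ?_, ?_⟩
    · have : (p : ℝ) < 2 * k := by nlinarith
      exact_mod_cast this
    · apply dvd_window n k p j
      · have h5 : j * k ≤ j * p := Nat.mul_le_mul_left j hkp.le
        have h6 : (j + 1) * k = j * k + k := by ring
        omega
      · have h5 : (j : ℝ) * p ≤ (n : ℝ) - 1 := by
          refine le_trans ?_ hcase
          gcongr
        have h6 : ((j * p + 1 : ℕ) : ℝ) ≤ n := by
          push_cast
          linarith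
        exact_mod_cast h6
  · have hcase' : (n : ℝ) - 1 < (j : ℝ) * ((1 + ε) * k) := not_le.mp hcase
    have hj2' : 2 ≤ j := by
      by_contra h
      have hj1' : j = 1 := by omega
      rw [hj1'] at hcase'
      have hn1R : (2 : ℝ) * k ≤ n := by exact_mod_cast hn1
      push_cast at hcase'
      nlinarith
    obtain ⟨p, hp, hkp, hpε⟩ := h2
    have hfl1 : (⌊(1 + 3 * ε) * (k : ℝ)⌋₊ : ℝ) ≤ (1 + 3 * ε) * k := Nat.floor_le (by positivity)
    have hfl2 : (1 + 3 * ε) * (k : ℝ) < p := by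
      rw [Nat.floor_lt (by positivity)] at hkp
      exact hkp
    have hpup : (p : ℝ) ≤ (1 + 4 * ε) * k := by
      calc (p : ℝ) ≤ (1 + ε / 4) * (⌊(1 + 3 * ε) * (k : ℝ)⌋₊ : ℝ) := hpε
        _ ≤ (1 + ε / 4) * ((1 + 3 * ε) * k) := by gcongr
        _ ≤ (1 + 4 * ε) * k := by
            have : (1 + ε / 4) * (1 + 3 * ε) ≤ 1 + 4 * ε := by nlinarith
            calc (1 + ε / 4) * ((1 + 3 * ε) * k) = ((1 + ε / 4) * (1 + 3 * ε)) * k := by ring
              _ ≤ _ := by gcongr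
    refine ⟨p, hp, ?_, ?_, ?_⟩
    · have : (k : ℝ) < p := by nlinarith
      exact_mod_cast this
    · have : (p : ℝ) < 2 * k := by nlinarith
      exact_mod_cast this
    · have hj2R : (2 : ℝ) ≤ j := by exact_mod_cast hj2'
      apply dvd_window n k p (j - 1)
      · have h5 : (n : ℝ) ≤ ((j : ℝ) - 1) * p + k := by
          have h6 : ((j : ℝ) - 1) * ((1 + 3 * ε) * k) ≤ ((j : ℝ) - 1) * p := by
            have : (0 : ℝ) ≤ (j : ℝ) - 1 := by linarith
            gcongr
          have h7 : (j : ℝ) * ((1 + ε) * k) + 1 ≤ ((j : ℝ) - 1) * ((1 + 3 * ε) * k) + k := by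
            have h8 : 0 ≤ ((j : ℝ) - 2) * (ε * k) := by
              have : (0 : ℝ) ≤ (j : ℝ) - 2 := by linarith
              positivity
            nlinarith
          linarith
        have h6 : (n : ℝ) ≤ (((j - 1) * p + k : ℕ) : ℝ) := by
          push_cast
          rw [Nat.cast_sub (by omega)]
          push_cast
          exact h5
        exact_mod_cast h6
      · have h5 : ((j : ℝ) - 1) * p + 1 ≤ n := by
          have h6 : ((j : ℝ) - 1) * p ≤ ((j : ℝ) - 1) * ((1 + 4 * ε) * k) := by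
            have : (0 : ℝ) ≤ (j : ℝ) - 1 := by linarith
            gcongr
          have h7 : ((j : ℝ) - 1) * ((1 + 4 * ε) * k) ≤ j * k := by
            have h8 : ((j : ℝ) - 1) * (1 + 4 * ε) ≤ j := by nlinarith
            calc ((j : ℝ) - 1) * ((1 + 4 * ε) * k) = (((j : ℝ) - 1) * (1 + 4 * ε)) * k := by ring
              _ ≤ _ := by gcongr
          linarith
        have h6 : (((j - 1) * p + 1 : ℕ) : ℝ) ≤ n := by
          push_cast
          rw [Nat.cast_sub (by omega)]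
          push_cast
          exact h5
        exact_mod_cast h6

/-- **Main theorem.** For `2k ≤ n ≤ k^D` and `k` large, some prime in `(k, 2k)` divides
`(n-1)⋯(n-k)`. -/
theorem main_lower (D : ℕ) : ∀ᶠ k : ℕ in atTop, ∀ n : ℕ, 2 * k ≤ n → (n : ℝ) ≤ (k : ℝ) ^ D →
    ∃ p : ℕ, p.Prime ∧ k < p ∧ p < 2 * k ∧ p ∣ ∏ i ∈ Icc 1 k, (n - i) := by
  obtain ⟨η, hη0, hup⟩ := prime_upper D
  obtain ⟨H, hHη⟩ := exists_nat_gt (51200 / η)
  have hHpos : 0 < H := by
    have : (0 : ℝ) < H := lt_trans (by positivity) hHη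
    exact_mod_cast this
  have hHR : (0 : ℝ) < H := by exact_mod_cast hHpos
  have hH1 : (1 : ℝ) ≤ H := by exact_mod_cast hHpos
  filter_upwards [hup H hHpos, prime_count H hHpos, small_n ((16 * H) ^ 2) (by nlinarith),
    eventually_ge_atTop 8] with k h1 h2 h3 hk8 n hn1 hn2
  have hk8' : (8 : ℝ) ≤ k := by exact_mod_cast hk8
  have hk0 : (0 : ℝ) < k := by linarith
  have hlogk : 0 < Real.log k := Real.log_pos (by linarith)
  rcases le_total n ((16 * H) ^ 2 * k) with hcase | hcase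
  · exact h3 n hn1 hcase
  by_contra hno
  push Not at hno
  have hcase' : (16 * (H : ℝ)) ^ 2 * k ≤ n := by exact_mod_cast hcase
  have h4 := h1 n hcase' hn2
  have hKup := KR_le H k hHpos
  have h5 : ∀ p ∈ (Ioc k (KR H k)).filter Nat.Prime, (1 / 2 : ℝ) ≤ FF H ((n : ℝ) / p) := by
    intro p hp
    obtain ⟨hp1, hpp⟩ := mem_filter.mp hp
    obtain ⟨hkp, hpK⟩ := mem_Ioc.mp hp1
    have hpKR : (p : ℝ) ≤ KR H k := by exact_mod_cast hpK
    have hp2 : p < 2 * k := by
      have h6 : (k : ℝ) / (16 * H) < k := div_lt_self hk0 (by linarith)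
      have : (p : ℝ) < 2 * k := by linarith
      exact_mod_cast this
    obtain ⟨m, hm⟩ := near_int n k p hkp (1 / (16 * H)) (by positivity) (by
      refine (hpKR.trans hKup).trans (le_of_eq ?_)
      ring) (hno p hpp hkp hp2)
    exact FF_ge H hHpos _ m hm
  have h6 : (((Ioc k (KR H k)).filter Nat.Prime).card : ℝ) * (1 / 2) ≤
      ∑ p ∈ (Ioc k (KR H k)).filter Nat.Prime, FF H ((n : ℝ) / p) := by
    rw [← nsmul_eq_mul, ← sum_const]
    exact sum_le_sum h5
  have h7 : (k : ℝ) / (25600 * H * Real.log k) * (1 / 2) ≤ k / ((H : ℝ) ^ 2 * η * Real.log k) := by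
    refine le_trans ?_ (h6.trans h4)
    gcongr
  have h8 : (k : ℝ) / ((H : ℝ) ^ 2 * η * Real.log k) <
      (k : ℝ) / (25600 * H * Real.log k) * (1 / 2) := by
    have e : (k : ℝ) / (25600 * H * Real.log k) * (1 / 2) = k / (51200 * H * Real.log k) := by
      field_simp
      norm_num
    rw [e]
    apply div_lt_div_of_pos_left hk0 (by positivity)
    rw [div_lt_iff₀ hη0] at hHη
    have h9 : 51200 * (H * Real.log k) < (H * η) * (H * Real.log k) := by
      apply mul_lt_mul_of_pos_right hHη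
      positivity
    calc 51200 * (H : ℝ) * Real.log k = 51200 * (H * Real.log k) := by ring
      _ < (H * η) * (H * Real.log k) := h9
      _ = _ := by ring
  linarith

end Pool.Agent.H32.Low
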